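import Pool.Agent.Lib.MP_640417_ag.TATE.FP.Defs
import Pool.Agent.Lib.TATE.Iface

/-!
# PROJECT TATE, package FP: the theorem of the fixed part in the form of the interface
-/

set_option autoImplicit false

open Metric Set Complex

noncomputable section

namespace Pool.Agent.A640.Tate

/-- The theorem of the fixed part in the form of `TATE/Iface.lean`. -/
theorem tFP_of (h : ThmFP) : TATE.StmtFP := by
  intro V iA iN iF F hF M d O hO z hz z' hz' c hc a
  have hm : ∀ {w : ℂ}, w ∈ {w | w ∉ hF.toFinset} → w ∉ F := fun {w} hw hw' =>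
    hw (hF.mem_toFinset.2 hw')
  have hm' : ∀ {w : ℂ}, w ∉ F → w ∈ {w | w ∉ hF.toFinset} := fun {w} hw hw' =>
    hw (hF.mem_toFinset.1 hw')
  have hT : ∀ w ∉ F, IsTr M.L M.E O w (M.r w) (M.τ w) := fun w hw =>
    ⟨M.rpos w hw, M.one w hw, M.lat w hw, M.iso w hw, fun w' hw' => (hO.flat w hw w' hw').symm,
      M.hol w hw⟩
  have hB : ∀ w ∉ F, ball w (M.r w) ⊆ {w | w ∉ hF.toFinset} := fun w hw w' hw' =>
    hm' (M.dom w hw w' hw')
  have hFm : IsFm {w | w ∉ hF.toFinset} M.L M.E O :=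
    ⟨fun w hw => M.cnt w (hm hw), fun w hw => M.spn w (hm hw), fun w hw => M.alt w (hm hw),
      fun w hw => M.cpx w (hm hw), fun w hw => M.pos w (hm hw), fun w hw => hO.fin w (hm hw),
      fun w hw => ⟨M.r w, M.τ w, hB w (hm hw), hT w (hm hw)⟩⟩
  exact h V iA iN iF d hF.toFinset M.L M.E O hFm z (M.r z) (M.τ z) (hB z hz) (hT z hz) c hc z' hz' a

end Pool.Agent.A640.Tate
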