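import Pool.Agent.Lib.MP_640417_ag.TATE.FP.Spec

/-!
# PROJECT TATE, package FP: the Gram matrix of a transport
-/

set_option autoImplicit false

open Metric Set Complex

noncomputable section

namespace Pool.Agent.A640.Tate

namespace FPBase

variable {V : Type} [NormedAddCommGroup V] [NormedSpace ℂ V] {ι : Type} [Fintype ι] [DecidableEq ι]

/-- The matrix of the transport. -/
def TT (b : Module.Basis ι ℝ V) (τ : ℂ → (V ≃ₗ[ℝ] V)) (z : ℂ) : Matrix ι ι ℝ :=
  LinearMap.toMatrix b b (τ z).toLinearMap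

/-- The matrix of multiplication by `i`. -/
def II (b : Module.Basis ι ℝ V) : Matrix ι ι ℝ := LinearMap.toMatrix b b (mI V)

/-- The matrix of the Riemann form at `w0`. -/
def EE (b : Module.Basis ι ℝ V) (E : V →ₗ[ℝ] V →ₗ[ℝ] ℝ) : Matrix ι ι ℝ :=
  Matrix.of fun k l => E (b k) (b l)

theorem mI_apply (v : V) : mI V v = Complex.I • v := rfl

theorem TT_apply (b : Module.Basis ι ℝ V) (τ : ℂ → (V ≃ₗ[ℝ] V)) (z : ℂ) (k l : ι) :
    TT b τ z k l = b.coord k (τ z (b l)) := by
  rw [TT, LinearMap.toMatrix_apply, Module.Basis.coord_apply]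
  rfl

theorem mI_mI : (mI V) ∘ₗ (mI V) = -LinearMap.id := by
  ext v
  simp only [LinearMap.comp_apply, mI_apply, LinearMap.neg_apply, LinearMap.id_apply]
  rw [smul_smul, Complex.I_mul_I, neg_one_smul]

theorem II_II (b : Module.Basis ι ℝ V) : II b * II b = -1 := by
  rw [II, ← LinearMap.toMatrix_comp, mI_mI, map_neg, LinearMap.toMatrix_id]

/-- The inverse of the matrix of the transport. -/
theorem TT_mul (b : Module.Basis ι ℝ V) (τ : ℂ → (V ≃ₗ[ℝ] V)) (z : ℂ) :
    LinearMap.toMatrix b b (τ z).symm.toLinearMap * TT b τ z = 1 := by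
  rw [TT, ← LinearMap.toMatrix_comp]
  have h : (τ z).symm.toLinearMap ∘ₗ (τ z).toLinearMap = LinearMap.id := by
    ext v
    simp
  rw [h, LinearMap.toMatrix_id]

theorem TT_inv (b : Module.Basis ι ℝ V) (τ : ℂ → (V ≃ₗ[ℝ] V)) (z : ℂ) :
    (TT b τ z)⁻¹ = LinearMap.toMatrix b b (τ z).symm.toLinearMap :=
  Matrix.inv_eq_left_inv (TT_mul b τ z)

theorem TT_unit (b : Module.Basis ι ℝ V) (τ : ℂ → (V ≃ₗ[ℝ] V)) (z : ℂ) :
    IsUnit (TT b τ z).det :=
  Matrix.isUnit_det_of_left_inverse (TT_mul b τ z)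

theorem Jm_eq (b : Module.Basis ι ℝ V) (τ : ℂ → (V ≃ₗ[ℝ] V)) (z : ℂ) :
    Jm b τ z = (TT b τ z)⁻¹ * II b * TT b τ z := by
  rw [TT_inv, TT, II, ← LinearMap.toMatrix_comp, ← LinearMap.toMatrix_comp]
  ext k l
  rw [LinearMap.toMatrix_apply, Jm, Matrix.of_apply, Module.Basis.coord_apply]
  rfl

theorem Jm_Jm (b : Module.Basis ι ℝ V) (τ : ℂ → (V ≃ₗ[ℝ] V)) (z : ℂ) :
    Jm b τ z * Jm b τ z = -1 := by
  have hu := TT_unit b τ z
  have h1 : TT b τ z * (TT b τ z)⁻¹ = 1 := Matrix.mul_nonsing_inv _ hu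
  have h2 : (TT b τ z)⁻¹ * TT b τ z = 1 := Matrix.nonsing_inv_mul _ hu
  calc Jm b τ z * Jm b τ z
      = (TT b τ z)⁻¹ * II b * (TT b τ z * (TT b τ z)⁻¹) * II b * TT b τ z := by
        rw [Jm_eq]; simp only [Matrix.mul_assoc]
    _ = (TT b τ z)⁻¹ * (II b * II b) * TT b τ z := by
        rw [h1, Matrix.mul_one]; simp only [Matrix.mul_assoc]
    _ = -1 := by
        rw [II_II, Matrix.mul_neg, Matrix.mul_one, Matrix.neg_mul, h2]

/-- The columns of `J`. -/
theorem I_smul (b : Module.Basis ι ℝ V) (τ : ℂ → (V ≃ₗ[ℝ] V)) (z : ℂ) (l : ι) :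
    Complex.I • τ z (b l) = ∑ m, Jm b τ z m l • τ z (b m) := by
  have h1 : (τ z).symm (Complex.I • τ z (b l)) = ∑ m, Jm b τ z m l • b m := by
    rw [← b.sum_repr ((τ z).symm (Complex.I • τ z (b l)))]
    rfl
  have h2 := congrArg (τ z) h1
  rw [LinearEquiv.apply_symm_apply, map_sum] at h2
  rw [h2]
  exact Finset.sum_congr rfl fun m _ => map_smul _ _ _

theorem E_I (E : V →ₗ[ℝ] V →ₗ[ℝ] ℝ) (hi : ∀ u v, E (Complex.I • u) (Complex.I • v) = E u v)
    (u v : V) : E u (Complex.I • v) = -E (Complex.I • u) v := by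
  have h := hi u (Complex.I • v)
  rw [smul_smul, Complex.I_mul_I, neg_one_smul, map_neg] at h
  exact h.symm

theorem Gm_eq (b : Module.Basis ι ℝ V) (E : ℂ → V →ₗ[ℝ] V →ₗ[ℝ] ℝ) (τ : ℂ → (V ≃ₗ[ℝ] V)) (w0 z : ℂ)
    (hi : ∀ u v, E z (Complex.I • u) (Complex.I • v) = E z u v)
    (hp : ∀ u v, E z (τ z u) (τ z v) = E w0 u v) :
    Gm b E τ z = -(EE b (E w0) * Jm b τ z) := by
  ext k l
  rw [Matrix.neg_apply, Matrix.mul_apply, Gm, Matrix.of_apply]
  have h1 : E z (τ z (b k)) (Complex.I • τ z (b l)) =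
      ∑ m, EE b (E w0) k m * Jm b τ z m l := by
    rw [I_smul b τ z l, map_sum]
    refine Finset.sum_congr rfl fun m _ => ?_
    rw [map_smul, hp, smul_eq_mul, mul_comm, EE, Matrix.of_apply]
  rw [← h1, E_I (E z) hi]
  ring

theorem E_sum (b : Module.Basis ι ℝ V) (E : ℂ → V →ₗ[ℝ] V →ₗ[ℝ] ℝ) (τ : ℂ → (V ≃ₗ[ℝ] V)) (z : ℂ)
    (x : ι → ℝ) :
    dotProduct x (Matrix.mulVec (Gm b E τ z) x) =
      E z (Complex.I • τ z (∑ k, x k • b k)) (τ z (∑ k, x k • b k)) := by
  have h1 : τ z (∑ k, x k • b k) = ∑ k, x k • τ z (b k) := by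
    rw [map_sum]
    exact Finset.sum_congr rfl fun m _ => map_smul _ _ _
  have h2 : Complex.I • τ z (∑ k, x k • b k) = ∑ k, x k • (Complex.I • τ z (b k)) := by
    rw [h1, Finset.smul_sum]
    exact Finset.sum_congr rfl fun m _ => smul_comm _ _ _
  rw [h2, h1]
  simp only [dotProduct, Matrix.mulVec, Gm, Matrix.of_apply, map_sum, LinearMap.sum_apply, map_smul,
    LinearMap.smul_apply, smul_eq_mul, Finset.mul_sum]
  rw [Finset.sum_comm]
  refine Finset.sum_congr rfl fun m _ => Finset.sum_congr rfl fun k _ => ?_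
  ring

theorem Gm_pd (b : Module.Basis ι ℝ V) (E : ℂ → V →ₗ[ℝ] V →ₗ[ℝ] ℝ) (τ : ℂ → (V ≃ₗ[ℝ] V)) (z : ℂ)
    (ha : ∀ u v, E z u v = -E z v u)
    (hi : ∀ u v, E z (Complex.I • u) (Complex.I • v) = E z u v)
    (hp : ∀ v, v ≠ 0 → 0 < E z (Complex.I • v) v) :
    (Gm b E τ z).PosDef := by
  refine Matrix.PosDef.of_dotProduct_mulVec_pos ?_ ?_
  · ext k l
    rw [Matrix.conjTranspose_apply, star_trivial, Gm, Matrix.of_apply, Matrix.of_apply]
    rw [ha, E_I (E z) hi, neg_neg]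
  · intro x hx
    rw [star_trivial, E_sum]
    refine hp _ ?_
    intro h0
    have h1 : ∑ k, x k • b k = 0 := by
      have := congrArg (τ z).symm h0
      rwa [LinearEquiv.symm_apply_apply, map_zero] at this
    apply hx
    funext k
    exact Fintype.linearIndependent_iff.mp b.linearIndependent x h1 k

end FPBase

open FPBase in
theorem stmtBase (hMJ : StmtMJ) (hGQ : StmtGQ) : StmtBase := by
  intro V _ _ _ d ι _ _ b U L E O w0 r τ hF hU hτ
  have hfd : FiniteDimensional ℝ V := Module.Finite.of_basis b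
  have hcomp : CompleteSpace V := FiniteDimensional.complete ℂ V
  have hcd : ∀ v, ContDiffOn ℝ 2 (fun w => τ w v) (ball w0 r) := fun v =>
    ((hτ.hol v).contDiffOn isOpen_ball).restrict_scalars ℝ
  have hT2 : ∀ k l, ContDiffOn ℝ 2 (fun z => TT b τ z k l) (ball w0 r) := by
    intro k l
    have h1 : (fun z => TT b τ z k l) =
        fun z => (LinearMap.toContinuousLinearMap (b.coord k)) (τ z (b l)) := by
      funext z
      rw [TT_apply]
      rfl
    rw [h1]
    exact (LinearMap.toContinuousLinearMap (b.coord k)).contDiff.comp_contDiffOn (hcd (b l))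
  -- the derivatives
  have hder : ∀ z ∈ ball w0 r, ∀ k l (v : ℂ),
      fderiv ℝ (fun w => TT b τ w k l) z v = b.coord k (v • deriv (fun w => τ w (b l)) z) := by
    intro z hz k l v
    have h1 : (fun z => TT b τ z k l) =
        fun z => (LinearMap.toContinuousLinearMap (b.coord k)) (τ z (b l)) := by
      funext z
      rw [TT_apply]
      rfl
    have h2 : DifferentiableAt ℂ (fun w => τ w (b l)) z :=
      (hτ.hol (b l)).differentiableAt (isOpen_ball.mem_nhds hz)
    have h3 : HasFDerivAt (fun w => τ w (b l))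
        ((ContinuousLinearMap.toSpanSingleton ℂ (deriv (fun w => τ w (b l)) z)).restrictScalars ℝ) z :=
      h2.hasDerivAt.hasFDerivAt.restrictScalars ℝ
    have h4 := (LinearMap.toContinuousLinearMap (b.coord k)).hasFDerivAt.comp z h3
    rw [h1]
    have h5 : fderiv ℝ (fun z => (LinearMap.toContinuousLinearMap (b.coord k)) (τ z (b l))) z =
        (LinearMap.toContinuousLinearMap (b.coord k)).comp
          ((ContinuousLinearMap.toSpanSingleton ℂ
            (deriv (fun w => τ w (b l)) z)).restrictScalars ℝ) := h4.fderiv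
    rw [h5]
    rfl
  have hTy : ∀ z ∈ ball w0 r, mY (TT b τ) z = II b * mX (TT b τ) z := by
    intro z hz
    ext k l
    rw [Matrix.mul_apply]
    simp only [mX, mY, Matrix.of_apply, px, py]
    rw [hder z hz k l Complex.I]
    have h1 : deriv (fun w => τ w (b l)) z =
        ∑ m, b.coord m (deriv (fun w => τ w (b l)) z) • b m := (b.sum_repr _).symm
    have h2 : Complex.I • deriv (fun w => τ w (b l)) z =
        ∑ m, b.coord m (deriv (fun w => τ w (b l)) z) • (Complex.I • b m) := by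
      conv_lhs => rw [h1]
      rw [Finset.smul_sum]
      exact Finset.sum_congr rfl fun m _ => smul_comm _ _ _
    rw [h2, map_sum]
    refine Finset.sum_congr rfl fun m _ => ?_
    rw [hder z hz m l 1, one_smul, map_smul, smul_eq_mul, mul_comm, II, LinearMap.toMatrix_apply]
    rfl
  obtain ⟨hJ2, hJy⟩ := hMJ ι (ball w0 r) (TT b τ) (II b) isOpen_ball hT2
    (fun z _ => TT_unit b τ z) (II_II b) hTy
  have hJ : (fun z => (TT b τ z)⁻¹ * II b * TT b τ z) = Jm b τ := by
    funext z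
    exact (Jm_eq b τ z).symm
  rw [hJ] at hJy
  refine hGQ ι (ball w0 r) (Gm b E τ) (Jm b τ) (EE b (E w0)) isOpen_ball ?_
    (fun z _ => Jm_Jm b τ z) ?_ ?_ ?_
  · intro k l
    have h1 := hJ2 k l
    have h2 : (fun z => ((TT b τ z)⁻¹ * II b * TT b τ z) k l) = fun z => Jm b τ z k l := by
      funext z
      rw [Jm_eq]
    rwa [h2] at h1
  · intro z hz
    rw [hJy z hz, ← Jm_eq]
  · intro z hz
    exact Gm_eq b E τ w0 z (hF.inv z (hU hz)) (hτ.pol z hz)
  · intro z hz
    exact Gm_pd b E τ z (hF.alt z (hU hz)) (hF.inv z (hU hz)) (hF.pos z (hU hz))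

end Pool.Agent.A640.Tate
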