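import Pool.Agent.Lib.MP_640417_ag.TATE.FP.Spec

/-!
# PROJECT TATE, package FP: `uu` is of class C² and subharmonic
-/

set_option autoImplicit false

open Metric Set Complex

noncomputable section

namespace Pool.Agent.A640.Tate

theorem FPC20.px_congr {f g : ℂ → ℝ} {z : ℂ} (h : f =ᶠ[nhds z] g) : px f z = px g z := by
  unfold px
  rw [h.fderiv_eq]

theorem FPC20.py_congr {f g : ℂ → ℝ} {z : ℂ} (h : f =ᶠ[nhds z] g) : py f z = py g z := by
  unfold py
  rw [h.fderiv_eq]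

theorem FPC20.pxx_congr {f g : ℂ → ℝ} {z : ℂ} (h : f =ᶠ[nhds z] g) :
    px (px f) z = px (px g) z :=
  FPC20.px_congr (h.eventuallyEq_nhds.mono fun _ hw => FPC20.px_congr hw)

theorem FPC20.pyy_congr {f g : ℂ → ℝ} {z : ℂ} (h : f =ᶠ[nhds z] g) :
    py (py f) z = py (py g) z :=
  FPC20.py_congr (h.eventuallyEq_nhds.mono fun _ hw => FPC20.py_congr hw)

/-- G2. -/
theorem stmtC20 (hBase : StmtBase) (hPw : StmtPw) (hUf : StmtUf) (hHx : StmtHx)
    (hLap : StmtLap) : StmtC2 := by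
  intro V _ _ _ d ι _ _ b U L E O hU hF
  have key : ∀ z ∈ U, ContDiffAt ℝ 2 (uu b E O) z ∧
      0 ≤ px (px (uu b E O)) z + py (py (uu b E O)) z := by
    intro z hz
    obtain ⟨r, τ, hr, hτ⟩ := hF.loc z hz
    have hHV := hBase V d ι b U L E O z r τ hF hr hτ
    obtain ⟨hHVd, -⟩ := hPw ι d _ _ _ hHV
    obtain ⟨m, c, hc, -⟩ := hUf V d ι b L E O z r τ (hF.fin z hz) hτ
    have hzr : z ∈ ball z r := mem_ball_self hτ.pos
    have he : uu b E O =ᶠ[nhds z]
        fun z => Real.log (1 + hh (fun z => Qd d (Gm b E τ z)) c z) := by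
      filter_upwards [isOpen_ball.mem_nhds hzr] with w hw
      exact hc w hw
    have h1 := hHx (Fin d → ι) (ball z r) _ _ m c hHVd
    have h2 := hLap (Fin d → ι) (ball z r) _ _ m c hHVd z hzr
    refine ⟨(h1.1.contDiffAt (isOpen_ball.mem_nhds hzr)).congr_of_eventuallyEq he, ?_⟩
    rw [FPC20.pxx_congr he, FPC20.pyy_congr he]
    exact h2.1
  exact ⟨fun z hz => (key z hz).1.contDiffWithinAt, fun z hz => (key z hz).2⟩

end Pool.Agent.A640.Tate
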