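import Pool.Agent.Lib.MP_640417_ag.TATE.FP.Spec

/-!
# PROJECT TATE, package FP, module Ca: the Cauchy estimate for the norm of a Riemann form
-/

set_option autoImplicit false

open Metric Set Complex

namespace Pool.Agent.A640.Tate

namespace FPCa

section

variable {V : Type} [NormedAddCommGroup V] [NormedSpace ℂ V] (E : V →ₗ[ℝ] V →ₗ[ℝ] ℝ)

/-- The real symmetric form `G(u, v) = E (i u) v`. -/
noncomputable def G : V →ₗ[ℝ] V →ₗ[ℝ] ℝ := E ∘ₗ mI V

lemma G_apply (u v : V) : G E u v = E (Complex.I • u) v := rfl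

lemma G_symm (h1 : ∀ u v, E u v = -E v u)
    (h2 : ∀ u v, E (Complex.I • u) (Complex.I • v) = E u v) (u v : V) : G E u v = G E v u := by
  rw [G_apply, G_apply, ← h2 (Complex.I • u) v, smul_smul, Complex.I_mul_I, neg_one_smul, map_neg,
    LinearMap.neg_apply, h1 u (Complex.I • v), neg_neg]

lemma G_I (h2 : ∀ u v, E (Complex.I • u) (Complex.I • v) = E u v) (u v : V) :
    G E (Complex.I • u) (Complex.I • v) = G E u v := by
  rw [G_apply, G_apply, h2]

lemma E_self (h1 : ∀ u v, E u v = -E v u) (u : V) : E u u = 0 := by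
  have := h1 u u
  linarith

lemma G_I_self (h1 : ∀ u v, E u v = -E v u) (u : V) : G E (Complex.I • u) u = 0 := by
  rw [G_apply, smul_smul, Complex.I_mul_I, neg_one_smul, map_neg, LinearMap.neg_apply, E_self E h1 u,
    neg_zero]

lemma G_nonneg (h3 : ∀ v, v ≠ 0 → 0 < E (Complex.I • v) v) (v : V) : 0 ≤ G E v v := by
  by_cases hv : v = 0
  · subst hv
    simp
  · exact (h3 v hv).le

lemma G_cs (h1 : ∀ u v, E u v = -E v u)
    (h2 : ∀ u v, E (Complex.I • u) (Complex.I • v) = E u v)
    (h3 : ∀ v, v ≠ 0 → 0 < E (Complex.I • v) v) (u v : V) :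
    (G E u v) ^ 2 ≤ G E u u * G E v v := by
  have key : ∀ t : ℝ, 0 ≤ G E v v * (t * t) + (2 * G E u v) * t + G E u u := by
    intro t
    have h := G_nonneg E h3 (u + t • v)
    have e : G E (u + t • v) (u + t • v) = G E v v * (t * t) + (2 * G E u v) * t + G E u u := by
      simp only [map_add, map_smul, LinearMap.add_apply, LinearMap.smul_apply, smul_eq_mul]
      rw [G_symm E h1 h2 v u]
      ring
    rw [← e]
    exact h
  have hd := discrim_le_zero key
  unfold discrim at hd
  nlinarith [hd]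

/-- A complex number acting on the form. -/
lemma G_cplx (h1 : ∀ u v, E u v = -E v u)
    (h2 : ∀ u v, E (Complex.I • u) (Complex.I • v) = E u v) (z : ℂ) (v : V) :
    G E (z • v) (z • v) = (z.re ^ 2 + z.im ^ 2) * G E v v := by
  have hz : z • v = z.re • v + z.im • (Complex.I • v) := by
    conv_lhs => rw [← Complex.re_add_im z]
    rw [add_smul, mul_smul]
    rfl
  rw [hz]
  simp only [map_add, map_smul, LinearMap.add_apply, LinearMap.smul_apply, smul_eq_mul]
  rw [G_I E h2, G_I_self E h1, G_symm E h1 h2 v (Complex.I • v), G_I_self E h1]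
  ring

/-- The complex linear functional `v ↦ G(v, u) - i G(i v, u)`. -/
noncomputable def ell (u : V) : V →ₗ[ℂ] ℂ where
  toFun v := (G E v u : ℂ) - Complex.I * (G E (Complex.I • v) u : ℂ)
  map_add' v w := by
    simp only [smul_add, map_add, LinearMap.add_apply, Complex.ofReal_add]
    ring
  map_smul' z v := by
    have hz : z • v = z.re • v + z.im • (Complex.I • v) := by
      conv_lhs => rw [← Complex.re_add_im z]
      rw [add_smul, mul_smul]
      rfl
    have hz2 : Complex.I • (z • v) = z.re • (Complex.I • v) - z.im • v := by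
      rw [hz, smul_add, smul_comm Complex.I z.re v, smul_comm Complex.I z.im (Complex.I • v), smul_smul,
        Complex.I_mul_I, neg_one_smul, smul_neg, sub_eq_add_neg]
    rw [hz2, hz]
    simp only [map_add, map_sub, map_smul, LinearMap.add_apply, LinearMap.sub_apply,
      LinearMap.smul_apply, smul_eq_mul, RingHom.id_apply, Complex.ofReal_add, Complex.ofReal_sub,
      Complex.ofReal_mul]
    have hzz : z = (z.re : ℂ) + (z.im : ℂ) * Complex.I := (Complex.re_add_im z).symm
    conv_rhs => rw [hzz]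
    have hI : Complex.I * Complex.I = -1 := Complex.I_mul_I
    linear_combination (z.im : ℂ) * (G E (Complex.I • v) u : ℂ) * hI

lemma ell_apply (u v : V) :
    ell E u v = (G E v u : ℂ) - Complex.I * (G E (Complex.I • v) u : ℂ) := rfl

lemma ell_re (u v : V) : (ell E u v).re = G E v u := by
  rw [ell_apply]
  simp

lemma ell_self (h1 : ∀ u v, E u v = -E v u) (u : V) : ell E u u = (G E u u : ℂ) := by
  rw [ell_apply, G_I_self E h1]
  simp

lemma ell_norm (h1 : ∀ u v, E u v = -E v u)
    (h2 : ∀ u v, E (Complex.I • u) (Complex.I • v) = E u v)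
    (h3 : ∀ v, v ≠ 0 → 0 < E (Complex.I • v) v) (u v : V) :
    ‖ell E u v‖ ^ 2 ≤ G E v v * G E u u := by
  by_cases h0 : ell E u v = 0
  · rw [h0, norm_zero]
    have := mul_nonneg (G_nonneg E h3 v) (G_nonneg E h3 u)
    simpa using this
  · set l := ell E u v with hl
    have hn : (‖l‖ : ℂ) ≠ 0 := by
      exact_mod_cast (norm_ne_zero_iff.mpr h0)
    have e1 : ell E u ((starRingEnd ℂ l) • v) = ((‖l‖ ^ 2 : ℝ) : ℂ) := by
      rw [map_smul, ← hl, smul_eq_mul, mul_comm, Complex.mul_conj, Complex.normSq_eq_norm_sq]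
    have e2 : G E ((starRingEnd ℂ l) • v) u = ‖l‖ ^ 2 := by
      rw [← ell_re, e1, Complex.ofReal_re]
    have e3 : G E ((starRingEnd ℂ l) • v) ((starRingEnd ℂ l) • v) = ‖l‖ ^ 2 * G E v v := by
      rw [G_cplx E h1 h2, Complex.conj_re, Complex.conj_im, ← Complex.normSq_eq_norm_sq,
        Complex.normSq_apply]
      ring
    have h := G_cs E h1 h2 h3 ((starRingEnd ℂ l) • v) u
    rw [e2, e3] at h
    have hp : 0 < ‖l‖ ^ 2 := by positivity
    have h' : ‖l‖ ^ 2 * ‖l‖ ^ 2 ≤ ‖l‖ ^ 2 * (G E v v * G E u u) := by nlinarith [h]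
    exact le_of_mul_le_mul_left h' hp

end

end FPCa

open FPCa in
theorem stmtCa : StmtCa := by
  intro V _ _ _ E w0 r M f h1 h2 h3 hr hM hf hb
  set u := deriv f w0 with hu
  set ℓ : V →L[ℂ] ℂ := (ell E u).toContinuousLinearMap with hℓ
  have hℓa : ∀ v, ℓ v = ell E u v := fun v => rfl
  have hg0 : 0 ≤ G E u u := G_nonneg E h3 u
  set s := Real.sqrt (G E u u) with hs
  have hs0 : 0 ≤ s := Real.sqrt_nonneg _
  have hss : s ^ 2 = G E u u := Real.sq_sqrt hg0
  have hbd : ∀ w ∈ ball w0 r, ‖ℓ (f w)‖ ≤ M * s := by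
    intro w hw
    have a1 := ell_norm E h1 h2 h3 u (f w)
    have a2 : G E (f w) (f w) ≤ M ^ 2 := hb w hw
    have a3 : ‖ℓ (f w)‖ ^ 2 ≤ (M * s) ^ 2 := by
      rw [hℓa, mul_pow, hss]
      exact a1.trans (mul_le_mul_of_nonneg_right a2 hg0)
    exact (sq_le_sq₀ (norm_nonneg _) (mul_nonneg hM hs0)).mp a3
  have hd0 : DifferentiableAt ℂ f w0 := hf.differentiableAt (ball_mem_nhds w0 hr)
  have hder : deriv (fun w => ℓ (f w)) w0 = (G E u u : ℂ) := by
    have : HasDerivAt (fun w => ℓ (f w)) (ℓ u) w0 := by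
      have := ℓ.hasFDerivAt.comp_hasDerivAt w0 hd0.hasDerivAt
      exact this
    rw [this.deriv, hℓa, ell_self E h1]
  have hR : ∀ R : ℝ, 0 < R → R < r → G E u u * R ≤ M * s := by
    intro R hR hRr
    have hsub : closedBall w0 R ⊆ ball w0 r := closedBall_subset_ball hRr
    have hdc : DiffContOnCl ℂ (fun w => ℓ (f w)) (ball w0 R) := by
      have : DifferentiableOn ℂ (fun w => ℓ (f w)) (closedBall w0 R) :=
        ℓ.differentiable.comp_differentiableOn (hf.mono hsub)
      rw [← closure_ball w0 hR.ne'] at this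
      exact this.diffContOnCl
    have := Complex.norm_deriv_le_of_forall_mem_sphere_norm_le hR hdc
      (fun z hz => hbd z (hsub (sphere_subset_closedBall hz)))
    rw [hder, Complex.norm_real, Real.norm_of_nonneg hg0, le_div_iff₀ hR] at this
    exact this
  have hfin : G E u u * r ≤ M * s := by
    by_contra hcon
    rw [not_le] at hcon
    have hgp : 0 < G E u u := by
      rcases hg0.lt_or_eq with h | h
      · exact h
      · rw [← h, zero_mul] at hcon
        exact absurd hcon (not_lt.mpr (mul_nonneg hM hs0))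
    have hlt : M * s / G E u u < r := by
      rw [div_lt_iff₀ hgp, mul_comm r]
      exact hcon
    obtain ⟨R, hR1, hR2⟩ := exists_between hlt
    have hR0 : 0 < R := lt_of_le_of_lt (div_nonneg (mul_nonneg hM hs0) hg0) hR1
    have := hR R hR0 hR2
    rw [div_lt_iff₀ hgp, mul_comm] at hR1
    linarith
  have hsr : s * r ≤ M := by
    rcases hs0.lt_or_eq with h | h
    · rw [← hss] at hfin
      have : s * (s * r) ≤ s * M := by nlinarith [hfin]
      exact le_of_mul_le_mul_left this h
    · rw [← h, zero_mul]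
      exact hM
  have hfinal : s ≤ M / r := by
    rw [le_div_iff₀ hr]
    exact hsr
  have : s ^ 2 ≤ (M / r) ^ 2 := pow_le_pow_left₀ hs0 hfinal 2
  rw [hss] at this
  exact this

end Pool.Agent.A640.Tate
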