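import Pool.Agent.Lib.MP_640417_ag.TATE.FP.Spec

/-!
# PROJECT TATE, package FP: the cutoff functions
-/

set_option autoImplicit false

open Metric Set Complex Filter Topology

noncomputable section

namespace Pool.Agent.A640.Tate

namespace FPChi

/-- The radial function `φ (log |z - s|)` with value `c0` at `s`. -/
private def rad (φ : ℝ → ℝ) (c0 : ℝ) (s z : ℂ) : ℝ :=
  open Classical in if z = s then c0 else φ (Real.log ‖z - s‖)

private lemma rad_of_ne (φ : ℝ → ℝ) (c0 : ℝ) {s z : ℂ} (h : z ≠ s) :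
    rad φ c0 s z = φ (Real.log ‖z - s‖) := by
  unfold rad
  rw [if_neg h]

private lemma rad_self (φ : ℝ → ℝ) (c0 : ℝ) (s : ℂ) : rad φ c0 s s = c0 := by
  unfold rad
  rw [if_pos rfl]

private lemma rad_near (φ : ℝ → ℝ) (c0 T : ℝ) (h : ∀ t ≤ T, φ t = c0) {s z : ℂ}
    (hz : ‖z - s‖ < Real.exp T) : rad φ c0 s z = c0 := by
  by_cases hs : z = s
  · rw [hs, rad_self]
  · rw [rad_of_ne φ c0 hs]
    apply h
    have h0 : 0 < ‖z - s‖ := norm_pos_iff.2 (sub_ne_zero.2 hs)
    exact (Real.log_le_iff_le_exp h0).2 hz.le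

private lemma rad_ev_ne (φ : ℝ → ℝ) (c0 : ℝ) {s z : ℂ} (h : z ≠ s) :
    rad φ c0 s =ᶠ[𝓝 z] fun w => φ (Real.log ‖w - s‖) := by
  filter_upwards [isOpen_ne.mem_nhds h] with w hw
  exact rad_of_ne φ c0 hw

private lemma rad_ev_self (φ : ℝ → ℝ) (c0 T : ℝ) (h : ∀ t ≤ T, φ t = c0) (s : ℂ) :
    rad φ c0 s =ᶠ[𝓝 s] fun _ => c0 := by
  filter_upwards [Metric.ball_mem_nhds s (Real.exp_pos T)] with w hw
  rw [mem_ball, dist_eq_norm] at hw
  exact rad_near φ c0 T h hw

private lemma rad_contDiff (φ : ℝ → ℝ) (hφ : ContDiff ℝ 1 φ) (c0 T : ℝ) (h : ∀ t ≤ T, φ t = c0)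
    (s : ℂ) : ContDiff ℝ 1 (rad φ c0 s) := by
  rw [contDiff_iff_contDiffAt]
  intro z
  by_cases hs : z = s
  · rw [hs]
    exact contDiffAt_const.congr_of_eventuallyEq (rad_ev_self φ c0 T h s)
  · have h0 : z - s ≠ 0 := sub_ne_zero.2 hs
    have h1 : ContDiffAt ℝ 1 (fun w : ℂ => w - s) z := contDiffAt_id.sub contDiffAt_const
    have h2 : ContDiffAt ℝ 1 (fun w : ℂ => ‖w - s‖) z := h1.norm ℝ h0
    have h3 : ContDiffAt ℝ 1 (fun w : ℂ => Real.log ‖w - s‖) z :=
      h2.log (norm_ne_zero_iff.2 h0)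
    exact (hφ.contDiffAt.comp z h3).congr_of_eventuallyEq (rad_ev_ne φ c0 hs)

private lemma rad_fderiv (φ : ℝ → ℝ) (hφ : ContDiff ℝ 1 φ) (c0 : ℝ) {s z v : ℂ} (hs : z ≠ s)
    (hv : ‖v‖ ≤ 1) :
    |fderiv ℝ (rad φ c0 s) z v| ≤ |deriv φ (Real.log ‖z - s‖)| * (1 / ‖z - s‖) := by
  have h0 : z - s ≠ 0 := sub_ne_zero.2 hs
  have hn : 0 < ‖z - s‖ := norm_pos_iff.2 h0
  rw [(rad_ev_ne φ c0 hs).fderiv_eq]
  have h1 : DifferentiableAt ℝ (fun w : ℂ => w - s) z := differentiableAt_id.sub (differentiableAt_const s)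
  have h2 : DifferentiableAt ℝ (fun w : ℂ => ‖w - s‖) z := h1.norm ℝ h0
  have hL : LipschitzWith 1 (fun w : ℂ => ‖w - s‖) := by
    apply LipschitzWith.of_dist_le_mul
    intro x y
    rw [Real.dist_eq, dist_eq_norm, NNReal.coe_one, one_mul]
    have := abs_norm_sub_norm_le (x - s) (y - s)
    rwa [sub_sub_sub_cancel_right] at this
  have h3 : ‖fderiv ℝ (fun w : ℂ => ‖w - s‖) z‖ ≤ 1 := by
    have := norm_fderiv_le_of_lipschitz ℝ hL (x₀ := z)
    simpa using this
  have h4 : HasDerivAt φ (deriv φ (Real.log ‖z - s‖)) (Real.log ‖z - s‖) :=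
    (hφ.differentiable one_ne_zero _).hasDerivAt
  have h5 : HasDerivAt Real.log (‖z - s‖)⁻¹ ‖z - s‖ := Real.hasDerivAt_log hn.ne'
  have h6 : HasFDerivAt (fun w : ℂ => φ (Real.log ‖w - s‖))
      ((deriv φ (Real.log ‖z - s‖) * (‖z - s‖)⁻¹) • fderiv ℝ (fun w : ℂ => ‖w - s‖) z) z := by
    have := (h4.comp (‖z - s‖) h5).comp_hasFDerivAt z h2.hasFDerivAt
    exact this
  rw [h6.fderiv]
  have h7 : |fderiv ℝ (fun w : ℂ => ‖w - s‖) z v| ≤ 1 := by
    have := (fderiv ℝ (fun w : ℂ => ‖w - s‖) z).le_opNorm v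
    rw [Real.norm_eq_abs] at this
    calc _ ≤ _ := this
      _ ≤ 1 * 1 := mul_le_mul h3 hv (norm_nonneg _) zero_le_one
      _ = 1 := one_mul 1
  rw [ContinuousLinearMap.smul_apply, smul_eq_mul, abs_mul, abs_mul, abs_inv, abs_norm, one_div]
  calc |deriv φ (Real.log ‖z - s‖)| * ‖z - s‖⁻¹ * |fderiv ℝ (fun w : ℂ => ‖w - s‖) z v|
      ≤ |deriv φ (Real.log ‖z - s‖)| * ‖z - s‖⁻¹ * 1 :=
        mul_le_mul_of_nonneg_left h7 (by positivity)
    _ = _ := mul_one _

/-! ### the function `ψ` -/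

private lemma psi_contDiff : ContDiff ℝ 1 psi := by
  have h : ContDiff ℝ 1 Real.smoothTransition := Real.smoothTransition.contDiff
  exact h.comp (contDiff_const.sub contDiff_id)

private lemma psi_nonneg (t : ℝ) : 0 ≤ psi t := Real.smoothTransition.nonneg _

private lemma psi_le_one (t : ℝ) : psi t ≤ 1 := Real.smoothTransition.le_one _

private lemma psi_one {t : ℝ} (h : t ≤ 1) : psi t = 1 := by
  unfold psi
  exact Real.smoothTransition.one_of_one_le (by linarith)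

private lemma psi_zero {t : ℝ} (h : 2 ≤ t) : psi t = 0 := by
  unfold psi
  exact Real.smoothTransition.zero_of_nonpos (by linarith)

private lemma psi_deriv_zero {t : ℝ} (h : ¬ (1 ≤ t ∧ t ≤ 2)) : deriv psi t = 0 := by
  rw [not_and_or, not_le, not_le] at h
  rcases h with h | h
  · have : psi =ᶠ[𝓝 t] fun _ => 1 := by
      filter_upwards [Iio_mem_nhds h] with x hx
      exact psi_one (le_of_lt hx)
    rw [this.deriv_eq, deriv_const]
  · have : psi =ᶠ[𝓝 t] fun _ => 0 := by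
      filter_upwards [Ioi_mem_nhds h] with x hx
      exact psi_zero (le_of_lt hx)
    rw [this.deriv_eq, deriv_const]

private lemma psi_deriv_bdd : ∃ K : ℝ, 0 ≤ K ∧ ∀ t, |deriv psi t| ≤ K := by
  have hc : Continuous (deriv psi) := psi_contDiff.continuous_deriv le_rfl
  obtain ⟨K, hK⟩ := (isCompact_Icc (a := (1 : ℝ)) (b := 2)).exists_bound_of_continuousOn hc.continuousOn
  refine ⟨max K 0, le_max_right _ _, fun t => ?_⟩
  by_cases h : 1 ≤ t ∧ t ≤ 2
  · exact le_trans (hK t h) (le_max_left _ _)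
  · rw [psi_deriv_zero h, abs_zero]
    exact le_max_right _ _

/-! ### the factors -/

/-- The scaled profile. -/
private def ph (a : ℝ) (t : ℝ) : ℝ := psi (a * t)

private lemma ph_contDiff (a : ℝ) : ContDiff ℝ 1 (ph a) :=
  psi_contDiff.comp (contDiff_const.mul contDiff_id)

private lemma ph_deriv (a t : ℝ) : deriv (ph a) t = a * deriv psi (a * t) := by
  have h1 : HasDerivAt psi (deriv psi (a * t)) (a * t) :=
    (psi_contDiff.differentiable one_ne_zero _).hasDerivAt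
  have h2 : HasDerivAt (fun x : ℝ => a * x) a t := by
    simpa using (hasDerivAt_id t).const_mul a
  have h3 : HasDerivAt (ph a) (deriv psi (a * t) * a) t := h1.comp t h2
  rw [h3.deriv, mul_comm]

/-- The factor at infinity. -/
private def fA (n : ℕ) : ℂ → ℝ := rad (ph (1 / n)) 1 0

/-- The factor at the puncture `s`. -/
private def fG (n : ℕ) (s : ℂ) : ℂ → ℝ := rad (ph (-(1 / n))) 0 s

private lemma fA_eq (n : ℕ) (z : ℂ) : fA n z = psi (Real.log ‖z‖ / n) := by
  unfold fA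
  by_cases h : z = 0
  · rw [h, rad_self, norm_zero, Real.log_zero, zero_div, psi_one zero_le_one]
  · rw [rad_of_ne _ _ h, sub_zero]
    unfold ph
    congr 1
    ring

private lemma fG_eq (n : ℕ) {s z : ℂ} (h : z ≠ s) : fG n s z = psi (-Real.log ‖z - s‖ / n) := by
  unfold fG
  rw [rad_of_ne _ _ h]
  unfold ph
  congr 1
  ring

private lemma fG_self (n : ℕ) (s : ℂ) : fG n s s = 0 := rad_self _ _ _

private lemma chi_eq (F : Finset ℂ) (n : ℕ) : chi F n = fun z => fA n z * ∏ s ∈ F, fG n s z := by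
  funext z
  unfold chi
  by_cases h : z ∈ F
  · have h0 : ∏ s ∈ F, fG n s z = 0 := Finset.prod_eq_zero h (fG_self n z)
    rw [if_pos h, h0, mul_zero]
  · rw [if_neg h, fA_eq]
    congr 1
    apply Finset.prod_congr rfl
    intro s hs
    rw [fG_eq]
    rintro rfl
    exact h hs

private lemma fA_prof {n : ℕ} (hn : 0 < n) : ∀ t ≤ (n : ℝ), ph (1 / n) t = 1 := by
  intro t ht
  unfold ph
  apply psi_one
  have hn' : (0 : ℝ) < n := Nat.cast_pos.2 hn
  rw [one_div, inv_mul_le_iff₀ hn', mul_one]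
  exact ht

private lemma fG_prof {n : ℕ} (hn : 0 < n) : ∀ t ≤ -(2 * n : ℝ), ph (-(1 / n)) t = 0 := by
  intro t ht
  unfold ph
  apply psi_zero
  have hn' : (0 : ℝ) < n := Nat.cast_pos.2 hn
  have h1 : -(1 / (n : ℝ)) * t = (-t) / n := by ring
  rw [h1, le_div_iff₀ hn']
  linarith

private lemma fA_contDiff {n : ℕ} (hn : 0 < n) : ContDiff ℝ 1 (fA n) :=
  rad_contDiff _ (ph_contDiff _) 1 n (fA_prof hn) 0

private lemma fG_contDiff {n : ℕ} (hn : 0 < n) (s : ℂ) : ContDiff ℝ 1 (fG n s) :=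
  rad_contDiff _ (ph_contDiff _) 0 _ (fG_prof hn) s

private lemma fA_nn (n : ℕ) (z : ℂ) : 0 ≤ fA n z ∧ fA n z ≤ 1 := by
  rw [fA_eq]
  exact ⟨psi_nonneg _, psi_le_one _⟩

private lemma fG_nn (n : ℕ) (s z : ℂ) : 0 ≤ fG n s z ∧ fG n s z ≤ 1 := by
  by_cases h : z = s
  · rw [h, fG_self]
    exact ⟨le_rfl, zero_le_one⟩
  · rw [fG_eq n h]
    exact ⟨psi_nonneg _, psi_le_one _⟩

private lemma fA_der {n : ℕ} (hn : 0 < n) {K : ℝ} (hK0 : 0 ≤ K) (hK : ∀ t, |deriv psi t| ≤ K) {z v : ℂ}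
    (hv : ‖v‖ ≤ 1) : |fderiv ℝ (fA n) z v| ≤ K / n *
      (if (n : ℝ) ≤ Real.log ‖z‖ ∧ Real.log ‖z‖ ≤ 2 * n then 1 / ‖z‖ else 0) := by
  have hn' : (0 : ℝ) < n := Nat.cast_pos.2 hn
  have hr : 0 ≤ K / n *
      (if (n : ℝ) ≤ Real.log ‖z‖ ∧ Real.log ‖z‖ ≤ 2 * n then 1 / ‖z‖ else 0) := by
    split_ifs <;> positivity
  by_cases hz : z = 0
  · have h1 : fA n =ᶠ[𝓝 z] fun _ => (1 : ℝ) := by
      rw [hz]
      exact rad_ev_self _ 1 n (fA_prof hn) 0
    rw [h1.fderiv_eq]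
    simp only [fderiv_fun_const, Pi.zero_apply, ContinuousLinearMap.zero_apply, abs_zero]
    exact hr
  · have h1 := rad_fderiv (ph (1 / n)) (ph_contDiff _) 1 hz hv
    rw [sub_zero, ph_deriv, abs_mul, abs_of_pos (by positivity : (0 : ℝ) < 1 / n)] at h1
    refine le_trans h1 ?_
    by_cases hI : (n : ℝ) ≤ Real.log ‖z‖ ∧ Real.log ‖z‖ ≤ 2 * n
    · rw [if_pos hI]
      have h2 : 1 / (n : ℝ) * |deriv psi (1 / n * Real.log ‖z‖)| ≤ K / n := by
        rw [div_eq_mul_one_div K, mul_comm K]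
        exact mul_le_mul_of_nonneg_left (hK _) (by positivity)
      exact mul_le_mul_of_nonneg_right h2 (by positivity)
    · have h3 : deriv psi (1 / n * Real.log ‖z‖) = 0 := by
        apply psi_deriv_zero
        rintro ⟨ha, hb⟩
        apply hI
        rw [one_div, ← div_eq_inv_mul] at ha hb
        rw [le_div_iff₀ hn'] at ha
        rw [div_le_iff₀ hn'] at hb
        exact ⟨by linarith, hb⟩
      rw [h3, abs_zero, mul_zero, zero_mul]
      exact hr

private lemma fG_der {n : ℕ} (hn : 0 < n) {K : ℝ} (hK0 : 0 ≤ K) (hK : ∀ t, |deriv psi t| ≤ K) {s z v : ℂ}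
    (hz : z ≠ s) (hv : ‖v‖ ≤ 1) : |fderiv ℝ (fG n s) z v| ≤ K / n *
      (if (n : ℝ) ≤ -Real.log ‖z - s‖ ∧ -Real.log ‖z - s‖ ≤ 2 * n then 1 / ‖z - s‖ else 0) := by
  have hn' : (0 : ℝ) < n := Nat.cast_pos.2 hn
  have hr : 0 ≤ K / n *
      (if (n : ℝ) ≤ -Real.log ‖z - s‖ ∧ -Real.log ‖z - s‖ ≤ 2 * n then 1 / ‖z - s‖ else 0) := by
    split_ifs <;> positivity
  have h1 := rad_fderiv (ph (-(1 / n))) (ph_contDiff _) 0 hz hv
  rw [ph_deriv, abs_mul, abs_neg, abs_of_pos (by positivity : (0 : ℝ) < 1 / n)] at h1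
  refine le_trans h1 ?_
  by_cases hI : (n : ℝ) ≤ -Real.log ‖z - s‖ ∧ -Real.log ‖z - s‖ ≤ 2 * n
  · rw [if_pos hI]
    have h2 : 1 / (n : ℝ) * |deriv psi (-(1 / n) * Real.log ‖z - s‖)| ≤ K / n := by
      rw [div_eq_mul_one_div K, mul_comm K]
      exact mul_le_mul_of_nonneg_left (hK _) (by positivity)
    exact mul_le_mul_of_nonneg_right h2 (by positivity)
  · have h3 : deriv psi (-(1 / n) * Real.log ‖z - s‖) = 0 := by
      apply psi_deriv_zero
      rintro ⟨ha, hb⟩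
      apply hI
      have h4 : -(1 / (n : ℝ)) * Real.log ‖z - s‖ = (-Real.log ‖z - s‖) / n := by ring
      rw [h4] at ha hb
      rw [le_div_iff₀ hn'] at ha
      rw [div_le_iff₀ hn'] at hb
      exact ⟨by linarith, hb⟩
    rw [h3, abs_zero, mul_zero, zero_mul]
    exact hr

/-! ### products of functions with values in `[0, 1]` -/

private lemma der_mul {f g : ℂ → ℝ} (hf : ContDiff ℝ 1 f) (hg : ContDiff ℝ 1 g)
    (hf1 : ∀ z, 0 ≤ f z ∧ f z ≤ 1) (hg1 : ∀ z, 0 ≤ g z ∧ g z ≤ 1) (z v : ℂ) :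
    |fderiv ℝ (fun w => f w * g w) z v| ≤ |fderiv ℝ f z v| + |fderiv ℝ g z v| := by
  have h1 : DifferentiableAt ℝ f z := hf.differentiable one_ne_zero z
  have h2 : DifferentiableAt ℝ g z := hg.differentiable one_ne_zero z
  have h3 : fderiv ℝ (fun w => f w * g w) z = f z • fderiv ℝ g z + g z • fderiv ℝ f z :=
    fderiv_fun_mul h1 h2
  rw [h3, ContinuousLinearMap.add_apply, ContinuousLinearMap.smul_apply, ContinuousLinearMap.smul_apply,
    smul_eq_mul, smul_eq_mul]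
  refine le_trans (abs_add_le _ _) ?_
  rw [abs_mul, abs_mul, abs_of_nonneg (hf1 z).1, abs_of_nonneg (hg1 z).1, add_comm]
  apply add_le_add
  · exact mul_le_of_le_one_left (abs_nonneg _) (hg1 z).2
  · exact mul_le_of_le_one_left (abs_nonneg _) (hf1 z).2

private lemma prod_nn (T : Finset ℂ) (n : ℕ) (z : ℂ) :
    0 ≤ ∏ s ∈ T, fG n s z ∧ ∏ s ∈ T, fG n s z ≤ 1 :=
  ⟨Finset.prod_nonneg fun s _ => (fG_nn n s z).1,
    Finset.prod_le_one (fun s _ => (fG_nn n s z).1) fun s _ => (fG_nn n s z).2⟩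

private lemma prod_contDiff (T : Finset ℂ) {n : ℕ} (hn : 0 < n) :
    ContDiff ℝ 1 (fun z => ∏ s ∈ T, fG n s z) :=
  contDiff_prod fun s _ => fG_contDiff hn s

private lemma der_prod {n : ℕ} (hn : 0 < n) (z v : ℂ) (T : Finset ℂ) :
    |fderiv ℝ (fun w => ∏ s ∈ T, fG n s w) z v| ≤ ∑ s ∈ T, |fderiv ℝ (fG n s) z v| := by
  classical
  induction T using Finset.induction_on with
  | empty =>
    simp
  | insert a T ha ih =>
    have h1 : (fun w => ∏ s ∈ insert a T, fG n s w) = fun w => fG n a w * ∏ s ∈ T, fG n s w := by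
      funext w
      rw [Finset.prod_insert ha]
    rw [h1, Finset.sum_insert ha]
    refine le_trans (der_mul (fG_contDiff hn a) (prod_contDiff T hn) (fG_nn n a) (prod_nn T n) z v) ?_
    exact add_le_add le_rfl ih

end FPChi

open FPChi in
theorem stmtChi : StmtChi := by
  intro F
  refine ⟨?_, ?_, ?_⟩
  · intro n hn
    have hn' : (0 : ℝ) < n := Nat.cast_pos.2 hn
    refine ⟨?_, ?_, ?_, ?_⟩
    · rw [chi_eq]
      exact (fA_contDiff hn).mul (prod_contDiff F hn)
    · refine HasCompactSupport.intro (isCompact_closedBall (0 : ℂ) (Real.exp (2 * n))) ?_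
      intro z hz
      rw [mem_closedBall, dist_zero_right, not_le] at hz
      rw [chi_eq]
      have h1 : fA n z = 0 := by
        rw [fA_eq]
        apply psi_zero
        rw [le_div_iff₀ hn']
        have h2 : 0 < ‖z‖ := lt_trans (Real.exp_pos _) hz
        exact (Real.le_log_iff_exp_le h2).2 hz.le
      simp only [h1, zero_mul]
    · intro z hz hzF
      have h1 : chi F n =ᶠ[𝓝 z] 0 := by
        have h2 : fG n z =ᶠ[𝓝 z] fun _ => (0 : ℝ) := rad_ev_self _ 0 _ (fG_prof hn) z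
        filter_upwards [h2] with w hw
        rw [chi_eq]
        have h3 : ∏ s ∈ F, fG n s w = 0 := Finset.prod_eq_zero hzF hw
        simp only [Pi.zero_apply, h3, mul_zero]
      exact (notMem_tsupport_iff_eventuallyEq.2 h1) hz
    · intro z
      rw [chi_eq]
      exact ⟨mul_nonneg (fA_nn n z).1 (prod_nn F n z).1,
        mul_le_one₀ (fA_nn n z).2 (prod_nn F n z).1 (prod_nn F n z).2⟩
  · intro z0 hz0
    have h1 : IsOpen ((F : Set ℂ)ᶜ) := F.finite_toSet.isClosed.isOpen_compl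
    obtain ⟨ε, hε, hb⟩ := Metric.isOpen_iff.1 h1 z0 (by simpa using hz0)
    have hd : ∀ s ∈ F, ∀ z ∈ ball z0 (ε / 2), ε / 2 ≤ ‖z - s‖ := by
      intro s hs z hz
      by_contra hcon
      rw [not_le] at hcon
      rw [mem_ball] at hz
      have h2 : s ∈ ball z0 ε := by
        rw [mem_ball]
        calc dist s z0 ≤ dist s z + dist z z0 := dist_triangle _ _ _
          _ < ε / 2 + ε / 2 := by
            apply add_lt_add _ hz
            rw [dist_comm, dist_eq_norm]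
            exact hcon
          _ = ε := add_halves ε
      exact hb h2 (Finset.mem_coe.2 hs)
    obtain ⟨N, hN⟩ := exists_nat_ge (max 1 (max (‖z0‖ + ε) (-Real.log (ε / 2))))
    refine ⟨ε / 2, half_pos hε, N, fun n hn z hz => ?_⟩
    have hnN : (N : ℝ) ≤ n := Nat.cast_le.2 hn
    have h2 : (1 : ℝ) ≤ n := le_trans (le_trans (le_max_left _ _) hN) hnN
    have h3 : ‖z0‖ + ε ≤ n :=
      le_trans (le_trans (le_trans (le_max_left _ _) (le_max_right _ _)) hN) hnN
    have h4 : -Real.log (ε / 2) ≤ n :=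
      le_trans (le_trans (le_trans (le_max_right _ _) (le_max_right _ _)) hN) hnN
    have hn' : (0 : ℝ) < n := lt_of_lt_of_le zero_lt_one h2
    rw [chi_eq]
    have h5 : fA n z = 1 := by
      rw [fA_eq]
      apply psi_one
      rw [div_le_iff₀ hn', one_mul]
      by_cases hz1 : z = 0
      · rw [hz1, norm_zero, Real.log_zero]
        exact hn'.le
      · have h6 : 0 < ‖z‖ := norm_pos_iff.2 hz1
        have h7 : ‖z‖ ≤ ‖z0‖ + ε := by
          rw [mem_ball, dist_eq_norm] at hz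
          have := norm_add_le z0 (z - z0)
          rw [add_sub_cancel] at this
          linarith
        have h8 := Real.log_le_sub_one_of_pos h6
        linarith
    have h6 : ∀ s ∈ F, fG n s z = 1 := by
      intro s hs
      have h7 := hd s hs z hz
      have hne : z ≠ s := by
        rintro rfl
        rw [sub_self, norm_zero] at h7
        linarith
      rw [fG_eq n hne]
      apply psi_one
      rw [div_le_iff₀ hn', one_mul]
      have h8 := Real.log_le_log (half_pos hε) h7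
      linarith
    show fA n z * ∏ s ∈ F, fG n s z = 1
    rw [h5, Finset.prod_congr rfl h6, Finset.prod_const_one, one_mul]
  · obtain ⟨K, hK0, hK⟩ := psi_deriv_bdd
    refine ⟨K, hK0, fun n hn z hz v hv => ?_⟩
    rw [chi_eq, mul_add, Finset.mul_sum]
    refine le_trans (der_mul (fA_contDiff hn) (prod_contDiff F hn) (fA_nn n) (prod_nn F n) z v) ?_
    apply add_le_add (fA_der hn hK0 hK hv)
    refine le_trans (der_prod hn z v F) ?_
    apply Finset.sum_le_sum
    intro s hs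
    apply fG_der hn hK0 hK _ hv
    rintro rfl
    exact hz hs

end Pool.Agent.A640.Tate
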