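import Pool.Agent.Lib.MP_640417_ag.TATE.FP.Spec

/-!
# PROJECT TATE, package FP: coordinates of the image of a class
-/

set_option autoImplicit false

noncomputable section

namespace Pool.Agent.A640.Tate

namespace FPCo

/-- Expansion of the pull back of a coordinate form. -/
theorem cfComp {V : Type} [NormedAddCommGroup V] [NormedSpace ℂ V] {ι : Type} [Fintype ι]
    (b : Module.Basis ι ℝ V) (τ : V →ₗ[ℝ] V) (k : ι) :
    rpull τ (cf b k) = ∑ k', ((b.coord k (τ (b k')) : ℝ) : ℂ) • cf b k' := by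
  classical
  apply b.ext
  intro j
  have h1 : (rpull τ (cf b k)) (b j) = ((b.coord k (τ (b j)) : ℝ) : ℂ) := rfl
  rw [h1, LinearMap.sum_apply]
  have h2 : ∀ k' : ι, (((b.coord k (τ (b k')) : ℝ) : ℂ) • cf b k') (b j)
      = if k' = j then ((b.coord k (τ (b j)) : ℝ) : ℂ) else 0 := by
    intro k'
    have h3 : (((b.coord k (τ (b k')) : ℝ) : ℂ) • cf b k') (b j)
        = ((b.coord k (τ (b k')) : ℝ) : ℂ) * ((b.coord k' (b j) : ℝ) : ℂ) := rfl
    rw [h3]
    by_cases h : k' = j
    · subst h
      simp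
    · rw [if_neg h]
      have h4 : b.coord k' (b j) = 0 := by
        rw [Module.Basis.coord_apply, Module.Basis.repr_self, Finsupp.single_apply]
        rw [if_neg (fun e => h e.symm)]
      rw [h4]
      simp
  rw [Finset.sum_congr rfl (fun k' _ => h2 k')]
  simp

end FPCo

theorem stmtCo : StmtCo := by
  intro V _ _ d ι _ _ b τ c K
  have h1 : co b (psh τ c) K = c.toMultilinearMap (fun i => rpull τ (cf b (K i))) := rfl
  rw [h1]
  have h2 : (fun i => rpull τ (cf b (K i)))
      = fun i => ∑ k', ((b.coord (K i) (τ (b k')) : ℝ) : ℂ) • cf b k' := by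
    funext i
    exact FPCo.cfComp b τ (K i)
  rw [h2, MultilinearMap.map_sum]
  apply Finset.sum_congr rfl
  intro K' _
  rw [MultilinearMap.map_smul_univ]
  rw [smul_eq_mul, Complex.ofReal_prod]
  rfl

end Pool.Agent.A640.Tate
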