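import Mathlib

/-!
# PROJECT TATE, package FP: the theorem of the fixed part over `ℂ` minus a finite set -- definitions

`V` is a complex vector space of finite dimension. A family of abelian varieties (up to isogeny) over an open
set `U ⊆ ℂ` is given by the rational lattices `L z ⊆ V` and the Riemann forms `E z` (`z ∈ U`), and locally by
the flat transport `τ z : V ≃ V` (real linear, holomorphic in `z`). `O z` is a finite set of homology classes
(with complex coefficients), flat as a set: the orbit of a class under the monodromy.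
-/

set_option autoImplicit false

open Metric Set Complex

noncomputable section

namespace Pool.Agent.A640.Tate

/-- Homology classes of degree `d` with complex coefficients: `c (a_1, …, a_d) = ∫_c a_1 ∧ … ∧ a_d`. -/
abbrev Cl (V : Type) [NormedAddCommGroup V] [NormedSpace ℂ V] (d : ℕ) : Type :=
  (V →ₗ[ℝ] ℂ) [⋀^Fin d]→ₗ[ℂ] ℂ

variable {V : Type} [NormedAddCommGroup V] [NormedSpace ℂ V] {d : ℕ}

/-- Pull back of the real linear forms by the real linear map `τ`. -/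
def rpull (τ : V →ₗ[ℝ] V) : (V →ₗ[ℝ] ℂ) →ₗ[ℂ] (V →ₗ[ℝ] ℂ) where
  toFun a := a ∘ₗ τ
  map_add' _ _ := rfl
  map_smul' _ _ := rfl

/-- The image of a homology class under the real linear map `τ`. -/
def psh (τ : V →ₗ[ℝ] V) (c : Cl V d) : Cl V d := c.compLinearMap (rpull τ)

/-- The real endomorphism `X` of `V` acting on homology as a derivation. -/
def dact (X : V →ₗ[ℝ] V) (c : Cl V d) (a : Fin d → (V →ₗ[ℝ] ℂ)) : ℂ :=
  ∑ i, c (Function.update a i (a i ∘ₗ X))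

/-- Multiplication by `i`. -/
def mI (V : Type) [NormedAddCommGroup V] [NormedSpace ℂ V] : V →ₗ[ℝ] V where
  toFun v := Complex.I • v
  map_add' u v := smul_add _ u v
  map_smul' c v := by
    simp only [RingHom.id_apply]
    rw [smul_comm]

/-- `τ` is the flat transport on `ball w0 r`, from `w0`. -/
structure IsTr (L : ℂ → Set V) (E : ℂ → V →ₗ[ℝ] V →ₗ[ℝ] ℝ) (O : ℂ → Set (Cl V d)) (w0 : ℂ) (r : ℝ)
    (τ : ℂ → (V ≃ₗ[ℝ] V)) : Prop where
  pos : 0 < r
  one : ∀ v, τ w0 v = v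
  lat : ∀ w ∈ ball w0 r, τ w '' L w0 = L w
  pol : ∀ w ∈ ball w0 r, ∀ u v, E w (τ w u) (τ w v) = E w0 u v
  orb : ∀ w ∈ ball w0 r, psh (τ w).toLinearMap '' O w0 = O w
  hol : ∀ v, DifferentiableOn ℂ (fun w => τ w v) (ball w0 r)

/-- A family over the open set `U`, with a finite flat set of classes `O`. -/
structure IsFm (U : Set ℂ) (L : ℂ → Set V) (E : ℂ → V →ₗ[ℝ] V →ₗ[ℝ] ℝ) (O : ℂ → Set (Cl V d)) :
    Prop where
  cnt : ∀ z ∈ U, (L z).Countable
  span : ∀ z ∈ U, Submodule.span ℝ (L z) = ⊤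
  alt : ∀ z ∈ U, ∀ u v, E z u v = -E z v u
  inv : ∀ z ∈ U, ∀ u v, E z (Complex.I • u) (Complex.I • v) = E z u v
  pos : ∀ z ∈ U, ∀ v, v ≠ 0 → 0 < E z (Complex.I • v) v
  fin : ∀ z ∈ U, (O z).Finite
  loc : ∀ z ∈ U, ∃ (r : ℝ) (τ : ℂ → (V ≃ₗ[ℝ] V)), ball z r ⊆ U ∧ IsTr L E O z r τ

/-- THEOREM FP (the theorem of the fixed part over `ℂ` minus a finite set `F`): for a class `c` in a finite
flat set of classes, the transport of `J c` is `J` of the transport of `c`. -/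
def ThmFP : Prop :=
  ∀ (V : Type) (_ : NormedAddCommGroup V) (_ : NormedSpace ℂ V) (_ : FiniteDimensional ℂ V) (d : ℕ)
    (F : Finset ℂ) (L : ℂ → Set V) (E : ℂ → V →ₗ[ℝ] V →ₗ[ℝ] ℝ) (O : ℂ → Set (Cl V d)),
    IsFm {z | z ∉ F} L E O → ∀ (z0 : ℂ) (r : ℝ) (τ : ℂ → (V ≃ₗ[ℝ] V)), ball z0 r ⊆ {z | z ∉ F} →
      IsTr L E O z0 r τ → ∀ c ∈ O z0, ∀ z ∈ ball z0 r, ∀ a,
        dact (mI V) (psh (τ z).toLinearMap c) a = dact (mI V) c (fun i => a i ∘ₗ (τ z).toLinearMap)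

/-! ## Derivatives in the plane -/

/-- The partial derivative `∂f/∂x` of a function on `ℂ = ℝ²`. -/
def px (f : ℂ → ℝ) (z : ℂ) : ℝ := fderiv ℝ f z 1

/-- The partial derivative `∂f/∂y` of a function on `ℂ = ℝ²`. -/
def py (f : ℂ → ℝ) (z : ℂ) : ℝ := fderiv ℝ f z Complex.I

/-- `∂/∂x` of a matrix valued function, entry by entry. -/
def mX {κ : Type} (f : ℂ → Matrix κ κ ℝ) (z : ℂ) : Matrix κ κ ℝ :=
  Matrix.of fun i j => px (fun w => f w i j) z

/-- `∂/∂y` of a matrix valued function, entry by entry. -/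
def mY {κ : Type} (f : ℂ → Matrix κ κ ℝ) (z : ℂ) : Matrix κ κ ℝ :=
  Matrix.of fun i j => py (fun w => f w i j) z

/-! ## Harmonic maps into the space of positive definite matrices -/

/-- `Q : U → ` positive definite matrices with `Q_x = Q X`, `Q_y = Q Y`, `X = -J_y`, `Y = J_x` (so
`X_x + Y_y = 0`: `Q` is a harmonic map). -/
structure HV {κ : Type} [Fintype κ] [DecidableEq κ] (U : Set ℂ) (Q J : ℂ → Matrix κ κ ℝ) : Prop where
  op : IsOpen U
  cQ : ∀ i j, ContDiffOn ℝ 2 (fun z => Q z i j) U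
  cJ : ∀ i j, ContDiffOn ℝ 2 (fun z => J z i j) U
  pd : ∀ z ∈ U, (Q z).PosDef
  qx : ∀ z ∈ U, mX Q z = -(Q z * mY J z)
  qy : ∀ z ∈ U, mY Q z = Q z * mX J z

/-- `|v^T Q X v| ≤ μ v^T Q v` and the same for `Y`, at the point `z`. -/
structure HB {κ : Type} [Fintype κ] [DecidableEq κ] (Q J : ℂ → Matrix κ κ ℝ) (z : ℂ) (μ : ℝ) : Prop where
  nn : 0 ≤ μ
  ps : (Q z).PosSemidef
  xp : (μ • Q z + Q z * mY J z).PosSemidef
  xm : (μ • Q z - Q z * mY J z).PosSemidef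
  yp : (μ • Q z + Q z * mX J z).PosSemidef
  ym : (μ • Q z - Q z * mX J z).PosSemidef

/-- The `d`-th tensor power of a bilinear form. -/
def Qd {ι : Type} (d : ℕ) (Q : Matrix ι ι ℝ) : Matrix (Fin d → ι) (Fin d → ι) ℝ :=
  Matrix.of fun K K' => ∏ i, Q (K i) (K' i)

/-- The action of an endomorphism on the `d`-th tensor power as a derivation. -/
def Jd {ι : Type} [DecidableEq ι] (d : ℕ) (J : Matrix ι ι ℝ) : Matrix (Fin d → ι) (Fin d → ι) ℝ :=
  Matrix.of fun K K' => ∑ i, if ∀ j, j ≠ i → K j = K' j then J (K i) (K' i) else 0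

/-! ## The Hodge norm -/

/-- The real linear form `b_k^*`, with values in `ℂ`. -/
def cf {ι : Type} (b : Module.Basis ι ℝ V) (k : ι) : V →ₗ[ℝ] ℂ := (Algebra.linearMap ℝ ℂ) ∘ₗ b.coord k

/-- The coordinates of a class. -/
def co {ι : Type} (b : Module.Basis ι ℝ V) (c : Cl V d) (K : Fin d → ι) : ℂ := c fun i => cf b (K i)

/-- The Hodge norm (squared) of a class for the Riemann form `E`. -/
def hn {ι : Type} [Fintype ι] (b : Module.Basis ι ℝ V) (E : V →ₗ[ℝ] V →ₗ[ℝ] ℝ) (c : Cl V d) : ℝ :=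
  ∑ K : Fin d → ι, ∑ K' : Fin d → ι, ((co b c K).re * (co b c K').re + (co b c K).im * (co b c K').im) *
    ∏ i, E (Complex.I • b (K i)) (b (K' i))

/-- `log (1 + the sum of the Hodge norms of the classes in O z)`. -/
def uu {ι : Type} [Fintype ι] (b : Module.Basis ι ℝ V) (E : ℂ → V →ₗ[ℝ] V →ₗ[ℝ] ℝ)
    (O : ℂ → Set (Cl V d)) (z : ℂ) : ℝ :=
  Real.log (1 + ∑ᶠ c ∈ O z, hn b (E z) c)

/-- The Gram matrix of `E_z (i u, v)` in flat coordinates. -/
def Gm {ι : Type} (b : Module.Basis ι ℝ V) (E : ℂ → V →ₗ[ℝ] V →ₗ[ℝ] ℝ) (τ : ℂ → (V ≃ₗ[ℝ] V)) (z : ℂ) :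
    Matrix ι ι ℝ :=
  Matrix.of fun k l => E z (Complex.I • τ z (b k)) (τ z (b l))

/-- The matrix of the complex structure in flat coordinates. -/
def Jm {ι : Type} (b : Module.Basis ι ℝ V) (τ : ℂ → (V ≃ₗ[ℝ] V)) (z : ℂ) : Matrix ι ι ℝ :=
  Matrix.of fun k l => b.coord k ((τ z).symm (Complex.I • τ z (b l)))

/-- `h = ∑_j c_j^T Q c_j`. -/
def hh {κ : Type} [Fintype κ] {m : ℕ} (Q : ℂ → Matrix κ κ ℝ) (c : Fin m → κ → ℝ) (z : ℂ) : ℝ :=
  ∑ j, dotProduct (c j) (Matrix.mulVec (Q z) (c j))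

/-- The smooth cutoff function `ψ(t) = 1` for `t ≤ 1`, `0` for `t ≥ 2`. -/
def psi (t : ℝ) : ℝ := Real.smoothTransition (2 - t)

open Classical in
/-- The cutoff functions near the punctures and infinity. -/
def chi (F : Finset ℂ) (n : ℕ) (z : ℂ) : ℝ :=
  if z ∈ F then 0 else psi (Real.log ‖z‖ / n) * ∏ s ∈ F, psi (-Real.log ‖z - s‖ / n)

/-- The real coordinates of a class: real part (`j = 0`) and imaginary part (`j = 1`). -/
def cc {ι : Type} (b : Module.Basis ι ℝ V) (c : Cl V d) (j : Fin 2) (K : Fin d → ι) : ℝ :=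
  if j = 0 then (co b c K).re else (co b c K).im

end Pool.Agent.A640.Tate
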