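import Pool.Agent.Lib.MP_640417_ag.TATE.FP.Spec

/-!
# PROJECT TATE, package FP: transport on a disc
-/

set_option autoImplicit false

open Metric Set Complex

noncomputable section

namespace Pool.Agent.A640.Tate

theorem FPDisc0.mono {V : Type} [NormedAddCommGroup V] [NormedSpace ℂ V] {d : ℕ} {L : ℂ → Set V}
    {E : ℂ → V →ₗ[ℝ] V →ₗ[ℝ] ℝ} {O : ℂ → Set (Cl V d)} {w0 : ℂ} {r r1 : ℝ} {τ : ℂ → (V ≃ₗ[ℝ] V)}
    (h : IsTr L E O w0 r τ) (h1 : 0 < r1) (h2 : r1 ≤ r) : IsTr L E O w0 r1 τ :=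
  ⟨h1, h.one, fun w hw => h.lat w (ball_subset_ball h2 hw),
    fun w hw => h.pol w (ball_subset_ball h2 hw), fun w hw => h.orb w (ball_subset_ball h2 hw),
    fun v => (h.hol v).mono (ball_subset_ball h2)⟩

/-- T6. -/
theorem stmtDisc0 (hUni : StmtUni) (hExt : StmtExt) : StmtDisc := by
  intro V _ _ _ d L E O w0 r r' hF hr' hrr
  obtain ⟨ε, hε, hU⟩ := hUni V d L E O w0 r r' hF hr' hrr
  have hw0 : w0 ∈ ball w0 r := mem_ball_self (hr'.trans hrr)
  obtain ⟨r0, τ0, -, hτ0⟩ := hF.loc w0 hw0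
  have key : ∀ n : ℕ, ∃ τ : ℂ → (V ≃ₗ[ℝ] V), IsTr L E O w0 (min r' (min r0 r' + n * ε)) τ := by
    intro n
    induction n with
    | zero =>
      refine ⟨τ0, FPDisc0.mono hτ0 ?_ ?_⟩
      · simp only [Nat.cast_zero, zero_mul, add_zero]
        exact lt_min hr' (lt_min hτ0.pos hr')
      · simp only [Nat.cast_zero, zero_mul, add_zero]
        exact (min_le_right _ _).trans (min_le_left _ _)
    | succ n ih =>
      obtain ⟨τ, hτ⟩ := ih
      obtain ⟨τ', hτ'⟩ := hExt V d L E O w0 _ ε τ hε (hF.cnt w0 hw0) (hF.span w0 hw0) hτ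
        (fun w1 hw1 => (hU w1 (ball_subset_ball (min_le_left _ _) hw1)).2)
      refine ⟨τ', FPDisc0.mono hτ' ?_ ?_⟩
      · refine lt_min hr' ?_
        have h1 : 0 < min r0 r' := lt_min hτ0.pos hr'
        have h2 : 0 ≤ ((n + 1 : ℕ) : ℝ) * ε := by positivity
        linarith
      · have h3 : min r' (min r0 r' + ((n + 1 : ℕ) : ℝ) * ε) ≤ min r' (min r0 r' + n * ε) + ε := by
          rcases le_total r' (min r0 r' + n * ε) with h | h
          · rw [min_eq_left h]
            exact (min_le_left _ _).trans (by linarith)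
          · rw [min_eq_right h]
            refine (min_le_right _ _).trans ?_
            push_cast
            linarith
        exact h3
  obtain ⟨n, hn⟩ := exists_nat_ge (r' / ε)
  obtain ⟨τ, hτ⟩ := key n
  refine ⟨τ, FPDisc0.mono hτ hr' (le_min le_rfl ?_)⟩
  have h1 : r' ≤ n * ε := (div_le_iff₀ hε).1 hn
  have h2 : 0 < min r0 r' := lt_min hτ0.pos hr'
  linarith

end Pool.Agent.A640.Tate
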