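import Pool.Agent.Lib.MP_640417_ag.TATE.FP.Spec

/-!
# PROJECT TATE, package FP, module Dk: the derivation in coordinates
-/

set_option autoImplicit false

noncomputable section

namespace Pool.Agent.A640.Tate

namespace FPDk

variable {V : Type} [NormedAddCommGroup V] [NormedSpace ℂ V] {d : ℕ}

/-- `b_k^* ∘ X = ∑_l X_kl b_l^*`. -/
lemma cf_comp {ι : Type} [Fintype ι] [DecidableEq ι] (b : Module.Basis ι ℝ V) (X : V →ₗ[ℝ] V)
    (k : ι) : cf b k ∘ₗ X = ∑ l, ((b.coord k (X (b l)) : ℝ) : ℂ) • cf b l := by
  refine b.ext fun j => ?_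
  simp only [LinearMap.sum_apply, LinearMap.smul_apply, LinearMap.comp_apply, cf,
    Algebra.linearMap_apply, Complex.coe_algebraMap, smul_eq_mul]
  rw [Finset.sum_eq_single j]
  · simp
  · intro l _ hl
    simp [Module.Basis.coord_apply, Ne.symm hl]
  · intro h
    exact absurd (Finset.mem_univ j) h

/-- A sum over the multi-indices which agree with `K` outside of `i`. -/
lemma sum_update {ι : Type} [Fintype ι] [DecidableEq ι] (K : Fin d → ι) (i : Fin d)
    (f : (Fin d → ι) → ℂ) :
    ∑ K' : Fin d → ι, (if ∀ j, j ≠ i → K j = K' j then f K' else 0) =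
      ∑ l, f (Function.update K i l) := by
  rw [← Finset.sum_filter]
  symm
  refine Finset.sum_bij (fun l _ => Function.update K i l) ?_ ?_ ?_ ?_
  · intro l _
    rw [Finset.mem_filter]
    refine ⟨Finset.mem_univ _, fun j hj => ?_⟩
    rw [Function.update_of_ne hj]
  · intro l _ l' _ h
    exact Function.update_injective K i h
  · intro K' hK'
    rw [Finset.mem_filter] at hK'
    refine ⟨K' i, Finset.mem_univ _, ?_⟩
    funext j
    by_cases hj : j = i
    · subst hj
      rw [Function.update_self]
    · rw [Function.update_of_ne hj]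
      exact hK'.2 j hj
  · intro l _
    rfl

end FPDk

open FPDk in
theorem stmtDk : StmtDk := by
  intro V _ _ d ι _ _ b X c K
  unfold dact
  have h1 : ∀ i, c (Function.update (fun i => cf b (K i)) i ((fun i => cf b (K i)) i ∘ₗ X)) =
      ∑ l, ((b.coord (K i) (X (b l)) : ℝ) : ℂ) * co b c (Function.update K i l) := by
    intro i
    have e : ((fun i => cf b (K i)) i ∘ₗ X) = cf b (K i) ∘ₗ X := rfl
    rw [e, cf_comp b X (K i), AlternatingMap.map_update_sum]
    refine Finset.sum_congr rfl fun l _ => ?_
    rw [AlternatingMap.map_update_smul, smul_eq_mul]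
    congr 1
    unfold co
    congr 1
    funext j
    by_cases hj : j = i
    · subst hj
      rw [Function.update_self, Function.update_self]
    · rw [Function.update_of_ne hj, Function.update_of_ne hj]
  rw [Finset.sum_congr rfl fun i _ => h1 i]
  have h2 : ∀ K' : Fin d → ι,
      ((Jd d (Matrix.of fun k l => b.coord k (X (b l))) K K' : ℝ) : ℂ) * co b c K' =
        ∑ i, (if ∀ j, j ≠ i → K j = K' j then
          ((b.coord (K i) (X (b (K' i))) : ℝ) : ℂ) * co b c K' else 0) := by
    intro K'
    have e : Jd d (Matrix.of fun k l => b.coord k (X (b l))) K K' =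
        ∑ i, if ∀ j, j ≠ i → K j = K' j then b.coord (K i) (X (b (K' i))) else 0 := rfl
    rw [e, Complex.ofReal_sum, Finset.sum_mul]
    refine Finset.sum_congr rfl fun i _ => ?_
    split_ifs with h
    · rfl
    · simp
  rw [Finset.sum_congr rfl fun K' _ => h2 K', Finset.sum_comm (s := (Finset.univ : Finset (Fin d → ι)))]
  refine Finset.sum_congr rfl fun i _ => ?_
  rw [sum_update K i (fun K' => ((b.coord (K i) (X (b (K' i))) : ℝ) : ℂ) * co b c K')]
  refine Finset.sum_congr rfl fun l _ => ?_
  rw [Function.update_self]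

end Pool.Agent.A640.Tate
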