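import Pool.Agent.Lib.MP_640417_ag.TATE.FP.Spec

/-!
# TATE FP/Dm: `dact` is determined by its values on the basis
-/

set_option autoImplicit false

noncomputable section

namespace Pool.Agent.A640.Tate

namespace FPDm

variable {V : Type} [NormedAddCommGroup V] [NormedSpace ℂ V] {d : ℕ}

/-- `dact X c` as a multilinear map -/
def dm (X : V →ₗ[ℝ] V) (c : Cl V d) :
    MultilinearMap ℂ (fun _ : Fin d => V →ₗ[ℝ] ℂ) ℂ :=
  ∑ i : Fin d, c.toMultilinearMap.compLinearMap
    (fun j => if j = i then rpull X else LinearMap.id)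

theorem dm_apply (X : V →ₗ[ℝ] V) (c : Cl V d) (a : Fin d → (V →ₗ[ℝ] ℂ)) :
    dm X c a = dact X c a := by
  unfold dm dact
  rw [MultilinearMap.sum_apply]
  refine Finset.sum_congr rfl fun i _ => ?_
  rw [MultilinearMap.compLinearMap_apply]
  change c _ = c _
  congr 1
  funext j
  by_cases h : j = i
  · subst h
    rw [if_pos rfl, Function.update_self]
    rfl
  · rw [if_neg h, Function.update_of_ne h]
    rfl

theorem expand {ι : Type} [Fintype ι] (b : Module.Basis ι ℝ V) (a : V →ₗ[ℝ] ℂ) :
    a = ∑ k, a (b k) • cf b k := by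
  refine b.ext fun l => ?_
  rw [LinearMap.sum_apply, Finset.sum_eq_single l]
  · simp [cf]
  · intro k _ hk
    simp [cf, Finsupp.single_apply, hk.symm]
  · intro h
    exact absurd (Finset.mem_univ l) h

end FPDm

theorem stmtDm : StmtDm := by
  intro V _ _ d ι _ _ b X X' c h a
  rw [← FPDm.dm_apply, ← FPDm.dm_apply]
  have key : ∀ Y : V →ₗ[ℝ] V, FPDm.dm Y c a =
      ∑ K : Fin d → ι, (∏ i, a i (b (K i))) * dact Y c (fun i => cf b (K i)) := by
    intro Y
    have h1 : a = fun i => ∑ k, (a i) (b k) • cf b k := by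
      funext i
      exact FPDm.expand b (a i)
    conv_lhs => rw [h1]
    rw [MultilinearMap.map_sum]
    refine Finset.sum_congr rfl fun K _ => ?_
    rw [MultilinearMap.map_smul_univ, smul_eq_mul, FPDm.dm_apply]
  rw [key, key]
  refine Finset.sum_congr rfl fun K _ => ?_
  rw [h K]

end Pool.Agent.A640.Tate
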