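import Pool.Agent.Lib.MP_640417_ag.TATE.FP.Spec

/-!
# PROJECT TATE, package FP: the extension step
-/

set_option autoImplicit false

open Metric Set Complex

noncomputable section

namespace Pool.Agent.A640.Tate

namespace FPExt

variable {V : Type} [NormedAddCommGroup V] [NormedSpace ℂ V] {d : ℕ}

lemma psh_trans (f g : V ≃ₗ[ℝ] V) (c : Cl V d) :
    psh (f.trans g).toLinearMap c = psh g.toLinearMap (psh f.toLinearMap c) := by
  ext a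
  rfl

lemma img_trans (f g : V ≃ₗ[ℝ] V) (S : Set V) : (f.trans g) '' S = g '' (f '' S) := by
  rw [Set.image_image]
  rfl

lemma orb_trans (f g : V ≃ₗ[ℝ] V) (S : Set (Cl V d)) :
    psh (f.trans g).toLinearMap '' S = psh g.toLinearMap '' (psh f.toLinearMap '' S) := by
  rw [Set.image_image]
  exact Set.image_congr fun c _ => psh_trans f g c

/-- The point of the smaller ball near `w`. -/
def pt (w0 : ℂ) (ρ ε : ℝ) (w : ℂ) : ℂ := w0 + ((ρ / (ρ + ε) : ℝ) : ℂ) * (w - w0)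

lemma pt_self (w0 : ℂ) (ρ ε : ℝ) : pt w0 ρ ε w0 = w0 := by
  simp [pt]

lemma pt_mem (w0 : ℂ) (ρ ε : ℝ) (hρ : 0 < ρ) (hε : 0 < ε) (w : ℂ) (hw : w ∈ ball w0 (ρ + ε)) :
    pt w0 ρ ε w ∈ ball w0 ρ := by
  have h0 : 0 < ρ + ε := by linarith
  rw [mem_ball, dist_eq_norm] at hw ⊢
  have h1 : pt w0 ρ ε w - w0 = ((ρ / (ρ + ε) : ℝ) : ℂ) * (w - w0) := by
    rw [pt]; ring
  rw [h1, norm_mul, Complex.norm_real, Real.norm_eq_abs, abs_of_pos (div_pos hρ h0)]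
  calc ρ / (ρ + ε) * ‖w - w0‖ < ρ / (ρ + ε) * (ρ + ε) :=
        mul_lt_mul_of_pos_left hw (div_pos hρ h0)
    _ = ρ := div_mul_cancel₀ _ h0.ne'

lemma mem_pt (w0 : ℂ) (ρ ε : ℝ) (hρ : 0 < ρ) (hε : 0 < ε) (w : ℂ) (hw : w ∈ ball w0 (ρ + ε)) :
    w ∈ ball (pt w0 ρ ε w) ε := by
  have h0 : 0 < ρ + ε := by linarith
  rw [mem_ball, dist_eq_norm] at hw ⊢
  have h2 : (1 : ℝ) - ρ / (ρ + ε) = ε / (ρ + ε) := by
    field_simp
    ring
  have h1 : w - pt w0 ρ ε w = ((ε / (ρ + ε) : ℝ) : ℂ) * (w - w0) := by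
    rw [← h2, pt, Complex.ofReal_sub, Complex.ofReal_one]; ring
  rw [h1, norm_mul, Complex.norm_real, Real.norm_eq_abs, abs_of_pos (div_pos hε h0)]
  calc ε / (ρ + ε) * ‖w - w0‖ < ε / (ρ + ε) * (ρ + ε) :=
        mul_lt_mul_of_pos_left hw (div_pos hε h0)
    _ = ε := div_mul_cancel₀ _ h0.ne'

/-- The transport from `w1`, after the transport from `w0` to `w1`, is the transport from `w0`. -/
lemma agA [FiniteDimensional ℂ V] (hUq : StmtUq) {L : ℂ → Set V} {E : ℂ → V →ₗ[ℝ] V →ₗ[ℝ] ℝ}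
    {O : ℂ → Set (Cl V d)} {w0 : ℂ} {ρ ε : ℝ} {τ : ℂ → (V ≃ₗ[ℝ] V)} (hε : 0 < ε)
    (hc : (L w0).Countable) (hs : Submodule.span ℝ (L w0) = ⊤) (hτ : IsTr L E O w0 ρ τ)
    {w1 : ℂ} (hw1 : w1 ∈ ball w0 ρ) {T : ℂ → (V ≃ₗ[ℝ] V)} (hT : IsTr L E O w1 ε T)
    {m : ℂ} (hm1 : m ∈ ball w1 ε) (hm0 : m ∈ ball w0 ρ) (v : V) : T m (τ w1 v) = τ m v := by
  have hW : IsPreconnected (ball w1 ε ∩ ball w0 ρ) :=
    ((convex_ball w1 ε).inter (convex_ball w0 ρ)).isPreconnected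
  refine hUq V (ball w1 ε ∩ ball w0 ρ) (L w0) L (fun w => (τ w1).trans (T w)) τ hW hc hs ?_ ?_ ?_ ?_
    w1 ⟨mem_ball_self hε, hw1⟩ ?_ m ⟨hm1, hm0⟩ v
  · intro w hw
    rw [img_trans, hτ.lat w1 hw1, hT.lat w hw.1]
  · intro w hw
    exact hτ.lat w hw.2
  · intro u
    exact ((hT.hol (τ w1 u)).continuousOn).mono inter_subset_left
  · intro u
    exact ((hτ.hol u).continuousOn).mono inter_subset_right
  · intro u
    exact hT.one (τ w1 u)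

/-- Two choices of the intermediate point agree. -/
lemma agB [FiniteDimensional ℂ V] (hUq : StmtUq) {L : ℂ → Set V} {E : ℂ → V →ₗ[ℝ] V →ₗ[ℝ] ℝ}
    {O : ℂ → Set (Cl V d)} {w0 : ℂ} {ρ ε : ℝ} {τ : ℂ → (V ≃ₗ[ℝ] V)} (hε : 0 < ε)
    (hc : (L w0).Countable) (hs : Submodule.span ℝ (L w0) = ⊤) (hτ : IsTr L E O w0 ρ τ)
    {w1 w2 : ℂ} (hw1 : w1 ∈ ball w0 ρ) (hw2 : w2 ∈ ball w0 ρ) {T1 T2 : ℂ → (V ≃ₗ[ℝ] V)}
    (hT1 : IsTr L E O w1 ε T1) (hT2 : IsTr L E O w2 ε T2)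
    {w : ℂ} (h1 : w ∈ ball w1 ε) (h2 : w ∈ ball w2 ε) (v : V) : T1 w (τ w1 v) = T2 w (τ w2 v) := by
  have hW : IsPreconnected (ball w1 ε ∩ ball w2 ε) :=
    ((convex_ball w1 ε).inter (convex_ball w2 ε)).isPreconnected
  set m : ℂ := midpoint ℝ w1 w2 with hm
  have hm0 : m ∈ ball w0 ρ := (convex_ball w0 ρ).midpoint_mem hw1 hw2
  have hd : dist w1 w2 < 2 * ε := by
    rw [mem_ball] at h1 h2
    have := dist_triangle w1 w w2
    rw [dist_comm w1 w] at this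
    linarith
  have hm1 : m ∈ ball w1 ε := by
    rw [mem_ball, hm, dist_midpoint_left, Real.norm_ofNat]
    linarith
  have hm2 : m ∈ ball w2 ε := by
    rw [mem_ball, hm, dist_midpoint_right, Real.norm_ofNat]
    linarith
  refine hUq V (ball w1 ε ∩ ball w2 ε) (L w0) L (fun w => (τ w1).trans (T1 w))
    (fun w => (τ w2).trans (T2 w)) hW hc hs ?_ ?_ ?_ ?_ m ⟨hm1, hm2⟩ ?_ w ⟨h1, h2⟩ v
  · intro z hz
    rw [img_trans, hτ.lat w1 hw1, hT1.lat z hz.1]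
  · intro z hz
    rw [img_trans, hτ.lat w2 hw2, hT2.lat z hz.2]
  · intro u
    exact ((hT1.hol (τ w1 u)).continuousOn).mono inter_subset_left
  · intro u
    exact ((hT2.hol (τ w2 u)).continuousOn).mono inter_subset_right
  · intro u
    exact (agA hUq hε hc hs hτ hw1 hT1 hm1 hm0 u).trans (agA hUq hε hc hs hτ hw2 hT2 hm2 hm0 u).symm

end FPExt

open FPExt

/-- T5. The extension step. -/
theorem stmtExt (hUq : StmtUq) : StmtExt := by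
  intro V _ _ _ d L E O w0 ρ ε τ hε hc hs hτ hex
  have hρ : 0 < ρ := hτ.pos
  have hex' : ∀ w1 : ℂ, ∃ τ1 : ℂ → (V ≃ₗ[ℝ] V), w1 ∈ ball w0 ρ → IsTr L E O w1 ε τ1 := by
    intro w1
    by_cases h : w1 ∈ ball w0 ρ
    · obtain ⟨τ1, h1⟩ := hex w1 h
      exact ⟨τ1, fun _ => h1⟩
    · exact ⟨fun _ => LinearEquiv.refl ℝ V, fun h' => absurd h' h⟩
  choose T hT using hex'
  refine ⟨fun w => (τ (pt w0 ρ ε w)).trans (T (pt w0 ρ ε w) w), by linarith, ?_, ?_, ?_, ?_, ?_⟩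
  · intro v
    change T (pt w0 ρ ε w0) w0 (τ (pt w0 ρ ε w0) v) = v
    rw [pt_self, hτ.one, (hT w0 (mem_ball_self hρ)).one]
  · intro w hw
    have h1 := pt_mem w0 ρ ε hρ hε w hw
    rw [img_trans, hτ.lat _ h1, (hT _ h1).lat w (mem_pt w0 ρ ε hρ hε w hw)]
  · intro w hw u v
    have h1 := pt_mem w0 ρ ε hρ hε w hw
    change E w (T (pt w0 ρ ε w) w (τ (pt w0 ρ ε w) u)) (T (pt w0 ρ ε w) w (τ (pt w0 ρ ε w) v)) = _
    rw [(hT _ h1).pol w (mem_pt w0 ρ ε hρ hε w hw), hτ.pol _ h1]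
  · intro w hw
    have h1 := pt_mem w0 ρ ε hρ hε w hw
    rw [orb_trans, hτ.orb _ h1, (hT _ h1).orb w (mem_pt w0 ρ ε hρ hε w hw)]
  · intro v w hw
    have h1 := pt_mem w0 ρ ε hρ hε w hw
    have h2 := mem_pt w0 ρ ε hρ hε w hw
    set w1 : ℂ := pt w0 ρ ε w with hw1
    have hd : DifferentiableAt ℂ (fun z => T w1 z (τ w1 v)) w :=
      ((hT w1 h1).hol (τ w1 v)).differentiableAt (isOpen_ball.mem_nhds h2)
    refine (hd.congr_of_eventuallyEq ?_).differentiableWithinAt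
    filter_upwards [isOpen_ball.mem_nhds h2, isOpen_ball.mem_nhds hw] with z hz hz'
    change T (pt w0 ρ ε z) z (τ (pt w0 ρ ε z) v) = T w1 z (τ w1 v)
    have h3 := pt_mem w0 ρ ε hρ hε z hz'
    exact agB hUq hε hc hs hτ h3 h1 (hT _ h3) (hT _ h1) (mem_pt w0 ρ ε hρ hε z hz') hz v

end Pool.Agent.A640.Tate
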