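import Pool.Agent.Lib.MP_640417_ag.TATE.FP.Spec

/-!
# TATE, package FP, module Fl: `J c` is flat
-/

set_option autoImplicit false

open Metric Set Complex Topology

noncomputable section

namespace Pool.Agent.A640.Tate

namespace FPFl

theorem px_congr {f g : ℂ → ℝ} {z : ℂ} (h : f =ᶠ[𝓝 z] g) : px f z = px g z := by
  unfold px
  rw [h.fderiv_eq]

theorem py_congr {f g : ℂ → ℝ} {z : ℂ} (h : f =ᶠ[𝓝 z] g) : py f z = py g z := by
  unfold py
  rw [h.fderiv_eq]

/-- The Laplacian only depends on the germ. -/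
theorem lap_congr {f g : ℂ → ℝ} {U : Set ℂ} (hU : IsOpen U) (h : ∀ z ∈ U, f z = g z) {z : ℂ}
    (hz : z ∈ U) : px (px f) z + py (py f) z = px (px g) z + py (py g) z := by
  have h1 : ∀ w ∈ U, f =ᶠ[𝓝 w] g := fun w hw => by
    filter_upwards [hU.mem_nhds hw] with x hx using h x hx
  have hx : px f =ᶠ[𝓝 z] px g := by
    filter_upwards [hU.mem_nhds hz] with w hw using px_congr (h1 w hw)
  have hy : py f =ᶠ[𝓝 z] py g := by
    filter_upwards [hU.mem_nhds hz] with w hw using py_congr (h1 w hw)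
  rw [px_congr hx, py_congr hy]

/-- A real linear map on `ℂ` which kills `1` and `i` is zero. -/
theorem clm_zero (L : ℂ →L[ℝ] ℝ) (h1 : L 1 = 0) (hI : L Complex.I = 0) : L = 0 := by
  ext w
  have hw : w = w.re • (1 : ℂ) + w.im • Complex.I := by
    simp [Complex.re_add_im]
  rw [hw, map_add, map_smul, map_smul, h1, hI]
  simp

/-- If `J_x c = J_y c = 0` on the ball then `J c` is constant. -/
theorem const {κ : Type} [Fintype κ] [DecidableEq κ] {z0 : ℂ} {r : ℝ} {Q J : ℂ → Matrix κ κ ℝ}
    (h : HV (ball z0 r) Q J) (c : κ → ℝ)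
    (hx : ∀ z ∈ ball z0 r, Matrix.mulVec (mX J z) c = 0)
    (hy : ∀ z ∈ ball z0 r, Matrix.mulVec (mY J z) c = 0) {z w : ℂ} (hz : z ∈ ball z0 r)
    (hw : w ∈ ball z0 r) : Matrix.mulVec (J z) c = Matrix.mulVec (J w) c := by
  funext k
  have hd : ∀ i j, ∀ x ∈ ball z0 r, DifferentiableAt ℝ (fun z => J z i j) x := fun i j x hx =>
    ((h.cJ i j).differentiableOn (by norm_num)).differentiableAt (isOpen_ball.mem_nhds hx)
  set f : ℂ → ℝ := fun z => ∑ j, J z k j * c j with hf
  have hfd : ∀ x ∈ ball z0 r, HasFDerivAt f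
      (∑ j, c j • fderiv ℝ (fun z => J z k j) x) x := by
    intro x hx
    rw [hf]
    have := HasFDerivAt.fun_sum (u := Finset.univ) (A := fun j z => J z k j * c j)
      (A' := fun j => c j • fderiv ℝ (fun z => J z k j) x) (x := x) (fun j _ => by
        have := (hd k j x hx).hasFDerivAt.mul_const (c j)
        exact this)
    exact this
  have hz0 : (ball z0 r).EqOn (fderiv ℝ f) 0 := by
    intro x hx'
    rw [(hfd x hx').fderiv]
    apply clm_zero
    · have := congrFun (hx x hx') k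
      simp only [Matrix.mulVec, dotProduct, mX, Matrix.of_apply, px, Pi.zero_apply] at this
      rw [← this]
      simp only [ContinuousLinearMap.coe_sum', Finset.sum_apply, ContinuousLinearMap.coe_smul',
        Pi.smul_apply, smul_eq_mul]
      exact Finset.sum_congr rfl fun j _ => mul_comm _ _
    · have := congrFun (hy x hx') k
      simp only [Matrix.mulVec, dotProduct, mY, Matrix.of_apply, py, Pi.zero_apply] at this
      rw [← this]
      simp only [ContinuousLinearMap.coe_sum', Finset.sum_apply, ContinuousLinearMap.coe_smul',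
        Pi.smul_apply, smul_eq_mul]
      exact Finset.sum_congr rfl fun j _ => mul_comm _ _
  have := isOpen_ball.is_const_of_fderiv_eq_zero (𝕜 := ℝ) (convex_ball z0 r).isPreconnected
    (fun x hx => (hfd x hx).differentiableAt.differentiableWithinAt) hz0 hz hw
  simpa [hf, Matrix.mulVec, dotProduct] using this

variable {V : Type} [NormedAddCommGroup V] [NormedSpace ℂ V] {d : ℕ}

/-- The complex structure in flat coordinates. -/
def Xz (τ : V ≃ₗ[ℝ] V) : V →ₗ[ℝ] V := τ.symm.toLinearMap ∘ₗ mI V ∘ₗ τ.toLinearMap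

theorem dact_psh (τ : V ≃ₗ[ℝ] V) (c : Cl V d) (a : Fin d → (V →ₗ[ℝ] ℂ)) :
    dact (mI V) (psh τ.toLinearMap c) a =
      dact (Xz τ) c (fun i => a i ∘ₗ τ.toLinearMap) := by
  unfold dact
  refine Finset.sum_congr rfl fun i _ => ?_
  have : (fun k => (rpull τ.toLinearMap) (Function.update a i (a i ∘ₗ mI V) k)) =
      Function.update (fun i => a i ∘ₗ τ.toLinearMap) i
        ((a i ∘ₗ τ.toLinearMap) ∘ₗ Xz τ) := by
    funext k
    by_cases hk : k = i
    · subst hk
      simp only [Function.update_self]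
      ext v
      simp [rpull, Xz]
    · simp only [Function.update_of_ne hk]
      rfl
  change c (fun k => (rpull τ.toLinearMap) (Function.update a i (a i ∘ₗ mI V) k)) = _
  rw [this]

end FPFl

open FPFl in
theorem stmtFl (hBase : StmtBase) (hPw : StmtPw) (hLap : StmtLap)
    (hUf : StmtUf) (hDk : StmtDk) (hDm : StmtDm) : StmtFl := by
  intro V _ _ _ d ι _ _ b U L E O z0 r τ hF hU hT hΔ c0 hc0 z hz a
  have hz0 : z0 ∈ ball z0 r := mem_ball_self hT.pos
  obtain ⟨m, c, hu, hc⟩ := hUf V d ι b L E O z0 r τ (hF.fin z0 (hU hz0)) hT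
  have hV := hBase V d ι b U L E O z0 r τ hF hU hT
  have hP := (hPw ι d (ball z0 r) (Gm b E τ) (Jm b τ) hV).1
  have hk : ∀ x ∈ ball z0 r, ∀ j,
      Matrix.mulVec (mX (fun z => Jd d (Jm b τ z)) x) (c j) = 0 ∧
      Matrix.mulVec (mY (fun z => Jd d (Jm b τ z)) x) (c j) = 0 := by
    intro x hx
    apply (hLap (Fin d → ι) (ball z0 r) (fun z => Qd d (Gm b E τ z)) (fun z => Jd d (Jm b τ z)) m c hP
      x hx).2
    rw [← lap_congr isOpen_ball hu hx]
    exact hΔ x hx
  have hcon : ∀ l : Fin 2, Matrix.mulVec (Jd d (Jm b τ z)) (cc b c0 l) =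
      Matrix.mulVec (Jd d (Jm b τ z0)) (cc b c0 l) := by
    intro l
    obtain ⟨j, hj⟩ := hc c0 hc0 l
    rw [← hj]
    exact const hP (c j) (fun x hx => (hk x hx j).1) (fun x hx => (hk x hx j).2) hz hz0
  have hJ : ∀ w, Jm b τ w = Matrix.of fun k l => b.coord k (Xz (τ w) (b l)) := by
    intro w
    ext k l
    simp [Jm, Xz, mI]
  have hX0 : Xz (τ z0) = mI V := by
    ext v
    apply (τ z0).injective
    simp only [Xz, LinearMap.comp_apply, LinearEquiv.coe_coe, LinearEquiv.apply_symm_apply]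
    rw [hT.one, hT.one]
  have key : ∀ a', dact (Xz (τ z)) c0 a' = dact (mI V) c0 a' := by
    rw [← hX0]
    apply hDm V d ι b
    intro K
    rw [hDk V d ι b (Xz (τ z)) c0 K, hDk V d ι b (Xz (τ z0)) c0 K, ← hJ, ← hJ]
    have h0 := congrFun (hcon 0) K
    have h1 := congrFun (hcon 1) K
    simp only [Matrix.mulVec, dotProduct, cc, if_true, one_ne_zero, if_false] at h0 h1
    apply Complex.ext
    · simpa using h0
    · simpa using h1
  rw [dact_psh, key]

end Pool.Agent.A640.Tate
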