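import Pool.Agent.Lib.MP_640417_ag.TATE.FP.Spec

/-!
# TATE, package FP: `Q = -E J` is a harmonic map (`StmtGQ`)
-/

set_option autoImplicit false

open Metric Set Complex

noncomputable section

namespace Pool.Agent.A640.Tate

namespace FPGQ

variable {ι : Type} [Fintype ι]

/-- The entries of `-(E0 * J)`. -/
theorem entry (E0 J : Matrix ι ι ℝ) (i j : ι) :
    (-(E0 * J)) i j = -∑ k, E0 i k * J k j := by
  rw [Matrix.neg_apply, Matrix.mul_apply]

/-- The derivative of an entry of `Q = -(E0 * J)`. -/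
theorem fder (U : Set ℂ) (Q J : ℂ → Matrix ι ι ℝ) (E0 : Matrix ι ι ℝ) (hU : IsOpen U)
    (hJ : ∀ i j, ContDiffOn ℝ 2 (fun z => J z i j) U) (hQ : ∀ z ∈ U, Q z = -(E0 * J z))
    (z : ℂ) (hz : z ∈ U) (i j : ι) (v : ℂ) :
    fderiv ℝ (fun w => Q w i j) z v = -∑ k, E0 i k * fderiv ℝ (fun w => J w k j) z v := by
  have hn : U ∈ nhds z := hU.mem_nhds hz
  have hd : ∀ k, HasFDerivAt (fun w => J w k j) (fderiv ℝ (fun w => J w k j) z) z := by
    intro k
    exact (((hJ k j).contDiffAt hn).differentiableAt (by norm_num)).hasFDerivAt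
  have he : (fun w => Q w i j) =ᶠ[nhds z] fun w => -∑ k, E0 i k * J w k j := by
    filter_upwards [hn] with w hw
    rw [hQ w hw]
    exact entry E0 (J w) i j
  have h1 : HasFDerivAt (fun w => -∑ k, E0 i k * J w k j)
      (-∑ k, E0 i k • fderiv ℝ (fun w => J w k j) z) z :=
    (HasFDerivAt.fun_sum fun k _ => (hd k).const_mul (E0 i k)).fun_neg
  rw [he.fderiv_eq, h1.fderiv]
  simp

end FPGQ

/-- B2. -/
theorem stmtGQ : StmtGQ := by
  intro ι _ _ U Q J E0 hU hJ hJJ hJy hQ hpd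
  have hx : ∀ z ∈ U, mX Q z = -(E0 * mX J z) := by
    intro z hz
    ext i j
    rw [FPGQ.entry]
    exact FPGQ.fder U Q J E0 hU hJ hQ z hz i j 1
  have hy : ∀ z ∈ U, mY Q z = -(E0 * mY J z) := by
    intro z hz
    ext i j
    rw [FPGQ.entry]
    exact FPGQ.fder U Q J E0 hU hJ hQ z hz i j Complex.I
  refine ⟨hU, ?_, hJ, hpd, ?_, ?_⟩
  · intro i j
    have h1 : ContDiffOn ℝ 2 (fun z => -∑ k, E0 i k * J z k j) U :=
      (ContDiffOn.sum fun k _ => contDiffOn_const.mul (hJ k j)).neg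
    refine h1.congr ?_
    intro z hz
    rw [hQ z hz]
    exact FPGQ.entry E0 (J z) i j
  · intro z hz
    rw [hx z hz, hJy z hz, hQ z hz, Matrix.neg_mul, Matrix.mul_assoc, ← Matrix.mul_assoc (J z),
      hJJ z hz, Matrix.neg_mul, Matrix.one_mul, Matrix.mul_neg, neg_neg]
  · intro z hz
    rw [hy z hz, hJy z hz, hQ z hz, Matrix.neg_mul, Matrix.mul_assoc]

end Pool.Agent.A640.Tate
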