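import Pool.Agent.Lib.MP_640417_ag.TATE.FP.Spec

/-!
# PROJECT TATE, package FP: U3, the gradient bound
-/

set_option autoImplicit false

open Metric Set Complex

noncomputable section

namespace Pool.Agent.A640.Tate

namespace FPGb

/-- The bound for one vector. -/
theorem abs_le_of {κ : Type} [Fintype κ] (A B : Matrix κ κ ℝ) (μ : ℝ)
    (hp : (μ • A + B).PosSemidef) (hm : (μ • A - B).PosSemidef) (v : κ → ℝ) :
    |dotProduct v (Matrix.mulVec B v)| ≤ μ * dotProduct v (Matrix.mulVec A v) := by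
  have h1 := hp.dotProduct_mulVec_nonneg v
  have h2 := hm.dotProduct_mulVec_nonneg v
  rw [star_trivial, Matrix.add_mulVec, Matrix.smul_mulVec, dotProduct_add, dotProduct_smul,
    smul_eq_mul] at h1
  rw [star_trivial, Matrix.sub_mulVec, Matrix.smul_mulVec, dotProduct_sub, dotProduct_smul,
    smul_eq_mul] at h2
  rw [abs_le]
  constructor <;> linarith

theorem sum_le {κ : Type} [Fintype κ] (A B : Matrix κ κ ℝ) (μ : ℝ)
    (hp : (μ • A + B).PosSemidef) (hm : (μ • A - B).PosSemidef) (m : ℕ) (c : Fin m → κ → ℝ) :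
    |∑ j, dotProduct (c j) (Matrix.mulVec B (c j))|
      ≤ μ * ∑ j, dotProduct (c j) (Matrix.mulVec A (c j)) := by
  refine (Finset.abs_sum_le_sum_abs _ _).trans ?_
  rw [Finset.mul_sum]
  exact Finset.sum_le_sum fun j _ => abs_le_of A B μ hp hm (c j)

theorem quot_le {S h μ : ℝ} (hμ : 0 ≤ μ) (hh : 0 ≤ h) (hS : |S| ≤ μ * h) : |S / (1 + h)| ≤ μ := by
  have h1 : 0 < 1 + h := by linarith
  rw [abs_div, abs_of_pos h1, div_le_iff₀ h1]
  nlinarith

end FPGb

/-- U3. The gradient bound. -/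
theorem stmtGb (hHx : StmtHx) : StmtGb := by
  intro κ _ _ U Q J m c h z hz μ hb
  obtain ⟨_, h2⟩ := hHx κ U Q J m c h
  obtain ⟨h0, hx, hy⟩ := h2 z hz
  constructor
  · rw [hx]
    apply FPGb.quot_le hb.nn h0
    rw [abs_neg]
    exact FPGb.sum_le (Q z) (Q z * mY J z) μ hb.xp hb.xm m c
  · rw [hy]
    apply FPGb.quot_le hb.nn h0
    exact FPGb.sum_le (Q z) (Q z * mX J z) μ hb.yp hb.ym m c

end Pool.Agent.A640.Tate
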