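import Pool.Agent.Lib.MP_640417_ag.TATE.FP.Spec

/-!
# TATE FP/Gr: the gradient at the centre of a disc
-/

set_option autoImplicit false

open Metric Set Topology

noncomputable section

namespace Pool.Agent.A640.Tate

theorem stmtGr (hDisc : StmtDisc) (hSc : StmtSc) (hBase : StmtBase) (hPw : StmtPw)
    (hUf : StmtUf) (hGb : StmtGb) : StmtGr := by
  intro V _ _ _ d ι _ _ b L E O w0 r hr hF
  have hr2 : 0 < r / 2 := by linarith
  obtain ⟨τ, hτ⟩ := hDisc V d L E O w0 r (r / 2) hF hr2 (by linarith)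
  have hsub : ball w0 (r / 2) ⊆ ball w0 r := ball_subset_ball (by linarith)
  have hHB := hSc V d ι b (ball w0 r) L E O w0 (r / 2) τ hF hsub hτ
  have hHV := hBase V d ι b (ball w0 r) L E O w0 (r / 2) τ hF hsub hτ
  have hw0 : w0 ∈ ball w0 (r / 2) := mem_ball_self hr2
  obtain ⟨hPV, hPB⟩ := hPw ι d (ball w0 (r / 2)) (Gm b E τ) (Jm b τ) hHV
  have hPB' := hPB w0 hw0 (2 / (r / 2)) hHB
  obtain ⟨m, c, hc, -⟩ := hUf V d ι b L E O w0 (r / 2) τ (hF.fin w0 (mem_ball_self hr)) hτ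
  have hG := hGb (Fin d → ι) (ball w0 (r / 2)) (fun z => Qd d (Gm b E τ z))
    (fun z => Jd d (Jm b τ z)) m c hPV w0 hw0 (d * (2 / (r / 2))) hPB'
  have heq : uu b E O =ᶠ[𝓝 w0]
      fun z => Real.log (1 + hh (fun z => Qd d (Gm b E τ z)) c z) := by
    filter_upwards [ball_mem_nhds w0 hr2] with z hz
    exact hc z hz
  have hfd := heq.fderiv_eq (𝕜 := ℝ)
  have hμ : (d : ℝ) * (2 / (r / 2)) = 4 * d / r := by
    field_simp
    ring
  rw [hμ] at hG
  unfold px py at hG ⊢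
  rw [hfd]
  exact hG

end Pool.Agent.A640.Tate
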