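import Pool.Agent.Lib.MP_640417_ag.TATE.FP.Spec

/-!
# TATE FP/Hn: the Hodge norm in flat coordinates
-/

set_option autoImplicit false

open Metric Set Complex

noncomputable section

namespace Pool.Agent.A640.Tate

namespace FPHn

lemma Qd_mul {ι : Type} [Fintype ι] [DecidableEq ι] (d : ℕ) (A B : Matrix ι ι ℝ) :
    Qd d (A * B) = Qd d A * Qd d B := by
  ext K K'
  simp only [Qd, Matrix.of_apply, Matrix.mul_apply]
  rw [Finset.prod_univ_sum, Fintype.piFinset_univ]
  refine Finset.sum_congr rfl fun N _ => ?_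
  rw [Finset.prod_mul_distrib]

lemma Qd_tr {ι : Type} [Fintype ι] (d : ℕ) (A : Matrix ι ι ℝ) :
    Qd d A.transpose = (Qd d A).transpose := by
  ext K K'
  simp only [Qd, Matrix.of_apply, Matrix.transpose_apply]

lemma quad {κ : Type} [Fintype κ] (T P : Matrix κ κ ℝ) (x : κ → ℝ) :
    dotProduct x (Matrix.mulVec (T.transpose * P * T) x) =
      ∑ K, ∑ K', (∑ L, T K L * x L) * (∑ L, T K' L * x L) * P K K' := by
  have h1 : dotProduct x (Matrix.mulVec (T.transpose * P * T) x) =
      dotProduct (Matrix.mulVec T x) (Matrix.mulVec P (Matrix.mulVec T x)) := by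
    rw [← Matrix.mulVec_mulVec, ← Matrix.mulVec_mulVec, Matrix.dotProduct_mulVec,
      Matrix.vecMul_transpose]
  rw [h1]
  simp only [dotProduct, Matrix.mulVec, Finset.mul_sum]
  refine Finset.sum_congr rfl fun K _ => Finset.sum_congr rfl fun K' _ => ?_
  simp only [Finset.sum_mul, Finset.mul_sum]
  refine Finset.sum_congr rfl fun L _ => ?_
  refine Finset.sum_congr rfl fun L' _ => ?_
  ring

variable {V : Type} [NormedAddCommGroup V] [NormedSpace ℂ V]

lemma Gm_eq {ι : Type} [Fintype ι] [DecidableEq ι] (b : Module.Basis ι ℝ V)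
    (E : ℂ → V →ₗ[ℝ] V →ₗ[ℝ] ℝ) (τ : ℂ → (V ≃ₗ[ℝ] V)) (z : ℂ) :
    Gm b E τ z = (Matrix.of fun k l => b.coord k (τ z (b l))).transpose *
      (Matrix.of fun k l => E z (Complex.I • b k) (b l)) *
      (Matrix.of fun k l => b.coord k (τ z (b l))) := by
  ext k l
  have h1 : ∀ k, τ z (b k) = ∑ m, b.coord m (τ z (b k)) • b m := by
    intro k
    simp only [Module.Basis.coord_apply]
    exact (b.sum_repr (τ z (b k))).symm
  have h2 : Complex.I • τ z (b k) = ∑ m, b.coord m (τ z (b k)) • (Complex.I • b m) := by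
    conv_lhs => rw [h1 k]
    rw [Finset.smul_sum]
    refine Finset.sum_congr rfl fun m _ => ?_
    rw [smul_comm]
  have h3 : Gm b E τ z k l = E z (Complex.I • τ z (b k)) (τ z (b l)) := rfl
  rw [h3, h2]
  conv_lhs => rw [h1 l]
  simp only [Matrix.mul_apply, Matrix.transpose_apply, Matrix.of_apply, map_sum, map_smul,
    LinearMap.sum_apply, LinearMap.smul_apply, smul_eq_mul]
  refine Finset.sum_congr rfl fun n _ => ?_
  rw [Finset.sum_mul, Finset.mul_sum]
  refine Finset.sum_congr rfl fun m _ => ?_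
  ring

end FPHn

open FPHn in
theorem stmtHn (hCo : StmtCo) : StmtHn := by
  intro V _ _ d ι _ _ b E τ z c
  set t : Matrix ι ι ℝ := Matrix.of fun k l => b.coord k (τ z (b l)) with ht
  set e : Matrix ι ι ℝ := Matrix.of fun k l => E z (Complex.I • b k) (b l) with he
  have hG : Qd d (Gm b E τ z) = (Qd d t).transpose * Qd d e * Qd d t := by
    rw [Gm_eq b E τ z, Qd_mul, Qd_mul, Qd_tr]
  have hc : ∀ K, co b (psh (τ z).toLinearMap c) K = ∑ L, ((Qd d t K L : ℝ) : ℂ) * co b c L := by
    intro K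
    rw [hCo V d ι b (τ z).toLinearMap c K]
    rfl
  have hre : ∀ K, (co b (psh (τ z).toLinearMap c) K).re = ∑ L, Qd d t K L * cc b c 0 L := by
    intro K
    rw [hc K, Complex.re_sum]
    refine Finset.sum_congr rfl fun L _ => ?_
    simp [cc]
  have him : ∀ K, (co b (psh (τ z).toLinearMap c) K).im = ∑ L, Qd d t K L * cc b c 1 L := by
    intro K
    rw [hc K, Complex.im_sum]
    refine Finset.sum_congr rfl fun L _ => ?_
    simp [cc]
  have hR : hh (fun z => Qd d (Gm b E τ z)) (cc b c) z =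
      ∑ j : Fin 2, dotProduct (cc b c j) (Matrix.mulVec (Qd d (Gm b E τ z)) (cc b c j)) := rfl
  rw [hR, Fin.sum_univ_two, hG, quad, quad, ← Finset.sum_add_distrib]
  unfold hn
  refine Finset.sum_congr rfl fun K _ => ?_
  rw [← Finset.sum_add_distrib]
  refine Finset.sum_congr rfl fun K' _ => ?_
  rw [hre K, hre K', him K, him K', ← add_mul]
  rfl

end Pool.Agent.A640.Tate
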