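import Pool.Agent.Lib.MP_640417_ag.TATE.FP.Spec

/-!
# PROJECT TATE, FP: first derivatives of `log (1 + h)` (`StmtHx`)
-/

set_option autoImplicit false

open Metric Set Complex

noncomputable section

namespace Pool.Agent.A640.Tate

namespace FPHx

variable {κ : Type} [Fintype κ] {m : ℕ}

theorem hh_eq (Q : ℂ → Matrix κ κ ℝ) (c : Fin m → κ → ℝ) :
    hh Q c = fun w => ∑ j, ∑ k, c j k * ∑ l, Q w k l * c j l := by
  funext w
  simp only [hh, dotProduct, Matrix.mulVec]

theorem hasFD {Q : ℂ → Matrix κ κ ℝ} {z : ℂ} (c : Fin m → κ → ℝ)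
    (hd : ∀ k l, DifferentiableAt ℝ (fun w => Q w k l) z) :
    HasFDerivAt (hh Q c)
      (∑ j, ∑ k, c j k • ∑ l, c j l • fderiv ℝ (fun w => Q w k l) z) z := by
  rw [hh_eq]
  refine HasFDerivAt.fun_sum fun j _ => HasFDerivAt.fun_sum fun k _ => ?_
  refine HasFDerivAt.const_mul ?_ (c j k)
  refine HasFDerivAt.fun_sum fun l _ => ?_
  exact (hd k l).hasFDerivAt.mul_const (c j l)

theorem fd_val {Q : ℂ → Matrix κ κ ℝ} {z : ℂ} (c : Fin m → κ → ℝ)
    (hd : ∀ k l, DifferentiableAt ℝ (fun w => Q w k l) z) (h0 : 0 ≤ hh Q c z) (v : ℂ) :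
    fderiv ℝ (fun z => Real.log (1 + hh Q c z)) z v =
      (∑ j, dotProduct (c j) (Matrix.mulVec
        (Matrix.of fun k l => fderiv ℝ (fun w => Q w k l) z v) (c j))) / (1 + hh Q c z) := by
  have h1 : HasFDerivAt (fun z => 1 + hh Q c z)
      (∑ j, ∑ k, c j k • ∑ l, c j l • fderiv ℝ (fun w => Q w k l) z) z :=
    (hasFD c hd).const_add 1
  have h2 : (1 + hh Q c z) ≠ 0 := by positivity
  rw [(h1.log h2).fderiv]
  simp only [dotProduct, Matrix.mulVec, Matrix.of_apply, ContinuousLinearMap.smul_apply,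
    ContinuousLinearMap.sum_apply, smul_eq_mul]
  rw [div_eq_inv_mul]
  congr 1
  refine Finset.sum_congr rfl fun j _ => Finset.sum_congr rfl fun k _ => ?_
  congr 1
  exact Finset.sum_congr rfl fun l _ => mul_comm _ _

theorem hh_nonneg [DecidableEq κ] {Q : ℂ → Matrix κ κ ℝ} {z : ℂ} (c : Fin m → κ → ℝ)
    (hQ : (Q z).PosDef) : 0 ≤ hh Q c z := by
  refine Finset.sum_nonneg fun j _ => ?_
  have h := hQ.posSemidef.dotProduct_mulVec_nonneg (c j)
  rwa [star_trivial] at h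

end FPHx

open FPHx in
/-- U1. -/
theorem stmtHx : StmtHx := by
  intro κ _ _ U Q J m c hV
  have hd : ∀ z ∈ U, ∀ k l, DifferentiableAt ℝ (fun w => Q w k l) z := fun z hz k l =>
    ((hV.cQ k l).differentiableOn (by norm_num)).differentiableAt (hV.op.mem_nhds hz)
  have h0 : ∀ z ∈ U, 0 ≤ hh Q c z := fun z hz => hh_nonneg c (hV.pd z hz)
  have hC : ContDiffOn ℝ 2 (hh Q c) U := by
    rw [hh_eq]
    refine ContDiffOn.sum fun j _ => ContDiffOn.sum fun k _ => ?_
    refine contDiffOn_const.mul (ContDiffOn.sum fun l _ => ?_)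
    exact (hV.cQ k l).mul contDiffOn_const
  refine ⟨?_, fun z hz => ⟨h0 z hz, ?_, ?_⟩⟩
  · refine (contDiffOn_const.add hC).log fun z hz => ?_
    have := h0 z hz
    positivity
  · have h1 : (Matrix.of fun k l => fderiv ℝ (fun w => Q w k l) z 1) = -(Q z * mY J z) :=
      hV.qx z hz
    rw [px, fd_val c (hd z hz) (h0 z hz) 1, h1]
    simp only [Matrix.neg_mulVec, dotProduct_neg, Finset.sum_neg_distrib]
  · have h1 : (Matrix.of fun k l => fderiv ℝ (fun w => Q w k l) z Complex.I) = Q z * mX J z :=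
      hV.qy z hz
    rw [py, fd_val c (hd z hz) (h0 z hz) Complex.I, h1]

end Pool.Agent.A640.Tate
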