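import Pool.Agent.Lib.MP_640417_ag.TATE.FP.Spec

set_option autoImplicit false

open MeasureTheory

namespace Pool.Agent.A640.Tate

/-- A3. The integral of a directional derivative of a function with compact support is `0`. -/
theorem stmtIp : StmtIp := by
  intro f v hf hs
  have hd : Continuous fun z => fderiv ℝ f z v :=
    (hf.continuous_fderiv one_ne_zero).clm_apply continuous_const
  have hds : HasCompactSupport fun z => fderiv ℝ f z v := hs.fderiv_apply ℝ v
  have h := integral_mul_fderiv_eq_neg_fderiv_mul_of_integrable (μ := (volume : Measure ℂ))
    (f := f) (g := fun _ => (1 : ℝ)) (v := v)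
    (by simpa using hd.integrable_of_hasCompactSupport hds)
    (by simp)
    (by simpa using hf.continuous.integrable_of_hasCompactSupport hs)
    (fun x _ => (hf.differentiable one_ne_zero).differentiableAt)
    (fun x _ => differentiableAt_const _)
  have e : ∀ x : ℂ, f x * fderiv ℝ (fun _ : ℂ => (1 : ℝ)) x v = 0 := by
    intro x
    have : fderiv ℝ (fun _ : ℂ => (1 : ℝ)) x = 0 := by simp
    rw [this]
    simp
  simp only [e, integral_zero, mul_one] at h
  linarith

end Pool.Agent.A640.Tate
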