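import Pool.Agent.Lib.MP_640417_ag.TATE.FP.Kr

/-!
# PROJECT TATE, package FP: K2, the bound for Kronecker products
-/

set_option autoImplicit false

open Metric Set Complex

noncomputable section

namespace Pool.Agent.A640.Tate

open scoped Kronecker

theorem FPKb0.psd {κ κ' : Type} [Fintype κ] [Fintype κ'] {Q A : Matrix κ κ ℝ}
    {Q' A' : Matrix κ' κ' ℝ} {μ μ' : ℝ} (hQ : Q.PosSemidef) (hQ' : Q'.PosSemidef)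
    (h : (μ • Q + A).PosSemidef) (h' : (μ' • Q' + A').PosSemidef) :
    ((μ + μ') • (Q ⊗ₖ Q') + (A ⊗ₖ Q' + Q ⊗ₖ A')).PosSemidef := by
  have e : (μ + μ') • (Q ⊗ₖ Q') + (A ⊗ₖ Q' + Q ⊗ₖ A') =
      (μ • Q + A) ⊗ₖ Q' + Q ⊗ₖ (μ' • Q' + A') := by
    ext ⟨i, i'⟩ ⟨j, j'⟩
    simp only [Matrix.add_apply, Matrix.smul_apply, Matrix.kronecker_apply, smul_eq_mul]
    ring
  rw [e]
  exact (h.kronecker hQ').add (hQ.kronecker h')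

/-- K2. -/
theorem stmtKb0 : StmtKb := by
  intro κ κ' _ _ _ _ U Q J Q' J' h h' z hz μ μ' hB hB'
  have hJ : ∀ i j, DifferentiableAt ℝ (fun w => J w i j) z :=
    fun i j => FPKr.dif h.op (h.cJ i j) hz
  have hJ' : ∀ i j, DifferentiableAt ℝ (fun w => J' w i j) z :=
    fun i j => FPKr.dif h'.op (h'.cJ i j) hz
  have ex : (Q z ⊗ₖ Q' z) * mX (fun z => J z ⊗ₖ 1 + 1 ⊗ₖ J' z) z =
      (Q z * mX J z) ⊗ₖ Q' z + Q z ⊗ₖ (Q' z * mX J' z) := by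
    rw [FPKr.mX_eq, FPKr.md_sum 1 z J J' hJ hJ', Matrix.mul_add, ← Matrix.mul_kronecker_mul,
      ← Matrix.mul_kronecker_mul, Matrix.mul_one, Matrix.mul_one]
    rfl
  have ey : (Q z ⊗ₖ Q' z) * mY (fun z => J z ⊗ₖ 1 + 1 ⊗ₖ J' z) z =
      (Q z * mY J z) ⊗ₖ Q' z + Q z ⊗ₖ (Q' z * mY J' z) := by
    rw [FPKr.mY_eq, FPKr.md_sum Complex.I z J J' hJ hJ', Matrix.mul_add,
      ← Matrix.mul_kronecker_mul, ← Matrix.mul_kronecker_mul, Matrix.mul_one, Matrix.mul_one]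
    rfl
  have hn : ∀ (A : Matrix κ κ ℝ) (A' : Matrix κ' κ' ℝ),
      (μ + μ') • (Q z ⊗ₖ Q' z) - (A ⊗ₖ Q' z + Q z ⊗ₖ A') =
        (μ + μ') • (Q z ⊗ₖ Q' z) + ((-A) ⊗ₖ Q' z + Q z ⊗ₖ (-A')) := by
    intro A A'
    ext ⟨i, i'⟩ ⟨j, j'⟩
    simp only [Matrix.add_apply, Matrix.sub_apply, Matrix.neg_apply, Matrix.kronecker_apply]
    ring
  refine ⟨add_nonneg hB.nn hB'.nn, hB.ps.kronecker hB'.ps, ?_, ?_, ?_, ?_⟩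
  · change ((μ + μ') • (Q z ⊗ₖ Q' z) +
      (Q z ⊗ₖ Q' z) * mY (fun z => J z ⊗ₖ 1 + 1 ⊗ₖ J' z) z).PosSemidef
    rw [ey]
    exact FPKb0.psd hB.ps hB'.ps hB.xp hB'.xp
  · change ((μ + μ') • (Q z ⊗ₖ Q' z) -
      (Q z ⊗ₖ Q' z) * mY (fun z => J z ⊗ₖ 1 + 1 ⊗ₖ J' z) z).PosSemidef
    rw [ey, hn]
    refine FPKb0.psd hB.ps hB'.ps ?_ ?_
    · rw [← sub_eq_add_neg]
      exact hB.xm
    · rw [← sub_eq_add_neg]
      exact hB'.xm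
  · change ((μ + μ') • (Q z ⊗ₖ Q' z) +
      (Q z ⊗ₖ Q' z) * mX (fun z => J z ⊗ₖ 1 + 1 ⊗ₖ J' z) z).PosSemidef
    rw [ex]
    exact FPKb0.psd hB.ps hB'.ps hB.yp hB'.yp
  · change ((μ + μ') • (Q z ⊗ₖ Q' z) -
      (Q z ⊗ₖ Q' z) * mX (fun z => J z ⊗ₖ 1 + 1 ⊗ₖ J' z) z).PosSemidef
    rw [ex, hn]
    refine FPKb0.psd hB.ps hB'.ps ?_ ?_
    · rw [← sub_eq_add_neg]
      exact hB.ym
    · rw [← sub_eq_add_neg]
      exact hB'.ym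

end Pool.Agent.A640.Tate
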