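import Pool.Agent.Lib.MP_640417_ag.TATE.FP.Spec

/-!
# PROJECT TATE, package FP: K1, Kronecker products
-/

set_option autoImplicit false

open Metric Set Complex

noncomputable section

namespace Pool.Agent.A640.Tate

open scoped Kronecker

namespace FPKr

/-- Derivative in the direction `v`, entry by entry. -/
def md {κ : Type} (v : ℂ) (f : ℂ → Matrix κ κ ℝ) (z : ℂ) : Matrix κ κ ℝ :=
  Matrix.of fun i j => fderiv ℝ (fun w => f w i j) z v

theorem mX_eq {κ : Type} (f : ℂ → Matrix κ κ ℝ) (z : ℂ) : mX f z = md 1 f z := rfl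

theorem mY_eq {κ : Type} (f : ℂ → Matrix κ κ ℝ) (z : ℂ) : mY f z = md Complex.I f z := rfl

theorem md_kron {κ κ' : Type} (v z : ℂ) (Q : ℂ → Matrix κ κ ℝ) (Q' : ℂ → Matrix κ' κ' ℝ)
    (h : ∀ i j, DifferentiableAt ℝ (fun w => Q w i j) z)
    (h' : ∀ i j, DifferentiableAt ℝ (fun w => Q' w i j) z) :
    md v (fun w => Q w ⊗ₖ Q' w) z = md v Q z ⊗ₖ Q' z + Q z ⊗ₖ md v Q' z := by
  ext ⟨i, i'⟩ ⟨j, j'⟩
  rw [Matrix.add_apply, Matrix.kronecker_apply, Matrix.kronecker_apply]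
  change fderiv ℝ (fun w => Q w i j * Q' w i' j') z v
    = fderiv ℝ (fun w => Q w i j) z v * Q' z i' j' + Q z i j * fderiv ℝ (fun w => Q' w i' j') z v
  rw [fderiv_fun_mul (h i j) (h' i' j')]
  simp only [ContinuousLinearMap.add_apply, ContinuousLinearMap.smul_apply, smul_eq_mul]
  ring

theorem md_sum {κ κ' : Type} [DecidableEq κ] [DecidableEq κ'] (v z : ℂ) (J : ℂ → Matrix κ κ ℝ)
    (J' : ℂ → Matrix κ' κ' ℝ)
    (h : ∀ i j, DifferentiableAt ℝ (fun w => J w i j) z)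
    (h' : ∀ i j, DifferentiableAt ℝ (fun w => J' w i j) z) :
    md v (fun w => J w ⊗ₖ (1 : Matrix κ' κ' ℝ) + (1 : Matrix κ κ ℝ) ⊗ₖ J' w) z
      = md v J z ⊗ₖ (1 : Matrix κ' κ' ℝ) + (1 : Matrix κ κ ℝ) ⊗ₖ md v J' z := by
  ext ⟨i, i'⟩ ⟨j, j'⟩
  rw [Matrix.add_apply, Matrix.kronecker_apply, Matrix.kronecker_apply]
  change fderiv ℝ (fun w => J w i j * (1 : Matrix κ' κ' ℝ) i' j'
      + (1 : Matrix κ κ ℝ) i j * J' w i' j') z v
    = fderiv ℝ (fun w => J w i j) z v * (1 : Matrix κ' κ' ℝ) i' j'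
      + (1 : Matrix κ κ ℝ) i j * fderiv ℝ (fun w => J' w i' j') z v
  rw [fderiv_fun_add ((h i j).mul_const _) ((h' i' j').const_mul _),
    fderiv_mul_const (h i j), fderiv_const_mul (h' i' j')]
  simp only [ContinuousLinearMap.add_apply, ContinuousLinearMap.smul_apply, smul_eq_mul]
  ring

theorem dif {U : Set ℂ} (hU : IsOpen U) {f : ℂ → ℝ} (hf : ContDiffOn ℝ 2 f U) {z : ℂ}
    (hz : z ∈ U) : DifferentiableAt ℝ f z :=
  (hf.contDiffAt (hU.mem_nhds hz)).differentiableAt (by norm_num)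

end FPKr

/-- K1. Kronecker products. -/
theorem stmtKr : StmtKr := by
  intro κ κ' _ _ _ _ U Q J Q' J' h h'
  have hQ : ∀ z ∈ U, ∀ i j, DifferentiableAt ℝ (fun w => Q w i j) z :=
    fun z hz i j => FPKr.dif h.op (h.cQ i j) hz
  have hJ : ∀ z ∈ U, ∀ i j, DifferentiableAt ℝ (fun w => J w i j) z :=
    fun z hz i j => FPKr.dif h.op (h.cJ i j) hz
  have hQ' : ∀ z ∈ U, ∀ i j, DifferentiableAt ℝ (fun w => Q' w i j) z :=
    fun z hz i j => FPKr.dif h'.op (h'.cQ i j) hz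
  have hJ' : ∀ z ∈ U, ∀ i j, DifferentiableAt ℝ (fun w => J' w i j) z :=
    fun z hz i j => FPKr.dif h'.op (h'.cJ i j) hz
  refine ⟨h.op, ?_, ?_, ?_, ?_, ?_⟩
  · rintro ⟨i, i'⟩ ⟨j, j'⟩
    exact (h.cQ i j).mul (h'.cQ i' j')
  · rintro ⟨i, i'⟩ ⟨j, j'⟩
    exact ((h.cJ i j).mul contDiffOn_const).add (contDiffOn_const.mul (h'.cJ i' j'))
  · intro z hz
    exact (h.pd z hz).kronecker (h'.pd z hz)
  · intro z hz
    rw [FPKr.mX_eq, FPKr.mY_eq, FPKr.md_kron 1 z Q Q' (hQ z hz) (hQ' z hz),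
      FPKr.md_sum Complex.I z J J' (hJ z hz) (hJ' z hz)]
    have e1 := h.qx z hz
    have e2 := h'.qx z hz
    rw [FPKr.mX_eq, FPKr.mY_eq] at e1 e2
    rw [e1, e2, Matrix.mul_add, ← Matrix.mul_kronecker_mul, ← Matrix.mul_kronecker_mul,
      Matrix.mul_one, Matrix.mul_one]
    ext ⟨i, i'⟩ ⟨j, j'⟩
    simp only [Matrix.add_apply, Matrix.neg_apply, Matrix.kronecker_apply]
    ring
  · intro z hz
    rw [FPKr.mX_eq, FPKr.mY_eq, FPKr.md_kron Complex.I z Q Q' (hQ z hz) (hQ' z hz),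
      FPKr.md_sum 1 z J J' (hJ z hz) (hJ' z hz)]
    have e1 := h.qy z hz
    have e2 := h'.qy z hz
    rw [FPKr.mX_eq, FPKr.mY_eq] at e1 e2
    rw [e1, e2, Matrix.mul_add, ← Matrix.mul_kronecker_mul, ← Matrix.mul_kronecker_mul,
      Matrix.mul_one, Matrix.mul_one]

end Pool.Agent.A640.Tate
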