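import Pool.Agent.Lib.MP_640417_ag.TATE.FP.Spec

/-!
# PROJECT TATE, package FP: U2, the Laplacian of `log (1 + h)`
-/

set_option autoImplicit false

open Metric Set Complex

noncomputable section

namespace Pool.Agent.A640.Tate

namespace FPLap

open Matrix

/-- Derivative in the direction `v`, entry by entry. -/
def md {κ : Type} (v : ℂ) (f : ℂ → Matrix κ κ ℝ) (z : ℂ) : Matrix κ κ ℝ :=
  Matrix.of fun i j => fderiv ℝ (fun w => f w i j) z v

theorem mX_eq {κ : Type} (f : ℂ → Matrix κ κ ℝ) (z : ℂ) : mX f z = md 1 f z := rfl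

theorem mY_eq {κ : Type} (f : ℂ → Matrix κ κ ℝ) (z : ℂ) : mY f z = md Complex.I f z := rfl

theorem bil {κ : Type} [Fintype κ] (P R : ℂ → Matrix κ κ ℝ) (z : ℂ)
    (hP : ∀ i j, DifferentiableAt ℝ (fun w => P w i j) z)
    (hR : ∀ i j, DifferentiableAt ℝ (fun w => R w i j) z) (a b : κ → ℝ) :
    DifferentiableAt ℝ (fun w => a ⬝ᵥ (P w * R w) *ᵥ b) z ∧ ∀ v,
      fderiv ℝ (fun w => a ⬝ᵥ (P w * R w) *ᵥ b) z v = a ⬝ᵥ (P z * md v R z + md v P z * R z) *ᵥ b := by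
  have e : (fun w => a ⬝ᵥ (P w * R w) *ᵥ b) =
      fun w => ∑ i, ∑ k, ∑ l, (a i * b k) * (P w i l * R w l k) := by
    funext w
    simp only [dotProduct, mulVec, Matrix.mul_apply, Finset.mul_sum, Finset.sum_mul]
    refine Finset.sum_congr rfl fun i _ => Finset.sum_congr rfl fun k _ =>
      Finset.sum_congr rfl fun l _ => ?_
    ring
  have hd : HasFDerivAt (fun w => ∑ i, ∑ k, ∑ l, (a i * b k) * (P w i l * R w l k))
      (∑ i, ∑ k, ∑ l, (a i * b k) • (P z i l • fderiv ℝ (fun w => R w l k) z +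
        R z l k • fderiv ℝ (fun w => P w i l) z)) z :=
    HasFDerivAt.fun_sum fun i _ => HasFDerivAt.fun_sum fun k _ => HasFDerivAt.fun_sum fun l _ =>
      (((hP i l).hasFDerivAt.mul (hR l k).hasFDerivAt).const_mul (a i * b k))
  rw [e]
  refine ⟨hd.differentiableAt, fun v => ?_⟩
  rw [hd.fderiv]
  simp only [ContinuousLinearMap.sum_apply, ContinuousLinearMap.smul_apply,
    ContinuousLinearMap.add_apply, smul_eq_mul, dotProduct, mulVec, Matrix.add_apply,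
    Matrix.mul_apply, md, Matrix.of_apply, Finset.mul_sum, Finset.sum_mul, add_mul, mul_add,
    Finset.sum_add_distrib]
  congr 1
  · refine Finset.sum_congr rfl fun i _ => Finset.sum_congr rfl fun k _ =>
      Finset.sum_congr rfl fun l _ => ?_
    ring
  · refine Finset.sum_congr rfl fun i _ => Finset.sum_congr rfl fun k _ =>
      Finset.sum_congr rfl fun l _ => ?_
    ring

theorem bilsum {κ : Type} [Fintype κ] (P R : ℂ → Matrix κ κ ℝ) (z : ℂ)
    (hP : ∀ i j, DifferentiableAt ℝ (fun w => P w i j) z)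
    (hR : ∀ i j, DifferentiableAt ℝ (fun w => R w i j) z) {m : ℕ} (c : Fin m → κ → ℝ) :
    DifferentiableAt ℝ (fun w => ∑ j, c j ⬝ᵥ (P w * R w) *ᵥ c j) z ∧ ∀ v,
      fderiv ℝ (fun w => ∑ j, c j ⬝ᵥ (P w * R w) *ᵥ c j) z v =
        ∑ j, c j ⬝ᵥ (P z * md v R z + md v P z * R z) *ᵥ c j := by
  have hd : HasFDerivAt (fun w => ∑ j, c j ⬝ᵥ (P w * R w) *ᵥ c j)
      (∑ j, fderiv ℝ (fun w => c j ⬝ᵥ (P w * R w) *ᵥ c j) z) z :=
    HasFDerivAt.fun_sum fun j _ => (bil P R z hP hR (c j) (c j)).1.hasFDerivAt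
  refine ⟨hd.differentiableAt, fun v => ?_⟩
  rw [hd.fderiv, ContinuousLinearMap.sum_apply]
  exact Finset.sum_congr rfl fun j _ => (bil P R z hP hR (c j) (c j)).2 v

theorem dif {U : Set ℂ} (hU : IsOpen U) {f : ℂ → ℝ} (hf : ContDiffOn ℝ 2 f U) {z : ℂ}
    (hz : z ∈ U) : DifferentiableAt ℝ f z :=
  (hf.contDiffAt (hU.mem_nhds hz)).differentiableAt (by norm_num)

theorem dif2 {U : Set ℂ} (hU : IsOpen U) {f : ℂ → ℝ} (hf : ContDiffOn ℝ 2 f U) {z : ℂ}
    (hz : z ∈ U) : DifferentiableAt ℝ (fderiv ℝ f) z :=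
  ((hf.fderiv_of_isOpen hU (m := 1) (by norm_num)).contDiffAt (hU.mem_nhds hz)).differentiableAt
    (by norm_num)

theorem dif3 {U : Set ℂ} (hU : IsOpen U) {f : ℂ → ℝ} (hf : ContDiffOn ℝ 2 f U) {z : ℂ}
    (hz : z ∈ U) (a : ℂ) : DifferentiableAt ℝ (fun w => fderiv ℝ f w a) z ∧
      ∀ v, fderiv ℝ (fun w => fderiv ℝ f w a) z v = fderiv ℝ (fderiv ℝ f) z v a := by
  have h := (dif2 hU hf hz).hasFDerivAt.clm_apply (hasFDerivAt_const a z)
  refine ⟨h.differentiableAt, fun v => ?_⟩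
  rw [h.fderiv]
  simp

theorem symm2 {U : Set ℂ} (hU : IsOpen U) {f : ℂ → ℝ} (hf : ContDiffOn ℝ 2 f U) {z : ℂ}
    (hz : z ∈ U) (a v : ℂ) : fderiv ℝ (fun w => fderiv ℝ f w a) z v =
      fderiv ℝ (fun w => fderiv ℝ f w v) z a := by
  rw [(dif3 hU hf hz a).2, (dif3 hU hf hz v).2]
  have h : IsSymmSndFDerivAt ℝ f z :=
    (hf.contDiffAt (hU.mem_nhds hz)).isSymmSndFDerivAt (by simp)
  exact h v a

/-- The derivative of a symmetric matrix is symmetric. -/
theorem md_symm {κ : Type} {U : Set ℂ} (hU : IsOpen U) (Q : ℂ → Matrix κ κ ℝ)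
    (hs : ∀ w ∈ U, ∀ i j, Q w i j = Q w j i) {z : ℂ} (hz : z ∈ U) (v : ℂ) (i j : κ) :
    md v Q z i j = md v Q z j i := by
  have h : (fun w => Q w i j) =ᶠ[nhds z] fun w => Q w j i := by
    filter_upwards [hU.mem_nhds hz] with w hw using hs w hw i j
  change fderiv ℝ (fun w => Q w i j) z v = fderiv ℝ (fun w => Q w j i) z v
  rw [h.fderiv_eq]

/-- `c^T (Q X) X c = |X c|²` if `Q X` is symmetric. -/
theorem sq_eq {κ : Type} [Fintype κ] (Q X : Matrix κ κ ℝ) (hs : ∀ i j, (Q * X) i j = (Q * X) j i)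
    (c : κ → ℝ) : c ⬝ᵥ (Q * X * X) *ᵥ c = (X *ᵥ c) ⬝ᵥ Q *ᵥ (X *ᵥ c) := by
  have hT : (Q * X)ᵀ = Q * X := by
    ext i j
    exact hs j i
  have h1 : c ⬝ᵥ (Q * X * X) *ᵥ c = c ⬝ᵥ (Q * X) *ᵥ (X *ᵥ c) := by
    rw [mulVec_mulVec]
  have h2 : c ⬝ᵥ (Q * X) *ᵥ (X *ᵥ c) = ((Q * X) *ᵥ c) ⬝ᵥ (X *ᵥ c) := by
    rw [dotProduct_mulVec, ← mulVec_transpose, hT]
  rw [h1, h2, ← mulVec_mulVec, dotProduct_comm]

/-- Cauchy-Schwarz. -/
theorem cs {κ : Type} [Fintype κ] (Q : Matrix κ κ ℝ) (hQ : Q.PosSemidef) {m : ℕ}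
    (c d : Fin m → κ → ℝ) :
    (∑ j, c j ⬝ᵥ Q *ᵥ d j) ^ 2 ≤ (∑ j, c j ⬝ᵥ Q *ᵥ c j) * ∑ j, d j ⬝ᵥ Q *ᵥ d j := by
  have hT : Qᵀ = Q := by
    have h := hQ.1
    rw [Matrix.IsHermitian, Matrix.conjTranspose_eq_transpose_of_trivial] at h
    exact h
  have hsym : ∀ x y : κ → ℝ, x ⬝ᵥ Q *ᵥ y = y ⬝ᵥ Q *ᵥ x := by
    intro x y
    rw [dotProduct_mulVec, ← mulVec_transpose, hT, dotProduct_comm]
  have hq : ∀ t : ℝ, 0 ≤ (∑ j, d j ⬝ᵥ Q *ᵥ d j) * (t * t) + (2 * ∑ j, c j ⬝ᵥ Q *ᵥ d j) * t +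
      ∑ j, c j ⬝ᵥ Q *ᵥ c j := by
    intro t
    have h1 : 0 ≤ ∑ j, (c j + t • d j) ⬝ᵥ Q *ᵥ (c j + t • d j) := by
      refine Finset.sum_nonneg fun j _ => ?_
      have := hQ.dotProduct_mulVec_nonneg (c j + t • d j)
      rwa [star_trivial] at this
    have h2 : ∀ j, (c j + t • d j) ⬝ᵥ Q *ᵥ (c j + t • d j) = (d j ⬝ᵥ Q *ᵥ d j) * (t * t) +
        (2 * (c j ⬝ᵥ Q *ᵥ d j)) * t + c j ⬝ᵥ Q *ᵥ c j := by
      intro j
      rw [mulVec_add, mulVec_smul, add_dotProduct, dotProduct_add, dotProduct_add, smul_dotProduct,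
        smul_dotProduct, dotProduct_smul, dotProduct_smul, hsym (d j) (c j)]
      simp only [smul_eq_mul]
      ring
    rw [Finset.sum_congr rfl fun j _ => h2 j] at h1
    rw [Finset.sum_add_distrib, Finset.sum_add_distrib, ← Finset.sum_mul, ← Finset.sum_mul,
      ← Finset.mul_sum] at h1
    exact h1
  have h3 := discrim_le_zero hq
  rw [discrim] at h3
  nlinarith [h3]

end FPLap

open FPLap Matrix in
/-- U2. The Laplacian of `log (1 + h)`. -/
theorem stmtLap (hHx : StmtHx) : StmtLap := by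
  intro κ _ _ U Q J m c h z hz
  obtain ⟨hu2, hu⟩ := hHx κ U Q J m c h
  set u : ℂ → ℝ := fun z => Real.log (1 + hh Q c z) with hudef
  have hU := h.op
  have hdQ : ∀ i j, DifferentiableAt ℝ (fun w => Q w i j) z := fun i j => dif hU (h.cQ i j) hz
  have hdY : ∀ i j, DifferentiableAt ℝ (fun w => mY J w i j) z := fun i j =>
    (dif3 hU (h.cJ i j) hz Complex.I).1
  have hdX : ∀ i j, DifferentiableAt ℝ (fun w => mX J w i j) z := fun i j =>
    (dif3 hU (h.cJ i j) hz 1).1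
  set FY : ℂ → ℝ := fun w => ∑ j, c j ⬝ᵥ (Q w * mY J w) *ᵥ c j with hFY
  set FX : ℂ → ℝ := fun w => ∑ j, c j ⬝ᵥ (Q w * mX J w) *ᵥ c j with hFX
  have hexp : ∀ w ∈ U, Real.exp (-u w) = 1 / (1 + hh Q c w) := by
    intro w hw
    have h0 := (hu w hw).1
    rw [hudef]
    simp only
    rw [Real.exp_neg, Real.exp_log (by linarith), one_div]
  have hpx : ∀ w ∈ U, px u w = -FY w * Real.exp (-u w) := by
    intro w hw
    rw [hexp w hw, (hu w hw).2.1]
    ring
  have hpy : ∀ w ∈ U, py u w = FX w * Real.exp (-u w) := by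
    intro w hw
    rw [hexp w hw, (hu w hw).2.2]
    ring
  have hdu : DifferentiableAt ℝ u z := dif hU hu2 hz
  have hdE : HasFDerivAt (fun w => Real.exp (-u w)) (Real.exp (-u z) • (-fderiv ℝ u z)) z :=
    hdu.hasFDerivAt.fun_neg.exp
  obtain ⟨hY1, hY2⟩ := bilsum Q (fun w => mY J w) z hdQ hdY c
  obtain ⟨hX1, hX2⟩ := bilsum Q (fun w => mX J w) z hdQ hdX c
  have e1 : px (px u) z = -(fderiv ℝ FY z 1) * Real.exp (-u z) -
      (FY z * Real.exp (-u z)) ^ 2 := by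
    have h1 : (px u) =ᶠ[nhds z] fun w => -FY w * Real.exp (-u w) := by
      filter_upwards [hU.mem_nhds hz] with w hw using hpx w hw
    have h2 : HasFDerivAt (fun w => -FY w * Real.exp (-u w)) _ z := hY1.hasFDerivAt.fun_neg.mul hdE
    rw [px, h1.fderiv_eq, h2.fderiv]
    have h3 : fderiv ℝ u z 1 = -FY z * Real.exp (-u z) := hpx z hz
    simp only [ContinuousLinearMap.add_apply, ContinuousLinearMap.smul_apply, smul_eq_mul,
      ContinuousLinearMap.neg_apply, h3]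
    ring
  have e2 : py (py u) z = (fderiv ℝ FX z Complex.I) * Real.exp (-u z) -
      (FX z * Real.exp (-u z)) ^ 2 := by
    have h1 : (py u) =ᶠ[nhds z] fun w => FX w * Real.exp (-u w) := by
      filter_upwards [hU.mem_nhds hz] with w hw using hpy w hw
    have h2 : HasFDerivAt (fun w => FX w * Real.exp (-u w)) _ z := hX1.hasFDerivAt.mul hdE
    rw [py, h1.fderiv_eq, h2.fderiv]
    have h3 : fderiv ℝ u z Complex.I = FX z * Real.exp (-u z) := hpy z hz
    simp only [ContinuousLinearMap.add_apply, ContinuousLinearMap.smul_apply, smul_eq_mul,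
      ContinuousLinearMap.neg_apply, h3]
    ring
  -- the second derivatives of `J`
  have hW : md 1 (fun w => mY J w) z = md Complex.I (fun w => mX J w) z := by
    ext i j
    exact symm2 hU (h.cJ i j) hz Complex.I 1
  have hQx : md 1 Q z = -(Q z * mY J z) := h.qx z hz
  have hQy : md Complex.I Q z = Q z * mX J z := h.qy z hz
  have hQs : ∀ w ∈ U, ∀ i j, Q w i j = Q w j i := by
    intro w hw i j
    have hH := (h.pd w hw).isHermitian
    have := hH.apply i j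
    rw [star_trivial] at this
    exact this.symm
  have hsY : ∀ i j, (Q z * mY J z) i j = (Q z * mY J z) j i := by
    intro i j
    have h1 := md_symm hU Q hQs hz 1 i j
    rw [hQx] at h1
    simpa using h1
  have hsX : ∀ i j, (Q z * mX J z) i j = (Q z * mX J z) j i := by
    intro i j
    have h1 := md_symm hU Q hQs hz Complex.I i j
    rw [hQy] at h1
    exact h1
  set SY : ℝ := ∑ j, (mY J z *ᵥ c j) ⬝ᵥ Q z *ᵥ (mY J z *ᵥ c j) with hSY
  set SX : ℝ := ∑ j, (mX J z *ᵥ c j) ⬝ᵥ Q z *ᵥ (mX J z *ᵥ c j) with hSX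
  have d1 : fderiv ℝ FY z 1 = (∑ j, c j ⬝ᵥ (Q z * md 1 (fun w => mY J w) z) *ᵥ c j) - SY := by
    rw [hY2 1, hQx, hSY, ← Finset.sum_sub_distrib]
    refine Finset.sum_congr rfl fun j _ => ?_
    rw [← sq_eq (Q z) (mY J z) hsY (c j), add_mulVec, dotProduct_add, Matrix.neg_mul, neg_mulVec,
      dotProduct_neg, sub_eq_add_neg]
  have d2 : fderiv ℝ FX z Complex.I =
      (∑ j, c j ⬝ᵥ (Q z * md 1 (fun w => mY J w) z) *ᵥ c j) + SX := by
    rw [hX2 Complex.I, hQy, hSX, ← Finset.sum_add_distrib, hW]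
    refine Finset.sum_congr rfl fun j _ => ?_
    rw [← sq_eq (Q z) (mX J z) hsX (c j), add_mulVec, dotProduct_add]
  have hps : (Q z).PosSemidef := (h.pd z hz).posSemidef
  have hnn : ∀ x : κ → ℝ, 0 ≤ x ⬝ᵥ Q z *ᵥ x := by
    intro x
    have := hps.dotProduct_mulVec_nonneg x
    rwa [star_trivial] at this
  have cY : (FY z) ^ 2 ≤ hh Q c z * SY := by
    have := cs (Q z) hps c (fun j => mY J z *ᵥ c j)
    simp only [mulVec_mulVec] at this ⊢
    simpa only [hFY, hh, hSY, mulVec_mulVec] using this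
  have cX : (FX z) ^ 2 ≤ hh Q c z * SX := by
    have := cs (Q z) hps c (fun j => mX J z *ᵥ c j)
    simpa only [hFX, hh, hSX, mulVec_mulVec] using this
  have hSY0 : 0 ≤ SY := Finset.sum_nonneg fun j _ => hnn _
  have hSX0 : 0 ≤ SX := Finset.sum_nonneg fun j _ => hnn _
  have hh0 : 0 ≤ hh Q c z := (hu z hz).1
  have hE := hexp z hz
  set ee : ℝ := Real.exp (-u z) with hee
  have hEp : 0 < ee := Real.exp_pos _
  have hE1 : ee * (1 + hh Q c z) = 1 := by
    rw [hE]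
    field_simp
  have key : ee ^ 2 * (SX + SY) ≤ px (px u) z + py (py u) z := by
    rw [e1, e2, d1, d2]
    have h5 : ee * (SX + SY) = ee ^ 2 * (SX + SY) + ee ^ 2 * (hh Q c z * SX + hh Q c z * SY) := by
      have : ee * (SX + SY) = ee * (SX + SY) * (ee * (1 + hh Q c z)) := by rw [hE1, mul_one]
      rw [this]
      ring
    have h6 : ee ^ 2 * ((FY z) ^ 2 + (FX z) ^ 2) ≤ ee ^ 2 * (hh Q c z * SX + hh Q c z * SY) :=
      mul_le_mul_of_nonneg_left (by linarith) (by positivity)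
    nlinarith [h5, h6]
  refine ⟨le_trans (mul_nonneg (by positivity) (by linarith)) key, fun h0 j => ?_⟩
  rw [h0] at key
  have hE2 : 0 < ee ^ 2 := by positivity
  have hS : SX + SY ≤ 0 := by
    by_contra hc
    rw [not_le] at hc
    have := mul_pos hE2 hc
    linarith
  have hz0 : ∀ x : κ → ℝ, x ⬝ᵥ Q z *ᵥ x = 0 → x = 0 := by
    intro x hx
    by_contra hne
    have := (h.pd z hz).dotProduct_mulVec_pos hne
    rw [star_trivial] at this
    linarith
  have hSX' : SX = 0 := by linarith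
  have hSY' : SY = 0 := by linarith
  constructor
  · apply hz0
    exact (Finset.sum_eq_zero_iff_of_nonneg (fun j _ => hnn _)).1 hSX' j (Finset.mem_univ j)
  · apply hz0
    exact (Finset.sum_eq_zero_iff_of_nonneg (fun j _ => hnn _)).1 hSY' j (Finset.mem_univ j)

end Pool.Agent.A640.Tate
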