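import Pool.Agent.Lib.MP_640417_ag.TATE.FP.Spec

/-!
# PROJECT TATE, package FP: the boundary terms tend to `0`
-/

set_option autoImplicit false

open Metric Set Complex MeasureTheory

noncomputable section

namespace Pool.Agent.A640.Tate

namespace FPLb

/-- The ring of the points `z ≠ s` with `a ≤ log |z - s| ≤ a'`. -/
def rg (s : ℂ) (a a' : ℝ) : Set ℂ :=
  {z : ℂ | a ≤ Real.log ‖z - s‖ ∧ Real.log ‖z - s‖ ≤ a' ∧ z ≠ s}

theorem rg_meas (s : ℂ) (a a' : ℝ) : MeasurableSet (rg s a a') := by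
  have h : Measurable fun z : ℂ => Real.log ‖z - s‖ :=
    Real.measurable_log.comp (measurable_norm.comp (measurable_id.sub_const s))
  exact (measurableSet_le measurable_const h).inter ((measurableSet_le h measurable_const).inter
    (measurableSet_singleton s).compl)

/-- The bound for one ring. -/
def bd (s : ℂ) (a a' D : ℝ) (z : ℂ) : ENNReal :=
  (rg s a a').indicator (fun z => ENNReal.ofReal D * ENNReal.ofReal (1 / ‖z - s‖ ^ 2)) z

theorem bd_meas (s : ℂ) (a a' D : ℝ) : Measurable (bd s a a' D) := by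
  have h : Measurable fun z : ℂ => ENNReal.ofReal (1 / ‖z - s‖ ^ 2) :=
    ENNReal.measurable_ofReal.comp
      (((measurable_norm.comp (measurable_id.sub_const s)).pow_const 2).const_div 1)
  exact (h.const_mul _).indicator (rg_meas s a a')

theorem bd_int (hRi : StmtRi) (s : ℂ) (a a' D : ℝ) (h : a ≤ a') (hD : 0 ≤ D) :
    ∫⁻ z, bd s a a' D z = ENNReal.ofReal (D * (2 * Real.pi * (a' - a))) := by
  have h1 : Measurable fun z : ℂ => ENNReal.ofReal (1 / ‖z - s‖ ^ 2) :=
    ENNReal.measurable_ofReal.comp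
      (((measurable_norm.comp (measurable_id.sub_const s)).pow_const 2).const_div 1)
  unfold bd
  rw [lintegral_indicator (rg_meas s a a'), lintegral_const_mul _ h1]
  have h2 := hRi s a a' h
  change ∫⁻ z in rg s a a', ENNReal.ofReal (1 / ‖z - s‖ ^ 2) = _ at h2
  rw [h2, ← ENNReal.ofReal_mul hD]

theorem tb {K n q P C m : ℝ} (hK : 0 ≤ K) (hn : 0 < n) (hq : 0 < q) (hm : n / 2 ≤ m)
    (hP : P ≤ C / (q * m)) : K / n * (1 / q) * P ≤ 2 * K * |C| / n ^ 2 * (1 / q ^ 2) := by
  have hm0 : 0 < m := by linarith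
  have h1 : P ≤ |C| / (q * (n / 2)) := by
    calc P ≤ C / (q * m) := hP
      _ ≤ |C| / (q * m) := div_le_div_of_nonneg_right (le_abs_self C) (by positivity)
      _ ≤ |C| / (q * (n / 2)) :=
        div_le_div_of_nonneg_left (abs_nonneg C) (by positivity)
          (mul_le_mul_of_nonneg_left hm hq.le)
  calc K / n * (1 / q) * P ≤ K / n * (1 / q) * (|C| / (q * (n / 2))) :=
        mul_le_mul_of_nonneg_left h1 (by positivity)
    _ = 2 * K * |C| / n ^ 2 * (1 / q ^ 2) := by
        field_simp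

end FPLb

open FPLb

theorem stmtLb (hRi : StmtRi) (hChi : StmtChi) : StmtLb := by
  classical
  intro F p _ hF hinf v hv
  obtain ⟨-, -, K, hK, hKb⟩ := hChi F
  choose! Cs ρs hρ using hF
  obtain ⟨C, R, hR, hCR⟩ := hinf
  refine ⟨2 * K * |C| * (2 * Real.pi) + ∑ s ∈ F, 2 * K * |Cs s| * (2 * Real.pi),
    ⌈∑ s ∈ F, 2 * |Real.log (ρs s)| + 2 * |Real.log R|⌉₊ + 1, ?_⟩
  intro n hn
  have hn1 : 0 < n := lt_of_lt_of_le (Nat.succ_pos _) hn
  have hnR : (0 : ℝ) < n := by exact_mod_cast hn1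
  have hS : ∑ s ∈ F, 2 * |Real.log (ρs s)| + 2 * |Real.log R| < n := by
    have h1 := Nat.le_ceil (∑ s ∈ F, 2 * |Real.log (ρs s)| + 2 * |Real.log R|)
    have h2 : ((⌈∑ s ∈ F, 2 * |Real.log (ρs s)| + 2 * |Real.log R|⌉₊ + 1 : ℕ) : ℝ) ≤ n := by
      exact_mod_cast hn
    push_cast at h2
    linarith
  have hsum0 : 0 ≤ ∑ s ∈ F, 2 * |Real.log (ρs s)| :=
    Finset.sum_nonneg fun s _ => by positivity
  have hS1 : ∀ s ∈ F, 2 * |Real.log (ρs s)| < n := by
    intro s hs
    have h1 : 2 * |Real.log (ρs s)| ≤ ∑ s ∈ F, 2 * |Real.log (ρs s)| :=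
      Finset.single_le_sum (f := fun s => 2 * |Real.log (ρs s)|) (fun s _ => by positivity) hs
    have h2 : 0 ≤ 2 * |Real.log R| := by positivity
    linarith
  have hS2 : 2 * |Real.log R| < n := by linarith
  -- the pointwise bound
  have hpt : ∀ z ∉ F, ENNReal.ofReal ‖fderiv ℝ (chi F n) z v * p z‖ ≤
      bd 0 n (2 * n) (2 * K * |C| / n ^ 2) z +
        ∑ s ∈ F, bd s (-(2 * n)) (-n) (2 * K * |Cs s| / n ^ 2) z := by
    intro z hz
    have h1 := hKb n hn1 z hz v hv
    -- the term at infinity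
    have hI : ENNReal.ofReal (K / n * (if (n : ℝ) ≤ Real.log ‖z‖ ∧ Real.log ‖z‖ ≤ 2 * n then
        1 / ‖z‖ else 0) * |p z|) ≤ bd 0 n (2 * n) (2 * K * |C| / n ^ 2) z := by
      split_ifs with hc
      · have hz0 : z ≠ 0 := by
          rintro rfl
          rw [norm_zero, Real.log_zero] at hc
          linarith [hc.1]
        have hz1 : 0 < ‖z‖ := norm_pos_iff.mpr hz0
        have hlog : Real.log R < Real.log ‖z‖ := by
          have := le_abs_self (Real.log R)
          have := abs_nonneg (Real.log R)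
          linarith [hc.1]
        have hRz : R < ‖z‖ := (Real.log_lt_log_iff hR hz1).mp hlog
        have hm : (n : ℝ) / 2 ≤ Real.log ‖z‖ - Real.log R := by
          have := le_abs_self (Real.log R)
          linarith [hc.1]
        have h2 := tb hK hnR hz1 hm (hCR z hRz)
        have hmem : z ∈ rg 0 n (2 * n) := by
          refine ⟨?_, ?_, hz0⟩
          · rw [sub_zero]; exact hc.1
          · rw [sub_zero]; exact hc.2
        unfold bd
        rw [Set.indicator_of_mem hmem, ← ENNReal.ofReal_mul (by positivity), sub_zero]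
        exact ENNReal.ofReal_le_ofReal h2
      · rw [mul_zero, zero_mul, ENNReal.ofReal_zero]
        exact zero_le
    -- the term at s
    have hT : ∀ s ∈ F, ENNReal.ofReal (K / n * (if (n : ℝ) ≤ -Real.log ‖z - s‖ ∧
        -Real.log ‖z - s‖ ≤ 2 * n then 1 / ‖z - s‖ else 0) * |p z|) ≤
        bd s (-(2 * n)) (-n) (2 * K * |Cs s| / n ^ 2) z := by
      intro s hs
      have hzs : z ≠ s := fun h => hz (h ▸ hs)
      split_ifs with hc
      · have hz1 : 0 < ‖z - s‖ := norm_pos_iff.mpr (sub_ne_zero.mpr hzs)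
        have h3 := hS1 s hs
        have h4 := neg_abs_le (Real.log (ρs s))
        have h5 := abs_nonneg (Real.log (ρs s))
        have hlog : Real.log ‖z - s‖ < Real.log (ρs s) := by
          linarith [hc.1]
        have hRz : ‖z - s‖ < ρs s := (Real.log_lt_log_iff hz1 (hρ s hs).1).mp hlog
        have hm : (n : ℝ) / 2 ≤ Real.log (ρs s) - Real.log ‖z - s‖ := by
          linarith [hc.1]
        have h2 := tb hK hnR hz1 hm ((hρ s hs).2 z hz1 hRz)
        have hmem : z ∈ rg s (-(2 * n)) (-n) := by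
          refine ⟨?_, ?_, hzs⟩
          · linarith [hc.2]
          · linarith [hc.1]
        unfold bd
        rw [Set.indicator_of_mem hmem, ← ENNReal.ofReal_mul (by positivity)]
        exact ENNReal.ofReal_le_ofReal h2
      · rw [mul_zero, zero_mul, ENNReal.ofReal_zero]
        exact zero_le
    have hI0 : 0 ≤ K / n * (if (n : ℝ) ≤ Real.log ‖z‖ ∧ Real.log ‖z‖ ≤ 2 * n then
        1 / ‖z‖ else 0) * |p z| := by
      split_ifs <;> positivity
    have hT0 : ∀ s ∈ F, 0 ≤ K / n * (if (n : ℝ) ≤ -Real.log ‖z - s‖ ∧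
        -Real.log ‖z - s‖ ≤ 2 * n then 1 / ‖z - s‖ else 0) * |p z| := by
      intro s _
      split_ifs <;> positivity
    calc ENNReal.ofReal ‖fderiv ℝ (chi F n) z v * p z‖ ≤
        ENNReal.ofReal (K / n * (if (n : ℝ) ≤ Real.log ‖z‖ ∧ Real.log ‖z‖ ≤ 2 * n then
          1 / ‖z‖ else 0) * |p z| + ∑ s ∈ F, K / n * (if (n : ℝ) ≤ -Real.log ‖z - s‖ ∧
        -Real.log ‖z - s‖ ≤ 2 * n then 1 / ‖z - s‖ else 0) * |p z|) := by
          apply ENNReal.ofReal_le_ofReal
          rw [norm_mul, Real.norm_eq_abs, Real.norm_eq_abs]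
          refine (mul_le_mul_of_nonneg_right h1 (abs_nonneg (p z))).trans (le_of_eq ?_)
          rw [mul_add, add_mul, Finset.mul_sum, Finset.sum_mul]
      _ = ENNReal.ofReal (K / n * (if (n : ℝ) ≤ Real.log ‖z‖ ∧ Real.log ‖z‖ ≤ 2 * n then
          1 / ‖z‖ else 0) * |p z|) + ∑ s ∈ F, ENNReal.ofReal (K / n * (if (n : ℝ) ≤
          -Real.log ‖z - s‖ ∧ -Real.log ‖z - s‖ ≤ 2 * n then 1 / ‖z - s‖ else 0) * |p z|) := by
          rw [ENNReal.ofReal_add hI0 (Finset.sum_nonneg hT0), ENNReal.ofReal_sum_of_nonneg hT0]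
      _ ≤ _ := add_le_add hI (Finset.sum_le_sum hT)
  -- integration
  have hae : ∀ᵐ z : ℂ, z ∉ F := by
    have h : volume (F : Set ℂ) = 0 := F.finite_toSet.measure_zero _
    exact compl_mem_ae_iff.mpr h
  have hint : ∫⁻ z, ENNReal.ofReal ‖fderiv ℝ (chi F n) z v * p z‖ ≤
      ENNReal.ofReal ((2 * K * |C| * (2 * Real.pi) +
        ∑ s ∈ F, 2 * K * |Cs s| * (2 * Real.pi)) / n) := by
    have hpi := Real.pi_pos
    calc ∫⁻ z, ENNReal.ofReal ‖fderiv ℝ (chi F n) z v * p z‖ ≤
        ∫⁻ z, (bd 0 n (2 * n) (2 * K * |C| / n ^ 2) z +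
        ∑ s ∈ F, bd s (-(2 * n)) (-n) (2 * K * |Cs s| / n ^ 2) z) :=
          lintegral_mono_ae (hae.mono hpt)
      _ = ENNReal.ofReal (2 * K * |C| / n ^ 2 * (2 * Real.pi * (2 * n - n))) +
        ∑ s ∈ F, ENNReal.ofReal (2 * K * |Cs s| / n ^ 2 * (2 * Real.pi * (-n - -(2 * n)))) := by
          rw [lintegral_add_left (bd_meas _ _ _ _), lintegral_finsetSum _ fun s _ => bd_meas _ _ _ _,
            bd_int hRi _ _ _ _ (by linarith) (by positivity)]
          congr 1
          exact Finset.sum_congr rfl fun s _ => bd_int hRi _ _ _ _ (by linarith) (by positivity)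
      _ = ENNReal.ofReal ((2 * K * |C| * (2 * Real.pi) +
        ∑ s ∈ F, 2 * K * |Cs s| * (2 * Real.pi)) / n) := by
          have e1 : ∀ x : ℝ, x / n ^ 2 * (2 * Real.pi * (2 * n - n)) = x * (2 * Real.pi) / n := by
            intro x
            field_simp
            ring
          have e2 : ∀ x : ℝ, x / n ^ 2 * (2 * Real.pi * (-n - -(2 * n))) =
              x * (2 * Real.pi) / n := by
            intro x
            field_simp
            ring
          rw [add_div, Finset.sum_div, ENNReal.ofReal_add (by positivity)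
            (Finset.sum_nonneg fun s _ => by positivity),
            ENNReal.ofReal_sum_of_nonneg (fun s _ => by positivity), e1]
          congr 1
          exact Finset.sum_congr rfl fun s _ => by rw [e2]
  have hfin := norm_integral_le_lintegral_norm (μ := volume)
    (fun z => fderiv ℝ (chi F n) z v * p z)
  rw [Real.norm_eq_abs] at hfin
  refine hfin.trans ?_
  have hpi := Real.pi_pos
  refine ENNReal.toReal_le_of_le_ofReal ?_ hint
  refine div_nonneg (add_nonneg (by positivity) (Finset.sum_nonneg fun s _ => by positivity)) hnR.le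

end Pool.Agent.A640.Tate
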