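import Pool.Agent.Lib.MP_640417_ag.TATE.FP.Spec

/-!
# PROJECT TATE, package FP: A4, a Liouville theorem
-/

set_option autoImplicit false

open Metric Set Complex MeasureTheory

noncomputable section

namespace Pool.Agent.A640.Tate

namespace FPLi

/-- The complement of the punctures. -/
def UF (F : Finset ℂ) : Set ℂ := {z | z ∉ F}

theorem isOpen_UF (F : Finset ℂ) : IsOpen (UF F) := by
  have : UF F = (F : Set ℂ)ᶜ := by
    ext z
    simp [UF]
  rw [this]
  exact F.finite_toSet.isClosed.isOpen_compl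

theorem tsup_mul {f g : ℂ → ℝ} {U : Set ℂ} (h : tsupport f ⊆ U) :
    tsupport (fun z => f z * g z) ⊆ U :=
  tsupport_mul_subset_left.trans h

theorem cont_mul {f g : ℂ → ℝ} {U : Set ℂ} (hU : IsOpen U) (hf : Continuous f)
    (hg : ContinuousOn g U) (h : tsupport f ⊆ U) : Continuous fun z => f z * g z :=
  (hf.continuousOn.mul hg).continuous_of_tsupport_subset hU (tsup_mul h)

theorem cpt_mul {f g : ℂ → ℝ} (hf : HasCompactSupport f) :
    HasCompactSupport fun z => f z * g z := hf.mul_right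

theorem int_mul {f g : ℂ → ℝ} {U : Set ℂ} (hU : IsOpen U) (hf : Continuous f)
    (hfc : HasCompactSupport f) (hg : ContinuousOn g U) (h : tsupport f ⊆ U) :
    Integrable fun z => f z * g z :=
  (cont_mul hU hf hg h).integrable_of_hasCompactSupport (cpt_mul hfc)

/-- Integration by parts. -/
theorem parts (hIp : StmtIp) {χ p : ℂ → ℝ} {U : Set ℂ} (hU : IsOpen U) (hχ : ContDiff ℝ 1 χ)
    (hχc : HasCompactSupport χ) (hχU : tsupport χ ⊆ U) (hp : ContDiffOn ℝ 1 p U) (v : ℂ) :
    Integrable (fun z => χ z * fderiv ℝ p z v) ∧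
    ∫ z, χ z * fderiv ℝ p z v = -∫ z, fderiv ℝ χ z v * p z := by
  have hpd : ContinuousOn (fun z => fderiv ℝ p z v) U := by
    have h1 : ContinuousOn (fderiv ℝ p) U := hp.continuousOn_fderiv_of_isOpen hU le_rfl
    exact h1.clm_apply continuousOn_const
  have h1 : ContDiff ℝ 1 (fun z => χ z * p z) := by
    rw [contDiff_iff_contDiffAt]
    intro z
    by_cases hz : z ∈ tsupport χ
    · exact hχ.contDiffAt.mul (hp.contDiffAt (hU.mem_nhds (hχU hz)))
    · have h4 : χ =ᶠ[nhds z] fun _ => 0 := notMem_tsupport_iff_eventuallyEq.mp hz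
      have h5 : (fun z => χ z * p z) =ᶠ[nhds z] fun _ => (0 : ℝ) := by
        filter_upwards [h4] with w hw
        rw [hw, zero_mul]
      exact contDiffAt_const.congr_of_eventuallyEq h5
  have h2 := hIp (fun z => χ z * p z) v h1 (cpt_mul hχc)
  have h3 : ∀ z, fderiv ℝ (fun z => χ z * p z) z v
      = χ z * fderiv ℝ p z v + fderiv ℝ χ z v * p z := by
    intro z
    by_cases hz : z ∈ tsupport χ
    · have hzU : z ∈ U := hχU hz
      have hpz : DifferentiableAt ℝ p z :=
        (hp.contDiffAt (hU.mem_nhds hzU)).differentiableAt (by norm_num)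
      have hχz : DifferentiableAt ℝ χ z := hχ.contDiffAt.differentiableAt (by norm_num)
      rw [fderiv_fun_mul hχz hpz]
      simp only [ContinuousLinearMap.add_apply, ContinuousLinearMap.smul_apply, smul_eq_mul]
      ring
    · have h4 : χ =ᶠ[nhds z] fun _ => 0 := notMem_tsupport_iff_eventuallyEq.mp hz
      have h5 : (fun z => χ z * p z) =ᶠ[nhds z] fun _ => 0 := by
        filter_upwards [h4] with w hw
        rw [hw, zero_mul]
      rw [h5.fderiv_eq, h4.fderiv_eq, h4.self_of_nhds]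
      simp
  have hc1 : Continuous fun z => fderiv ℝ χ z v :=
    (hχ.continuous_fderiv (by norm_num)).clm_apply continuous_const
  have hc2 : HasCompactSupport fun z => fderiv ℝ χ z v := hχc.fderiv_apply (𝕜 := ℝ) v
  have hc3 : tsupport (fun z => fderiv ℝ χ z v) ⊆ U :=
    (tsupport_fderiv_apply_subset ℝ v).trans hχU
  have i1 : Integrable (fun z => χ z * fderiv ℝ p z v) :=
    int_mul hU hχ.continuous hχc hpd hχU
  have i2 : Integrable (fun z => fderiv ℝ χ z v * p z) :=
    int_mul hU hc1 hc2 hp.continuousOn hc3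
  refine ⟨i1, ?_⟩
  simp_rw [h3] at h2
  rw [integral_add i1 i2] at h2
  linarith

theorem px_cd {u : ℂ → ℝ} {U : Set ℂ} (hU : IsOpen U) (hu : ContDiffOn ℝ 2 u U) (v : ℂ) :
    ContDiffOn ℝ 1 (fun z => fderiv ℝ u z v) U := by
  have h1 : ContDiffOn ℝ 1 (fderiv ℝ u) U := hu.fderiv_of_isOpen hU (by norm_num)
  exact h1.clm_apply contDiffOn_const

end FPLi

/-- A4. The Liouville theorem. -/
theorem stmtLi (hChi : StmtChi) (hIp : StmtIp) (hLb : StmtLb) : StmtLi := by
  intro F u hu hsub hs hinf z0 hz0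
  have hU : IsOpen (FPLi.UF F) := FPLi.isOpen_UF F
  have hu' : ContDiffOn ℝ 2 u (FPLi.UF F) := hu
  have c1 : ContDiffOn ℝ 1 (px u) (FPLi.UF F) := FPLi.px_cd hU hu' 1
  have c2 : ContDiffOn ℝ 1 (py u) (FPLi.UF F) := FPLi.px_cd hU hu' Complex.I
  set q : ℂ → ℝ := fun z => px (px u) z + py (py u) z with hq
  obtain ⟨hC, hC1, -⟩ := hChi F
  obtain ⟨C1, N1, hN1⟩ := hLb F (px u) c1.continuousOn
    (fun s h => by
      obtain ⟨C, ρ, hρ, h1⟩ := hs s h
      exact ⟨C, ρ, hρ, fun z a b => (h1 z a b).1⟩)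
    (by
      obtain ⟨C, R, hR, h1⟩ := hinf
      exact ⟨C, R, hR, fun z a => (h1 z a).1⟩) 1 (by simp)
  obtain ⟨C2, N2, hN2⟩ := hLb F (py u) c2.continuousOn
    (fun s h => by
      obtain ⟨C, ρ, hρ, h1⟩ := hs s h
      exact ⟨C, ρ, hρ, fun z a b => (h1 z a b).2⟩)
    (by
      obtain ⟨C, R, hR, h1⟩ := hinf
      exact ⟨C, R, hR, fun z a => (h1 z a).2⟩) Complex.I (by simp)
  have hqc : ContinuousOn q (FPLi.UF F) := by
    have a1 : ContinuousOn (fun z => fderiv ℝ (px u) z 1) (FPLi.UF F) :=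
      (c1.continuousOn_fderiv_of_isOpen hU le_rfl).clm_apply continuousOn_const
    have a2 : ContinuousOn (fun z => fderiv ℝ (py u) z Complex.I) (FPLi.UF F) :=
      (c2.continuousOn_fderiv_of_isOpen hU le_rfl).clm_apply continuousOn_const
    exact a1.add a2
  have key : ∀ n : ℕ, 0 < n → N1 ≤ n → N2 ≤ n →
      Integrable (fun z => chi F n z * q z) ∧ ∫ z, chi F n z * q z ≤ (C1 + C2) / n := by
    intro n hn h1 h2
    obtain ⟨d1, d2, d3, -⟩ := hC n hn
    obtain ⟨i1, e1⟩ := FPLi.parts hIp hU d1 d2 d3 c1 1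
    obtain ⟨i2, e2⟩ := FPLi.parts hIp hU d1 d2 d3 c2 Complex.I
    have hsum : (fun z => chi F n z * q z)
        = fun z => chi F n z * fderiv ℝ (px u) z 1 + chi F n z * fderiv ℝ (py u) z Complex.I := by
      funext z
      rw [← mul_add]
      rfl
    refine ⟨by rw [hsum]; exact i1.add i2, ?_⟩
    rw [hsum, integral_add i1 i2, e1, e2]
    have a1 := (abs_le.mp (hN1 n h1)).1
    have a2 := (abs_le.mp (hN2 n h2)).1
    rw [add_div]
    linarith
  by_contra hne
  have hq0 : 0 < q z0 := lt_of_le_of_ne (hsub z0 hz0) (Ne.symm hne)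
  obtain ⟨ρ, hρ, N, hN⟩ := hC1 z0 hz0
  have hz0U : z0 ∈ FPLi.UF F := hz0
  have hev : ∀ᶠ z in nhds z0, z ∈ FPLi.UF F ∧ q z0 / 2 < q z := by
    have h1 : ContinuousAt q z0 := hqc.continuousAt (hU.mem_nhds hz0U)
    have h2 : ∀ᶠ z in nhds z0, q z0 / 2 < q z := h1.eventually (lt_mem_nhds (by linarith))
    exact Filter.Eventually.and (hU.mem_nhds hz0U) h2
  obtain ⟨ε, hε, hεb⟩ := Metric.eventually_nhds_iff_ball.mp hev
  set δ := min ρ ε with hδ
  have hδ0 : 0 < δ := lt_min hρ hε
  set c : ℝ := volume.real (ball z0 δ) * (q z0 / 2) with hc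
  have hvol : 0 < volume.real (ball z0 δ) :=
    ENNReal.toReal_pos (measure_ball_pos volume z0 hδ0).ne' measure_ball_lt_top.ne
  have hc0 : 0 < c := mul_pos hvol (by linarith)
  have hlow : ∀ n : ℕ, 0 < n → N1 ≤ n → N2 ≤ n → N ≤ n → c ≤ (C1 + C2) / n := by
    intro n hn h1 h2 h3
    obtain ⟨i, hi⟩ := key n hn h1 h2
    obtain ⟨-, -, d3, d4⟩ := hC n hn
    refine le_trans ?_ hi
    have hnn : 0 ≤ᵐ[volume] fun z => chi F n z * q z := by
      filter_upwards with z
      by_cases hz : z ∈ FPLi.UF F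
      · exact mul_nonneg (d4 z).1 (hsub z hz)
      · have : chi F n z = 0 := by
          by_contra h0
          exact hz (d3 (subset_tsupport _ h0))
        rw [this, zero_mul]
        exact le_refl _
    refine le_trans ?_ (setIntegral_le_integral (s := ball z0 δ) i hnn)
    have h4 : c = ∫ _ in ball z0 δ, q z0 / 2 := by
      rw [setIntegral_const, smul_eq_mul]
    rw [h4]
    apply setIntegral_mono_on _ i.integrableOn measurableSet_ball
    · intro z hz
      have hz1 : z ∈ ball z0 ρ := ball_subset_ball (min_le_left _ _) hz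
      have hz2 : z ∈ ball z0 ε := ball_subset_ball (min_le_right _ _) hz
      rw [hN n h3 z hz1, one_mul]
      exact (hεb z hz2).2.le
    · exact integrableOn_const measure_ball_lt_top.ne
  obtain ⟨k, hk⟩ := exists_nat_gt ((C1 + C2) / c)
  set n := k + N1 + N2 + N + 1 with hn
  have h5 := hlow n (by omega) (by omega) (by omega) (by omega)
  have hnpos : (0 : ℝ) < n := by
    have : 0 < n := by omega
    exact_mod_cast this
  rw [le_div_iff₀ hnpos] at h5
  rw [div_lt_iff₀ hc0] at hk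
  have h6 : (k : ℝ) ≤ n := by
    have : k ≤ n := by omega
    exact_mod_cast this
  nlinarith

end Pool.Agent.A640.Tate
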