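import Pool.Agent.Lib.MP_640417_ag.TATE.FP.Spec
import Pool.Agent.Lib.TATE.FP.Liou3

/-! # TATE/FP: `StmtLi` from the weak maximum principle (no cutoff functions) -/

set_option autoImplicit false

open Metric Set Filter Topology Bornology

noncomputable section

namespace Pool.Agent.A640.Tate.FPLi2

theorem fd_eq (u : ℂ → ℝ) (z e : ℂ) : fderiv ℝ u z e = e.re * px u z + e.im * py u z := by
  have h : e = e.re • (1 : ℂ) + e.im • Complex.I := by
    rw [Complex.real_smul, Complex.real_smul, mul_one, Complex.re_add_im]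
  conv_lhs => rw [h]
  rw [map_add, map_smul, map_smul, smul_eq_mul, smul_eq_mul]
  rfl

theorem lap_of {F : Finset ℂ} {u : ℂ → ℝ} (hu : ContDiffOn ℝ 2 u {z | z ∉ F}) {z : ℂ}
    (hz : z ∉ F) : TATE.FP.Lap u z (px (px u) z + py (py u) z) := by
  have hop : IsOpen {z : ℂ | z ∉ F} := F.finite_toSet.isClosed.isOpen_compl
  have hd : ∀ y ∉ F, DifferentiableAt ℝ u y := fun y hy =>
    (hu.differentiableOn two_ne_zero).differentiableAt (hop.mem_nhds hy)
  have hd2 : ∀ v : ℂ, DifferentiableAt ℝ (fun y => fderiv ℝ u y v) z := by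
    intro v
    have h1 : ContDiffOn ℝ 1 (fderiv ℝ u) {z | z ∉ F} :=
      hu.fderiv_of_isOpen hop (by norm_num)
    exact ((h1.differentiableOn one_ne_zero).differentiableAt (hop.mem_nhds hz)).clm_apply
      (differentiableAt_const v)
  have hline : ∀ (v : ℂ) (t : ℝ), HasDerivAt (fun t : ℝ => z + t * v) v t := by
    intro v t
    have := (Complex.ofRealCLM.hasDerivAt (x := t)).mul_const v
    simpa using this.const_add z
  have hev : ∀ v : ℂ, ∀ᶠ t : ℝ in 𝓝 0, z + t * v ∉ F := by
    intro v
    have hc : Continuous fun t : ℝ => z + (t : ℂ) * v := by fun_prop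
    have := hc.tendsto 0
    simp only [Complex.ofReal_zero, zero_mul, add_zero] at this
    exact this (hop.mem_nhds hz)
  have h1 : ∀ v : ℂ, ∀ᶠ t : ℝ in 𝓝 0,
      HasDerivAt (fun t : ℝ => u (z + t * v)) (fderiv ℝ u (z + t * v) v) t := by
    intro v
    filter_upwards [hev v] with t ht
    exact (hd _ ht).hasFDerivAt.comp_hasDerivAt t (hline v t)
  have h2 : ∀ v : ℂ, HasDerivAt (fun t : ℝ => fderiv ℝ u (z + t * v) v)
      (fderiv ℝ (fun y => fderiv ℝ u y v) z v) 0 := by
    intro v
    have h3 : HasFDerivAt (fun y => fderiv ℝ u y v) (fderiv ℝ (fun y => fderiv ℝ u y v) z)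
        (z + ((0 : ℝ) : ℂ) * v) := by
      simpa using (hd2 v).hasFDerivAt
    exact h3.comp_hasDerivAt (0 : ℝ) (hline v 0)
  refine ⟨fun t => fderiv ℝ u (z + t * 1) 1, fun t => fderiv ℝ u (z + t * Complex.I) Complex.I,
    px (px u) z, py (py u) z, ?_, h2 1, h1 Complex.I, h2 Complex.I, rfl⟩
  filter_upwards [h1 1] with t ht
  simpa using ht

/-- the difference of two values on a ray -/
theorem radial {u : ℂ → ℝ} {s e : ℂ} (he : ‖e‖ = 1) {a b : ℝ} (hab : a ≤ b)
    (hd : ∀ t ∈ Icc a b, DifferentiableAt ℝ u (s + t * e)) {G G' : ℝ → ℝ}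
    (hG : ∀ t ∈ Icc a b, HasDerivAt G (G' t) t)
    (hb : ∀ t ∈ Icc a b, |px u (s + t * e)| ≤ G' t / 2 ∧ |py u (s + t * e)| ≤ G' t / 2) :
    u (s + a * e) ≤ u (s + b * e) + (G b - G a) ∧ u (s + b * e) ≤ u (s + a * e) + (G b - G a) := by
  have hline : ∀ t : ℝ, HasDerivAt (fun t : ℝ => s + t * e) e t := by
    intro t
    have := (Complex.ofRealCLM.hasDerivAt (x := t)).mul_const e
    simpa using this.const_add s
  have hu : ∀ t ∈ Icc a b, HasDerivAt (fun t : ℝ => u (s + t * e)) (fderiv ℝ u (s + t * e) e) t :=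
    fun t ht => (hd t ht).hasFDerivAt.comp_hasDerivAt t (hline t)
  have hbd : ∀ t ∈ Icc a b, |fderiv ℝ u (s + t * e) e| ≤ G' t := by
    intro t ht
    rw [fd_eq]
    obtain ⟨h1, h2⟩ := hb t ht
    have h3 : |e.re| ≤ 1 := (Complex.abs_re_le_norm e).trans he.le
    have h4 : |e.im| ≤ 1 := (Complex.abs_im_le_norm e).trans he.le
    calc |e.re * px u (s + t * e) + e.im * py u (s + t * e)|
        ≤ |e.re * px u (s + t * e)| + |e.im * py u (s + t * e)| := abs_add_le _ _
      _ ≤ 1 * |px u (s + t * e)| + 1 * |py u (s + t * e)| := by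
          rw [abs_mul, abs_mul]
          gcongr
      _ ≤ G' t := by linarith
  constructor
  · have hm : MonotoneOn (fun t : ℝ => u (s + t * e) + G t) (Icc a b) := by
      refine monotoneOn_of_hasDerivWithinAt_nonneg (convex_Icc a b)
        (f' := fun t => fderiv ℝ u (s + t * e) e + G' t) ?_ ?_ ?_
      · intro t ht
        exact ((hu t ht).add (hG t ht)).continuousAt.continuousWithinAt
      · intro t ht
        have ht' := interior_subset ht
        exact ((hu t ht').add (hG t ht')).hasDerivWithinAt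
      · intro t ht
        have ht' := interior_subset ht
        have := neg_le_of_abs_le (hbd t ht')
        linarith
    have := hm (left_mem_Icc.mpr hab) (right_mem_Icc.mpr hab) hab
    simp only at this
    linarith
  · have hm : MonotoneOn (fun t : ℝ => -u (s + t * e) + G t) (Icc a b) := by
      refine monotoneOn_of_hasDerivWithinAt_nonneg (convex_Icc a b)
        (f' := fun t => -fderiv ℝ u (s + t * e) e + G' t) ?_ ?_ ?_
      · intro t ht
        exact ((hu t ht).neg.add (hG t ht)).continuousAt.continuousWithinAt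
      · intro t ht
        have ht' := interior_subset ht
        exact ((hu t ht').neg.add (hG t ht')).hasDerivWithinAt
      · intro t ht
        have ht' := interior_subset ht
        have := le_of_abs_le (hbd t ht')
        linarith
    have := hm (left_mem_Icc.mpr hab) (right_mem_Icc.mpr hab) hab
    simp only at this
    linarith

/-- `log (log)` is small -/
theorem loglog (K C c ε : ℝ) (hε : 0 < ε) :
    ∀ᶠ L in atTop, K + C * Real.log (c + L) ≤ ε * L := by
  have h1 : Tendsto (fun L : ℝ => c + L) atTop atTop := tendsto_atTop_add_const_left _ _ tendsto_id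
  have h2 : (fun L : ℝ => K + C * Real.log (c + L)) =o[atTop] fun L => L := by
    refine Asymptotics.IsLittleO.add ?_ ?_
    · exact Asymptotics.isLittleO_const_left.mpr (Or.inr (by
        simpa [Function.comp_def] using tendsto_abs_atTop_atTop))
    · refine Asymptotics.IsLittleO.const_mul_left ?_ C
      have h3 := Real.isLittleO_log_id_atTop.comp_tendsto h1
      refine h3.trans_isBigO ?_
      refine Asymptotics.IsBigO.of_bound 2 ?_
      filter_upwards [eventually_ge_atTop |c|, eventually_ge_atTop 0] with L hL hL0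
      simp only [Function.comp, id, Real.norm_eq_abs]
      calc |c + L| ≤ |c| + |L| := abs_add_le _ _
        _ ≤ 2 * |L| := by rw [abs_of_nonneg hL0]; linarith
  have h3 := h2.def hε
  filter_upwards [h3, eventually_ge_atTop 0] with L hL hL0
  rw [Real.norm_eq_abs, Real.norm_eq_abs, abs_of_nonneg hL0] at hL
  exact (le_abs_self _).trans hL

theorem circle_bound {F : Finset ℂ} {u : ℂ → ℝ} (hu : ContDiffOn ℝ 2 u {z | z ∉ F}) (s : ℂ) (r : ℝ)
    (h : ∀ z ∈ sphere s r, z ∉ F) : ∃ M, ∀ z ∈ sphere s r, u z ≤ M := by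
  have hc : ContinuousOn u (sphere s r) := hu.continuousOn.mono h
  obtain ⟨M, hM⟩ := (isCompact_sphere s r).exists_bound_of_continuousOn hc
  exact ⟨M, fun z hz => (le_abs_self _).trans (hM z hz)⟩

theorem log_normSq (z : ℂ) : Real.log (Complex.normSq z) = 2 * Real.log ‖z‖ := by
  rw [Complex.normSq_eq_norm_sq, Real.log_pow]
  norm_num

theorem grow_s {F : Finset ℂ} {u : ℂ → ℝ} (hu : ContDiffOn ℝ 2 u {z | z ∉ F}) {s : ℂ}
    {C ρ : ℝ} (hρ : 0 < ρ) (hb : ∀ z, 0 < ‖z - s‖ → ‖z - s‖ < ρ →
      |px u z| ≤ C / (‖z - s‖ * (Real.log ρ - Real.log ‖z - s‖)) ∧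
      |py u z| ≤ C / (‖z - s‖ * (Real.log ρ - Real.log ‖z - s‖))) {ε : ℝ} (hε : 0 < ε) :
    ∀ᶠ z in 𝓝[≠] s, u z ≤ -(ε * Real.log (Complex.normSq (z - s))) := by
  have hop : IsOpen {z : ℂ | z ∉ F} := F.finite_toSet.isClosed.isOpen_compl
  -- a radius
  have h1 : ∀ᶠ z in 𝓝 s, z ≠ s → z ∉ F := by
    have : ∀ᶠ z in 𝓝 s, z ∉ (F.erase s : Finset ℂ) :=
      (F.erase s).finite_toSet.isClosed.isOpen_compl.mem_nhds (by simp)
    filter_upwards [this] with z hz hzs hzF
    exact hz (Finset.mem_erase.mpr ⟨hzs, hzF⟩)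
  obtain ⟨δ, hδ, hball⟩ := Metric.eventually_nhds_iff.mp h1
  obtain ⟨r0, hr0, hr1, hr2⟩ : ∃ r0 : ℝ, 0 < r0 ∧ r0 < ρ ∧ r0 < δ := by
    refine ⟨min ρ δ / 2, by positivity, ?_, ?_⟩
    · have := min_le_left ρ δ
      linarith
    · have := min_le_right ρ δ
      linarith
  obtain ⟨M, hM⟩ := circle_bound hu s r0 (fun z hz => by
    have hz' : dist z s = r0 := hz
    refine hball (by rw [hz']; exact hr2) ?_
    rintro rfl
    rw [dist_self] at hz'
    linarith)
  -- the estimate
  have key : ∀ z, z ≠ s → ‖z - s‖ ≤ r0 → u z ≤ M - 2 * C * Real.log (Real.log ρ - Real.log r0) +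
      2 * C * Real.log (Real.log ρ + -Real.log ‖z - s‖) := by
    intro z hz hzr
    have hn : 0 < ‖z - s‖ := by simpa [sub_eq_zero] using hz
    set e : ℂ := (z - s) / ‖z - s‖ with he
    have hen : ‖e‖ = 1 := by
      rw [he, norm_div, Complex.norm_real, norm_norm, div_self hn.ne']
    have hze : s + (‖z - s‖ : ℝ) * e = z := by
      rw [he]
      have : ((‖z - s‖ : ℝ) : ℂ) ≠ 0 := by exact_mod_cast hn.ne'
      field_simp
      ring
    have hnt : ∀ t : ℝ, 0 < t → ‖s + t * e - s‖ = t := by
      intro t ht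
      rw [add_sub_cancel_left, norm_mul, hen, mul_one, Complex.norm_real, Real.norm_eq_abs,
        abs_of_pos ht]
    have hlog : ∀ t : ℝ, 0 < t → t ≤ r0 → 0 < Real.log ρ - Real.log t := by
      intro t ht htr
      have := Real.log_lt_log ht (lt_of_le_of_lt htr hr1)
      linarith
    have hr := (radial (u := u) (s := s) (e := e) hen hzr
      (G := fun t => -(2 * C) * Real.log (Real.log ρ - Real.log t))
      (G' := fun t => 2 * C / (t * (Real.log ρ - Real.log t))) ?_ ?_ ?_).1
    · rw [hze] at hr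
      have h5 : u (s + r0 * e) ≤ M := hM _ (by
        rw [mem_sphere, dist_eq_norm, hnt r0 hr0])
      have e1 : Real.log ρ + -Real.log ‖z - s‖ = Real.log ρ - Real.log ‖z - s‖ := by ring
      rw [e1]
      linarith
    · intro t ht
      have ht0 : 0 < t := lt_of_lt_of_le hn ht.1
      refine (hu.differentiableOn two_ne_zero).differentiableAt (hop.mem_nhds ?_)
      refine hball ?_ ?_
      · rw [dist_eq_norm, hnt t ht0]
        exact lt_of_le_of_lt ht.2 hr2
      · intro h
        have := hnt t ht0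
        rw [h, sub_self, norm_zero] at this
        linarith
    · intro t ht
      have ht0 : 0 < t := lt_of_lt_of_le hn ht.1
      have h6 := hlog t ht0 ht.2
      have h7 := (((Real.hasDerivAt_log ht0.ne').const_sub (Real.log ρ)).log h6.ne').const_mul
        (-(2 * C))
      refine h7.congr_deriv ?_
      field_simp
    · intro t ht
      have ht0 : 0 < t := lt_of_lt_of_le hn ht.1
      have h6 := hlog t ht0 ht.2
      have h7 := hb (s + t * e) (by rw [hnt t ht0]; exact ht0) (by
        rw [hnt t ht0]; exact lt_of_le_of_lt ht.2 hr1)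
      rw [hnt t ht0] at h7
      have h8 : 2 * C / (t * (Real.log ρ - Real.log t)) / 2 =
          C / (t * (Real.log ρ - Real.log t)) := by
        field_simp
      rw [h8]
      exact h7
  -- the limit
  have hL : Tendsto (fun z : ℂ => -Real.log ‖z - s‖) (𝓝[≠] s) atTop := by
    have h3 : Tendsto (fun z : ℂ => ‖z - s‖) (𝓝[≠] s) (𝓝[>] 0) := by
      refine tendsto_nhdsWithin_iff.mpr ⟨?_, ?_⟩
      · have : Continuous fun z : ℂ => ‖z - s‖ := by fun_prop
        have h2 := this.tendsto s
        simp only [sub_self, norm_zero] at h2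
        exact h2.mono_left nhdsWithin_le_nhds
      · filter_upwards [self_mem_nhdsWithin] with z hz
        exact norm_pos_iff.mpr (sub_ne_zero.mpr hz)
    exact tendsto_neg_atBot_atTop.comp (Real.tendsto_log_nhdsGT_zero.comp h3)
  have h4 := hL.eventually (loglog (M - 2 * C * Real.log (Real.log ρ - Real.log r0)) (2 * C)
    (Real.log ρ) (2 * ε) (by positivity))
  have h5 : ∀ᶠ z in 𝓝[≠] s, ‖z - s‖ ≤ r0 := by
    have : ∀ᶠ z in 𝓝 s, dist z s < r0 := Metric.ball_mem_nhds s hr0
    filter_upwards [nhdsWithin_le_nhds this] with z hz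
    rw [dist_eq_norm] at hz
    exact hz.le
  filter_upwards [h4, h5, self_mem_nhdsWithin] with z h6 h7 h8
  have := key z h8 h7
  rw [log_normSq]
  linarith

theorem grow_i {F : Finset ℂ} {u : ℂ → ℝ} (hu : ContDiffOn ℝ 2 u {z | z ∉ F})
    {C R : ℝ} (hR : 0 < R) (hb : ∀ z : ℂ, R < ‖z‖ →
      |px u z| ≤ C / (‖z‖ * (Real.log ‖z‖ - Real.log R)) ∧
      |py u z| ≤ C / (‖z‖ * (Real.log ‖z‖ - Real.log R))) {ε : ℝ} (hε : 0 < ε) :
    ∀ᶠ z in cobounded ℂ, u z ≤ ε * Real.log (Complex.normSq z) := by
  have hop : IsOpen {z : ℂ | z ∉ F} := F.finite_toSet.isClosed.isOpen_compl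
  obtain ⟨R1, hR1⟩ : ∃ R1 : ℝ, ∀ z ∈ F, ‖z‖ ≤ R1 := by
    obtain ⟨R1, h⟩ := (F.finite_toSet.isCompact).isBounded.exists_norm_le
    exact ⟨R1, fun z hz => h z hz⟩
  set r0 : ℝ := max R R1 + 1 with hr0
  have h1 : R < r0 := by have := le_max_left R R1; linarith
  have h2 : R1 < r0 := by have := le_max_right R R1; linarith
  have h3 : 0 < r0 := by linarith
  obtain ⟨M, hM⟩ := circle_bound hu 0 r0 (fun z hz hzF => by
    have hz' : ‖z‖ = r0 := by simpa using hz
    have := hR1 z hzF
    linarith)
  have key : ∀ z : ℂ, r0 ≤ ‖z‖ → u z ≤ M - 2 * C * Real.log (Real.log r0 - Real.log R) +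
      2 * C * Real.log (-Real.log R + Real.log ‖z‖) := by
    intro z hzr
    have hn : 0 < ‖z‖ := by linarith
    set e : ℂ := z / ‖z‖ with he
    have hen : ‖e‖ = 1 := by
      rw [he, norm_div, Complex.norm_real, norm_norm, div_self hn.ne']
    have hze : 0 + (‖z‖ : ℝ) * e = z := by
      rw [he]
      have : ((‖z‖ : ℝ) : ℂ) ≠ 0 := by exact_mod_cast hn.ne'
      field_simp
      ring
    have hnt : ∀ t : ℝ, 0 < t → ‖0 + t * e‖ = t := by
      intro t ht
      rw [zero_add, norm_mul, hen, mul_one, Complex.norm_real, Real.norm_eq_abs, abs_of_pos ht]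
    have hlog : ∀ t : ℝ, r0 ≤ t → 0 < Real.log t - Real.log R := by
      intro t htr
      have := Real.log_lt_log hR (lt_of_lt_of_le h1 htr)
      linarith
    have hr := (radial (u := u) (s := 0) (e := e) hen hzr
      (G := fun t => (2 * C) * Real.log (Real.log t - Real.log R))
      (G' := fun t => 2 * C / (t * (Real.log t - Real.log R))) ?_ ?_ ?_).2
    · rw [hze] at hr
      have h5 : u (0 + r0 * e) ≤ M := hM _ (by
        rw [mem_sphere, dist_zero_right, hnt r0 h3])
      have e1 : -Real.log R + Real.log ‖z‖ = Real.log ‖z‖ - Real.log R := by ring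
      rw [e1]
      linarith
    · intro t ht
      have ht0 : 0 < t := by linarith [ht.1]
      refine (hu.differentiableOn two_ne_zero).differentiableAt (hop.mem_nhds ?_)
      intro hF
      have h6 := hR1 _ hF
      rw [hnt t ht0] at h6
      linarith [ht.1]
    · intro t ht
      have ht0 : 0 < t := by linarith [ht.1]
      have h6 := hlog t ht.1
      have h7 := (((Real.hasDerivAt_log ht0.ne').sub_const (Real.log R)).log h6.ne').const_mul
        (2 * C)
      refine h7.congr_deriv ?_
      field_simp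
    · intro t ht
      have ht0 : 0 < t := by linarith [ht.1]
      have h6 := hlog t ht.1
      have h7 := hb (0 + t * e) (by rw [hnt t ht0]; linarith [ht.1])
      rw [hnt t ht0] at h7
      have h8 : 2 * C / (t * (Real.log t - Real.log R)) / 2 =
          C / (t * (Real.log t - Real.log R)) := by
        field_simp
      rw [h8]
      exact h7
  have hL : Tendsto (fun z : ℂ => Real.log ‖z‖) (cobounded ℂ) atTop :=
    Real.tendsto_log_atTop.comp tendsto_norm_cobounded_atTop
  have h4 := hL.eventually (loglog (M - 2 * C * Real.log (Real.log r0 - Real.log R)) (2 * C)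
    (-Real.log R) (2 * ε) (by positivity))
  have h5 : ∀ᶠ z : ℂ in cobounded ℂ, r0 ≤ ‖z‖ :=
    tendsto_norm_cobounded_atTop.eventually (eventually_ge_atTop r0)
  filter_upwards [h4, h5] with z h6 h7
  have := key z h7
  rw [log_normSq]
  linarith

end Pool.Agent.A640.Tate.FPLi2

namespace Pool.Agent.A640.Tate

open FPLi2

/-- A4. The Liouville theorem (without hypotheses). -/
theorem stmtLi2 : StmtLi := by
  intro F u hu hsub hs hi
  have hop : IsOpen {z : ℂ | z ∉ F} := F.finite_toSet.isClosed.isOpen_compl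
  have h := TATE.FP.liouville (F := (F : Set ℂ)) F.finite_toSet (v := u)
    (l := fun z => px (px u) z + py (py u) z)
    (fun z hz => hu.continuousOn.continuousAt (hop.mem_nhds hz))
    (fun z hz => ⟨lap_of hu hz, hsub z hz⟩)
    (fun s hsF ε hε => by
      obtain ⟨C, ρ, hρ, hb⟩ := hs s hsF
      exact grow_s hu hρ hb hε)
    (fun ε hε => by
      obtain ⟨C, R, hR, hb⟩ := hi
      exact grow_i hu hR hb hε)
  exact fun z hz => h.2 z hz

end Pool.Agent.A640.Tate
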