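import Pool.Agent.Lib.MP_640417_ag.TATE.FP.Spec

/-!
# PROJECT TATE, package FP, B1: `J = T⁻¹ I T` satisfies `J_y = J J_x`
-/

set_option autoImplicit false

open Metric Set Complex

noncomputable section

namespace Pool.Agent.A640.Tate

namespace FPMJ

variable {ι : Type}

/-- The derivative in the direction `v` of a matrix valued function, entry by entry. -/
def dd (v : ℂ) (f : ℂ → Matrix ι ι ℝ) (z : ℂ) : Matrix ι ι ℝ :=
  Matrix.of fun i j => fderiv ℝ (fun w => f w i j) z v

theorem dd_mul [Fintype ι] (v : ℂ) (A B : ℂ → Matrix ι ι ℝ) (z : ℂ)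
    (hA : ∀ i j, DifferentiableAt ℝ (fun w => A w i j) z)
    (hB : ∀ i j, DifferentiableAt ℝ (fun w => B w i j) z) :
    dd v (fun w => A w * B w) z = dd v A z * B z + A z * dd v B z := by
  ext i j
  simp only [dd, Matrix.of_apply, Matrix.add_apply, Matrix.mul_apply]
  have h1 : fderiv ℝ (fun w => ∑ k, A w i k * B w k j) z =
      ∑ k, fderiv ℝ (fun w => A w i k * B w k j) z :=
    fderiv_fun_sum fun k _ => (hA i k).fun_mul (hB k j)
  rw [h1, ContinuousLinearMap.sum_apply, ← Finset.sum_add_distrib]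
  refine Finset.sum_congr rfl fun k _ => ?_
  have h2 : fderiv ℝ (fun w => A w i k * B w k j) z =
      A z i k • fderiv ℝ (fun w => B w k j) z + B z k j • fderiv ℝ (fun w => A w i k) z :=
    fderiv_fun_mul (hA i k) (hB k j)
  rw [h2]
  simp only [ContinuousLinearMap.add_apply, ContinuousLinearMap.smul_apply, smul_eq_mul]
  ring

theorem dd_const (v : ℂ) (C : Matrix ι ι ℝ) (z : ℂ) : dd v (fun _ => C) z = 0 := by
  ext i j
  simp [dd]

theorem dd_congr (v : ℂ) (A B : ℂ → Matrix ι ι ℝ) (z : ℂ) (U : Set ℂ) (hU : IsOpen U) (hz : z ∈ U)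
    (h : ∀ w ∈ U, A w = B w) : dd v A z = dd v B z := by
  ext i j
  simp only [dd, Matrix.of_apply]
  have h1 : (fun w => A w i j) =ᶠ[nhds z] fun w => B w i j := by
    filter_upwards [hU.mem_nhds hz] with w hw
    rw [h w hw]
  rw [h1.fderiv_eq]

theorem cd_det [Fintype ι] [DecidableEq ι] (U : Set ℂ) (M : ℂ → Matrix ι ι ℝ)
    (h : ∀ i j, ContDiffOn ℝ 2 (fun z => M z i j) U) : ContDiffOn ℝ 2 (fun z => (M z).det) U := by
  have h1 : (fun z => (M z).det) =
      fun z => ∑ σ : Equiv.Perm ι, ((Equiv.Perm.sign σ : ℤ) : ℝ) * ∏ i, M z (σ i) i := by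
    funext z
    rw [Matrix.det_apply']
  rw [h1]
  refine ContDiffOn.sum fun σ _ => ?_
  exact contDiffOn_const.mul (contDiffOn_prod fun i _ => h (σ i) i)

theorem cd_adj [Fintype ι] [DecidableEq ι] (U : Set ℂ) (M : ℂ → Matrix ι ι ℝ)
    (h : ∀ i j, ContDiffOn ℝ 2 (fun z => M z i j) U) (i j : ι) :
    ContDiffOn ℝ 2 (fun z => (M z).adjugate i j) U := by
  have h1 : (fun z => (M z).adjugate i j) =
      fun z => ((M z).updateRow j (Pi.single i 1)).det := by
    funext z
    rw [Matrix.adjugate_apply]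
  rw [h1]
  refine cd_det U (fun z => (M z).updateRow j (Pi.single i 1)) fun k l => ?_
  by_cases hk : k = j
  · subst hk
    have h2 : (fun z => (M z).updateRow k (Pi.single i 1) k l) =
        fun _ : ℂ => (Pi.single i (1 : ℝ) : ι → ℝ) l := by
      funext z
      rw [Matrix.updateRow_self]
    rw [h2]
    exact contDiffOn_const
  · have h2 : (fun z => (M z).updateRow j (Pi.single i 1) k l) = fun z => M z k l := by
      funext z
      rw [Matrix.updateRow_ne hk]
    rw [h2]
    exact h k l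

theorem cd_inv [Fintype ι] [DecidableEq ι] (U : Set ℂ) (M : ℂ → Matrix ι ι ℝ)
    (h : ∀ i j, ContDiffOn ℝ 2 (fun z => M z i j) U) (hd : ∀ z ∈ U, IsUnit (M z).det) (i j : ι) :
    ContDiffOn ℝ 2 (fun z => (M z)⁻¹ i j) U := by
  have h1 : (fun z => (M z)⁻¹ i j) = fun z => (M z).det⁻¹ * (M z).adjugate i j := by
    funext z
    rw [Matrix.inv_def, Matrix.smul_apply, smul_eq_mul, Ring.inverse_eq_inv']
  rw [h1]
  exact ((cd_det U M h).inv fun z hz => (hd z hz).ne_zero).mul (cd_adj U M h i j)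

theorem cd_mul [Fintype ι] (U : Set ℂ) (A B : ℂ → Matrix ι ι ℝ)
    (hA : ∀ i j, ContDiffOn ℝ 2 (fun z => A z i j) U)
    (hB : ∀ i j, ContDiffOn ℝ 2 (fun z => B z i j) U) (i j : ι) :
    ContDiffOn ℝ 2 (fun z => (A z * B z) i j) U := by
  have h1 : (fun z => (A z * B z) i j) = fun z => ∑ k, A z i k * B z k j := by
    funext z
    rw [Matrix.mul_apply]
  rw [h1]
  exact ContDiffOn.sum fun k _ => (hA i k).mul (hB k j)

end FPMJ

open FPMJ in
theorem stmtMJ : StmtMJ := by
  intro ι _ _ U T I0 hU hT hdet hI hTy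
  have hcJ : ∀ i j, ContDiffOn ℝ 2 (fun z => ((T z)⁻¹ * I0 * T z) i j) U := by
    intro i j
    refine cd_mul U (fun z => (T z)⁻¹ * I0) T (fun k l => ?_) hT i j
    exact cd_mul U (fun z => (T z)⁻¹) (fun _ => I0) (cd_inv U T hT hdet)
      (fun _ _ => contDiffOn_const) k l
  refine ⟨hcJ, fun z hz => ?_⟩
  set J : ℂ → Matrix ι ι ℝ := fun z => (T z)⁻¹ * I0 * T z with hJ
  have hdT : ∀ i j, DifferentiableAt ℝ (fun w => T w i j) z := fun i j =>
    ((hT i j).differentiableOn (by norm_num)).differentiableAt (hU.mem_nhds hz)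
  have hdJ : ∀ i j, DifferentiableAt ℝ (fun w => J w i j) z := fun i j =>
    ((hcJ i j).differentiableOn (by norm_num)).differentiableAt (hU.mem_nhds hz)
  have hTJ : ∀ w ∈ U, T w * J w = I0 * T w := by
    intro w hw
    rw [hJ]
    simp only
    rw [← Matrix.mul_assoc, ← Matrix.mul_assoc, Matrix.mul_nonsing_inv _ (hdet w hw), Matrix.one_mul]
  have hstep : ∀ v : ℂ, dd v T z * J z + T z * dd v J z = I0 * dd v T z := by
    intro v
    rw [← dd_mul v T J z hdT hdJ, dd_congr v _ (fun w => I0 * T w) z U hU hz hTJ,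
      dd_mul v (fun _ => I0) T z (fun _ _ => differentiableAt_const _) hdT, dd_const,
      Matrix.zero_mul, zero_add]
  have hX : mX T z = dd 1 T z := rfl
  have hY : mY T z = dd Complex.I T z := rfl
  have hJX : mX J z = dd 1 J z := rfl
  have hJY : mY J z = dd Complex.I J z := rfl
  have h1 := hstep 1
  have h2 := hstep Complex.I
  rw [← hX, ← hJX] at h1
  rw [← hY, ← hJY, hTy z hz] at h2
  have h3 : T z * mY J z = T z * (J z * mX J z) := by
    have e1 : T z * mX J z = I0 * mX T z - mX T z * J z := by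
      rw [← h1]; abel
    have e2 : T z * mY J z = I0 * (I0 * mX T z) - I0 * mX T z * J z := by
      rw [← h2]; abel
    rw [e2, ← Matrix.mul_assoc (T z) (J z), hTJ z hz, Matrix.mul_assoc I0 (T z), e1, Matrix.mul_sub,
      Matrix.mul_assoc I0 (mX T z) (J z)]
  have h4 : (T z)⁻¹ * (T z * mY J z) = (T z)⁻¹ * (T z * (J z * mX J z)) := by rw [h3]
  rw [← Matrix.mul_assoc, ← Matrix.mul_assoc, Matrix.nonsing_inv_mul _ (hdet z hz), Matrix.one_mul,
    Matrix.one_mul] at h4
  exact h4

end Pool.Agent.A640.Tate
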