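import Pool.Agent.Lib.MP_640417_ag.TATE.FP.Spec

/-!
# PROJECT TATE, package FP: assembly of the theorem of the fixed part
-/

set_option autoImplicit false

open Metric Set Complex

noncomputable section

namespace Pool.Agent.A640.Tate

namespace FPMain

variable {V : Type} [NormedAddCommGroup V] [NormedSpace ℂ V] {d : ℕ}

theorem isTr_mono {L : ℂ → Set V} {E : ℂ → V →ₗ[ℝ] V →ₗ[ℝ] ℝ} {O : ℂ → Set (Cl V d)} {w0 : ℂ}
    {r r' : ℝ} {τ : ℂ → (V ≃ₗ[ℝ] V)} (h : IsTr L E O w0 r τ) (h0 : 0 < r') (hr : r' ≤ r) :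
    IsTr L E O w0 r' τ where
  pos := h0
  one := h.one
  lat w hw := h.lat w (ball_subset_ball hr hw)
  pol w hw := h.pol w (ball_subset_ball hr hw)
  orb w hw := h.orb w (ball_subset_ball hr hw)
  hol v := (h.hol v).mono (ball_subset_ball hr)

theorem isFm_mono {L : ℂ → Set V} {E : ℂ → V →ₗ[ℝ] V →ₗ[ℝ] ℝ} {O : ℂ → Set (Cl V d)}
    {U U' : Set ℂ} (h : IsFm U L E O) (hU' : IsOpen U') (hs : U' ⊆ U) : IsFm U' L E O where
  cnt z hz := h.cnt z (hs hz)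
  span z hz := h.span z (hs hz)
  alt z hz := h.alt z (hs hz)
  inv z hz := h.inv z (hs hz)
  pos z hz := h.pos z (hs hz)
  fin z hz := h.fin z (hs hz)
  loc z hz := by
    obtain ⟨r, τ, -, hτ⟩ := h.loc z (hs hz)
    obtain ⟨r', h0, hr'⟩ := Metric.isOpen_iff.1 hU' z hz
    refine ⟨min r r', τ, (ball_subset_ball (min_le_right _ _)).trans hr',
      isTr_mono hτ (lt_min hτ.pos h0) (min_le_left _ _)⟩

theorem isOpen_compl (F : Finset ℂ) : IsOpen {z : ℂ | z ∉ F} := by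
  have h : {z : ℂ | z ∉ F} = ((F : Set ℂ))ᶜ := by
    ext z
    simp
  rw [h]
  exact F.finite_toSet.isClosed.isOpen_compl

/-- A disc around `s` without other points of `F`. -/
theorem disc (F : Finset ℂ) (s : ℂ) : ∃ ρ : ℝ, 0 < ρ ∧ ball s ρ \ {s} ⊆ {z : ℂ | z ∉ F} := by
  have h1 : IsOpen {z : ℂ | z ∉ F.erase s} := isOpen_compl (F.erase s)
  have h2 : s ∈ {z : ℂ | z ∉ F.erase s} := by simp
  obtain ⟨ρ, h0, hρ⟩ := Metric.isOpen_iff.1 h1 s h2
  refine ⟨ρ, h0, fun z hz => ?_⟩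
  have h3 := hρ hz.1
  have h4 : z ≠ s := hz.2
  simp only [mem_setOf_eq, Finset.mem_erase, not_and] at h3 ⊢
  exact h3 h4

/-- A disc which contains `F`. -/
theorem big (F : Finset ℂ) : ∃ R : ℝ, 0 < R ∧ {z : ℂ | R < ‖z‖} ⊆ {z : ℂ | z ∉ F} := by
  refine ⟨1 + ∑ s ∈ F, ‖s‖, ?_, fun z hz hzF => ?_⟩
  · have : 0 ≤ ∑ s ∈ F, ‖s‖ := Finset.sum_nonneg fun s _ => norm_nonneg s
    linarith
  · have h1 : ‖z‖ ≤ ∑ s ∈ F, ‖s‖ := Finset.single_le_sum (f := fun s : ℂ => ‖s‖)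
      (fun s _ => norm_nonneg s) hzF
    have h2 : 1 + ∑ s ∈ F, ‖s‖ < ‖z‖ := hz
    linarith

end FPMain

/-- THEOREM FP from its parts. -/
theorem stmtMain (hC2 : StmtC2) (hPu : StmtPu) (hPi : StmtPi) (hLi : StmtLi) (hFl : StmtFl) :
    ThmFP := by
  intro V _ _ _ d F L E O hFm z0 r τ hball hτ
  have : FiniteDimensional ℝ V := FiniteDimensional.complexToReal V
  have hU := FPMain.isOpen_compl F
  obtain ⟨hu1, hu2⟩ := hC2 V d (Fin (Module.finrank ℝ V)) (Module.finBasis ℝ V) {z | z ∉ F} L E O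
    hU hFm
  have hl : ∀ z ∉ F, px (px (uu (Module.finBasis ℝ V) E O)) z +
      py (py (uu (Module.finBasis ℝ V) E O)) z = 0 := by
    refine hLi F (uu (Module.finBasis ℝ V) E O) hu1 hu2 (fun s _ => ?_) ?_
    · obtain ⟨ρ, h0, hρ⟩ := FPMain.disc F s
      refine ⟨8 * d, ρ, h0, fun z h1 h2 => ?_⟩
      refine hPu V d (Fin (Module.finrank ℝ V)) (Module.finBasis ℝ V) s ρ L E O h0
        (FPMain.isFm_mono hFm ?_ hρ) z h1 h2
      exact isOpen_ball.sdiff isClosed_singleton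
    · obtain ⟨R, h0, hR⟩ := FPMain.big F
      refine ⟨8 * d, R, h0, fun z h1 => ?_⟩
      refine hPi V d (Fin (Module.finrank ℝ V)) (Module.finBasis ℝ V) R L E O h0
        (FPMain.isFm_mono hFm ?_ hR) z h1
      exact isOpen_lt continuous_const continuous_norm
  exact hFl V d (Fin (Module.finrank ℝ V)) (Module.finBasis ℝ V) {z | z ∉ F} L E O z0 r τ hFm
    hball hτ fun z hz => hl z (hball hz)

end Pool.Agent.A640.Tate
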