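import Pool.Agent.Lib.MP_640417_ag.TATE.FP.Spec

/-!
# PROJECT TATE, package FP: pull back of a family under a holomorphic map
-/

set_option autoImplicit false

open Metric Set Complex

noncomputable section

namespace Pool.Agent.A640.Tate

/-- T2. Pull back of a family under a holomorphic map. -/
theorem stmtPb : StmtPb := by
  intro V _ _ _ d L E O U U' q h hU' hq hm
  refine ⟨fun z hz => h.cnt _ (hm hz), fun z hz => h.span _ (hm hz), fun z hz => h.alt _ (hm hz),
    fun z hz => h.inv _ (hm hz), fun z hz => h.pos _ (hm hz), fun z hz => h.fin _ (hm hz), ?_⟩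
  intro z hz
  obtain ⟨r, τ, hr, hτ⟩ := h.loc _ (hm hz)
  have hc : ContinuousAt q z := (hq.continuousOn).continuousAt (hU'.mem_nhds hz)
  have h1 : q ⁻¹' ball (q z) r ∩ U' ∈ nhds z :=
    Filter.inter_mem (hc (ball_mem_nhds _ hτ.pos)) (hU'.mem_nhds hz)
  obtain ⟨r', hr', hsub⟩ := Metric.mem_nhds_iff.1 h1
  have hb : ∀ w ∈ ball z r', q w ∈ ball (q z) r := fun w hw => (hsub hw).1
  refine ⟨r', fun w => τ (q w), fun w hw => (hsub hw).2, ?_⟩
  exact ⟨hr', hτ.one, fun w hw => hτ.lat _ (hb w hw), fun w hw => hτ.pol _ (hb w hw),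
    fun w hw => hτ.orb _ (hb w hw),
    fun v => (hτ.hol v).comp (hq.mono fun w hw => (hsub hw).2) fun w hw => hb w hw⟩

end Pool.Agent.A640.Tate
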