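import Pool.Agent.Lib.MP_640417_ag.TATE.FP.Spec

/-!
# PROJECT TATE, package FP: growth at infinity

Pull back under `q(w) = e^(-w)` on the ball with centre `w0 = -log z` and radius `log |z| - log R`.
-/

set_option autoImplicit false

open Metric Set Complex

noncomputable section

namespace Pool.Agent.A640.Tate

namespace FPPi

/-- The values of a real linear functional at `1` and `i` from those at `ζ` and `ζ i`. -/
theorem lin_bound (A : ℂ →L[ℝ] ℝ) (ζ : ℂ) (hζ : ζ ≠ 0) (B : ℝ) (h1 : |A ζ| ≤ B)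
    (h2 : |A (ζ * Complex.I)| ≤ B) :
    |A 1| ≤ 2 * B / ‖ζ‖ ∧ |A Complex.I| ≤ 2 * B / ‖ζ‖ := by
  have hn : 0 < ‖ζ‖ := norm_pos_iff.2 hζ
  have hsq : ζ.re * ζ.re + ζ.im * ζ.im = ‖ζ‖ * ‖ζ‖ := by
    rw [← Complex.normSq_apply, Complex.normSq_eq_norm_sq, sq]
  have e1 : (‖ζ‖ * ‖ζ‖) • (1 : ℂ) = ζ.re • ζ + (-ζ.im) • (ζ * Complex.I) := by
    rw [← hsq]
    apply Complex.ext <;> simp <;> ring
  have e2 : (‖ζ‖ * ‖ζ‖) • Complex.I = ζ.im • ζ + ζ.re • (ζ * Complex.I) := by
    rw [← hsq]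
    apply Complex.ext <;> simp <;> ring
  have f1 : ‖ζ‖ * ‖ζ‖ * A 1 = ζ.re * A ζ - ζ.im * A (ζ * Complex.I) := by
    have := congrArg A e1
    simp only [map_add, map_smul, smul_eq_mul] at this
    rw [this]; ring
  have f2 : ‖ζ‖ * ‖ζ‖ * A Complex.I = ζ.im * A ζ + ζ.re * A (ζ * Complex.I) := by
    have := congrArg A e2
    simp only [map_add, map_smul, smul_eq_mul] at this
    rw [this]
  have hre : |ζ.re| ≤ ‖ζ‖ := Complex.abs_re_le_norm ζ
  have him : |ζ.im| ≤ ‖ζ‖ := Complex.abs_im_le_norm ζ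
  have key : ∀ t : ℝ, ‖ζ‖ * ‖ζ‖ * |t| ≤ 2 * B * ‖ζ‖ → |t| ≤ 2 * B / ‖ζ‖ := by
    intro t ht
    rw [le_div_iff₀ hn]
    have : ‖ζ‖ * (|t| * ‖ζ‖) ≤ ‖ζ‖ * (2 * B) := by nlinarith
    exact le_of_mul_le_mul_left this hn
  have hB : 0 ≤ B := le_trans (abs_nonneg _) h1
  have pr : ∀ a b : ℝ, |a| ≤ ‖ζ‖ → |b| ≤ B → |a * b| ≤ ‖ζ‖ * B := by
    intro a b ha hb
    rw [abs_mul]
    exact mul_le_mul ha hb (abs_nonneg _) hn.le
  constructor
  · apply key
    have : ‖ζ‖ * ‖ζ‖ * |A 1| = |ζ.re * A ζ - ζ.im * A (ζ * Complex.I)| := by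
      rw [← f1, abs_mul, abs_of_pos (mul_pos hn hn)]
    rw [this]
    have := abs_sub (ζ.re * A ζ) (ζ.im * A (ζ * Complex.I))
    have h3 := pr _ _ hre h1
    have h4 := pr _ _ him h2
    linarith
  · apply key
    have : ‖ζ‖ * ‖ζ‖ * |A Complex.I| = |ζ.im * A ζ + ζ.re * A (ζ * Complex.I)| := by
      rw [← f2, abs_mul, abs_of_pos (mul_pos hn hn)]
    rw [this]
    have := abs_add_le (ζ.im * A ζ) (ζ.re * A (ζ * Complex.I))
    have h3 := pr _ _ him h1
    have h4 := pr _ _ hre h2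
    linarith

end FPPi

/-- **Pi**: growth at infinity. -/
theorem stmtPi (hPb : StmtPb) (hGr : StmtGr) (hC2 : StmtC2) : StmtPi := by
  intro V _ _ _ d ι _ _ b R L E O hR hF z hz
  have hz0 : 0 < ‖z‖ := lt_trans hR hz
  set r : ℝ := Real.log ‖z‖ - Real.log R with hr
  have hrpos : 0 < r := sub_pos.2 (Real.log_lt_log hR hz)
  have hne : z ≠ 0 := norm_pos_iff.1 hz0
  have hne' : -z ≠ 0 := neg_ne_zero.2 hne
  set w0 : ℂ := -Complex.log z with hw0
  have hexp : Complex.exp (-w0) = z := by rw [hw0, neg_neg]; exact Complex.exp_log hne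
  have hre : w0.re = -Real.log ‖z‖ := by rw [hw0, Complex.neg_re, Complex.log_re]
  let q : ℂ → ℂ := fun w => Complex.exp (-w)
  have hq0 : q w0 = z := hexp
  have hmap : MapsTo q (ball w0 r) {z : ℂ | R < ‖z‖} := by
    intro w hw
    have h1 : |w.re - w0.re| < r := by
      have := Complex.abs_re_le_norm (w - w0)
      rw [Complex.sub_re] at this
      exact lt_of_le_of_lt this (by simpa [dist_eq_norm] using hw)
    have h2 : Real.log R < (-w).re := by
      have := (abs_lt.1 h1).2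
      rw [hre, hr] at this
      rw [Complex.neg_re]
      linarith
    change R < ‖Complex.exp (-w)‖
    rw [Complex.norm_exp]
    calc R = Real.exp (Real.log R) := (Real.exp_log hR).symm
      _ < Real.exp (-w).re := Real.exp_lt_exp.2 h2
  have hqd : Differentiable ℂ q := Complex.differentiable_exp.comp differentiable_neg
  have hFm := hPb V d L E O {z : ℂ | R < ‖z‖} (ball w0 r) q hF isOpen_ball hqd.differentiableOn hmap
  have hg := hGr V d ι b _ _ _ w0 r hrpos hFm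
  have hop : IsOpen {z : ℂ | R < ‖z‖} := isOpen_lt continuous_const continuous_norm
  have hd : DifferentiableAt ℝ (uu b E O) z :=
    ((hC2 V d ι b _ L E O hop hF).1.contDiffAt (hop.mem_nhds hz)).differentiableAt (by norm_num)
  have hcomp : uu b (fun w => E (q w)) (fun w => O (q w)) = (uu b E O) ∘ q := rfl
  have hqder : HasDerivAt q (-z) w0 := by
    have h1 : HasDerivAt (fun w : ℂ => -w) (-1) w0 := hasDerivAt_neg w0
    have h2 := h1.cexp
    rw [hexp, mul_neg, mul_one] at h2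
    exact h2
  have hqf : HasFDerivAt q ((ContinuousLinearMap.toSpanSingleton ℂ (-z)).restrictScalars ℝ) w0 :=
    hqder.hasFDerivAt.restrictScalars ℝ
  have hdq : DifferentiableAt ℝ (uu b E O) (q w0) := by rwa [hq0]
  have hch : HasFDerivAt ((uu b E O) ∘ q) ((fderiv ℝ (uu b E O) (q w0)).comp
      ((ContinuousLinearMap.toSpanSingleton ℂ (-z)).restrictScalars ℝ)) w0 :=
    hdq.hasFDerivAt.comp w0 hqf
  have hfd : ∀ v : ℂ, fderiv ℝ ((uu b E O) ∘ q) w0 v = fderiv ℝ (uu b E O) z ((-z) * v) := by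
    intro v
    rw [hch.fderiv, hq0, ContinuousLinearMap.comp_apply, ContinuousLinearMap.coe_restrictScalars',
      ContinuousLinearMap.toSpanSingleton_apply, smul_eq_mul, mul_comm]
  have h1 : |fderiv ℝ (uu b E O) z (-z)| ≤ 4 * d / r := by
    have := hg.1
    rw [hcomp] at this
    unfold px at this
    rwa [hfd, mul_one] at this
  have h2 : |fderiv ℝ (uu b E O) z ((-z) * Complex.I)| ≤ 4 * d / r := by
    have := hg.2
    rw [hcomp] at this
    unfold py at this
    rwa [hfd] at this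
  have h3 := FPPi.lin_bound (fderiv ℝ (uu b E O) z) (-z) hne' (4 * d / r) h1 h2
  rw [norm_neg] at h3
  have h4 : 2 * (4 * (d : ℝ) / r) / ‖z‖ = 8 * d / (‖z‖ * r) := by
    field_simp
    ring
  rw [h4] at h3
  exact h3

end Pool.Agent.A640.Tate
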