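import Pool.Agent.Lib.MP_640417_ag.TATE.FP.Spec

/-!
# PROJECT TATE, package FP: K3, tensor powers
-/

set_option autoImplicit false

open Metric Set Complex

noncomputable section

namespace Pool.Agent.A640.Tate

open scoped Kronecker

namespace FPPw

/-- `HV` is stable under reindexing. -/
theorem hv_sub {κ κ' : Type} [Fintype κ] [DecidableEq κ] [Fintype κ'] [DecidableEq κ'] (e : κ' ≃ κ)
    (U : Set ℂ) (Q J : ℂ → Matrix κ κ ℝ) (h : HV U Q J) :
    HV U (fun z => (Q z).submatrix e e) (fun z => (J z).submatrix e e) where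
  op := h.op
  cQ := fun i j => h.cQ (e i) (e j)
  cJ := fun i j => h.cJ (e i) (e j)
  pd := fun z hz => (h.pd z hz).submatrix e.injective
  qx := fun z hz => by
    have h1 : mX (fun z => (Q z).submatrix e e) z = (mX Q z).submatrix e e := rfl
    have h2 : mY (fun z => (J z).submatrix e e) z = (mY J z).submatrix e e := rfl
    rw [h1, h2, Matrix.submatrix_mul_equiv, h.qx z hz]
    rfl
  qy := fun z hz => by
    have h1 : mY (fun z => (Q z).submatrix e e) z = (mY Q z).submatrix e e := rfl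
    have h2 : mX (fun z => (J z).submatrix e e) z = (mX J z).submatrix e e := rfl
    rw [h1, h2, Matrix.submatrix_mul_equiv, h.qy z hz]

/-- `HB` is stable under reindexing. -/
theorem hb_sub {κ κ' : Type} [Fintype κ] [DecidableEq κ] [Fintype κ'] [DecidableEq κ'] (e : κ' ≃ κ)
    (Q J : ℂ → Matrix κ κ ℝ) (z : ℂ) (μ : ℝ) (h : HB Q J z μ) :
    HB (fun z => (Q z).submatrix e e) (fun z => (J z).submatrix e e) z μ where
  nn := h.nn
  ps := h.ps.submatrix e
  xp := by
    have h2 : mY (fun z => (J z).submatrix e e) z = (mY J z).submatrix e e := rfl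
    rw [h2, Matrix.submatrix_mul_equiv]
    exact h.xp.submatrix e
  xm := by
    have h2 : mY (fun z => (J z).submatrix e e) z = (mY J z).submatrix e e := rfl
    rw [h2, Matrix.submatrix_mul_equiv]
    exact h.xm.submatrix e
  yp := by
    have h2 : mX (fun z => (J z).submatrix e e) z = (mX J z).submatrix e e := rfl
    rw [h2, Matrix.submatrix_mul_equiv]
    exact h.yp.submatrix e
  ym := by
    have h2 : mX (fun z => (J z).submatrix e e) z = (mX J z).submatrix e e := rfl
    rw [h2, Matrix.submatrix_mul_equiv]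
    exact h.ym.submatrix e

/-- The first index and the others. -/
def eq {ι : Type} (d : ℕ) : (Fin (d + 1) → ι) ≃ ι × (Fin d → ι) where
  toFun K := (K 0, fun i => K i.succ)
  invFun p := Fin.cons p.1 p.2
  left_inv K := Fin.cons_self_tail K
  right_inv p := by
    ext
    · simp
    · simp

theorem qd_succ {ι : Type} (d : ℕ) (Q : Matrix ι ι ℝ) :
    Qd (d + 1) Q = (Q ⊗ₖ Qd d Q).submatrix (eq d) (eq d) := by
  ext K K'
  rw [Matrix.submatrix_apply, Matrix.kronecker_apply]
  change ∏ i, Q (K i) (K' i) = Q (K 0) (K' 0) * ∏ i : Fin d, Q (K i.succ) (K' i.succ)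
  rw [Fin.prod_univ_succ]

theorem jd_succ {ι : Type} [DecidableEq ι] (d : ℕ) (J : Matrix ι ι ℝ) :
    Jd (d + 1) J = (J ⊗ₖ (1 : Matrix (Fin d → ι) (Fin d → ι) ℝ) +
      (1 : Matrix ι ι ℝ) ⊗ₖ Jd d J).submatrix (eq d) (eq d) := by
  ext K K'
  rw [Matrix.submatrix_apply, Matrix.add_apply, Matrix.kronecker_apply, Matrix.kronecker_apply]
  change (∑ i, if ∀ j, j ≠ i → K j = K' j then J (K i) (K' i) else 0) =
    J (K 0) (K' 0) * (1 : Matrix (Fin d → ι) (Fin d → ι) ℝ) (fun i => K i.succ) (fun i => K' i.succ) +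
    (1 : Matrix ι ι ℝ) (K 0) (K' 0) *
      ∑ i : Fin d, if ∀ j, j ≠ i → K j.succ = K' j.succ then J (K i.succ) (K' i.succ) else 0
  rw [Fin.sum_univ_succ]
  congr 1
  · rw [Matrix.one_apply]
    have h : (∀ j, j ≠ (0 : Fin (d + 1)) → K j = K' j) ↔
        (fun i : Fin d => K i.succ) = (fun i => K' i.succ) := by
      constructor
      · intro h
        funext i
        exact h _ (Fin.succ_ne_zero i)
      · intro h j hj
        obtain ⟨i, rfl⟩ := Fin.exists_succ_eq.mpr hj
        exact congrFun h i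
    by_cases hc : (fun i : Fin d => K i.succ) = (fun i => K' i.succ)
    · rw [if_pos (h.mpr hc), if_pos hc, mul_one]
    · rw [if_neg (fun h' => hc (h.mp h')), if_neg hc, mul_zero]
  · rw [Matrix.one_apply, Finset.mul_sum]
    apply Finset.sum_congr rfl
    intro i _
    have h : (∀ j, j ≠ i.succ → K j = K' j) ↔
        (K 0 = K' 0 ∧ ∀ j, j ≠ i → K j.succ = K' j.succ) := by
      constructor
      · intro h
        refine ⟨h 0 (Fin.succ_ne_zero i).symm, fun j hj => h _ ?_⟩
        intro h'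
        exact hj (Fin.succ_injective _ h')
      · rintro ⟨h0, h⟩ j hj
        by_cases hj0 : j = 0
        · rw [hj0, h0]
        · obtain ⟨j', rfl⟩ := Fin.exists_succ_eq.mpr hj0
          exact h j' (fun h' => hj (by rw [h']))
    by_cases hc : K 0 = K' 0 ∧ ∀ j, j ≠ i → K j.succ = K' j.succ
    · rw [if_pos (h.mpr hc), if_pos hc.1, if_pos hc.2, one_mul]
    · rw [if_neg (fun h' => hc (h.mp h'))]
      by_cases h0 : K 0 = K' 0
      · rw [if_pos h0, if_neg (fun h' => hc ⟨h0, h'⟩), mul_zero]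
      · rw [if_neg h0, zero_mul]

theorem qd_zero {ι : Type} [DecidableEq ι] (Q : Matrix ι ι ℝ) : Qd 0 Q = 1 := by
  ext K K'
  rw [Subsingleton.elim K K', Matrix.one_apply_eq]
  change ∏ i : Fin 0, Q (K' i) (K' i) = 1
  simp

theorem jd_zero {ι : Type} [DecidableEq ι] (J : Matrix ι ι ℝ) : Jd 0 J = 0 := by
  ext K K'
  change (∑ i : Fin 0, if ∀ j, j ≠ i → K j = K' j then J (K i) (K' i) else 0) = 0
  simp

theorem mX_const {κ : Type} (A : Matrix κ κ ℝ) (z : ℂ) : mX (fun _ => A) z = 0 := by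
  ext i j
  change fderiv ℝ (fun _ : ℂ => A i j) z 1 = 0
  rw [fderiv_fun_const]
  rfl

theorem mY_const {κ : Type} (A : Matrix κ κ ℝ) (z : ℂ) : mY (fun _ => A) z = 0 := by
  ext i j
  change fderiv ℝ (fun _ : ℂ => A i j) z Complex.I = 0
  rw [fderiv_fun_const]
  rfl

end FPPw

open FPPw in
theorem stmtPw (hKr : StmtKr) (hKb : StmtKb) : StmtPw := by
  intro ι _ _ d U Q J hV
  induction d with
  | zero =>
    have hQ : (fun z => Qd 0 (Q z)) = fun _ : ℂ => (1 : Matrix (Fin 0 → ι) (Fin 0 → ι) ℝ) := by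
      funext z
      exact qd_zero _
    have hJ : (fun z => Jd 0 (J z)) = fun _ : ℂ => (0 : Matrix (Fin 0 → ι) (Fin 0 → ι) ℝ) := by
      funext z
      exact jd_zero _
    rw [hQ, hJ]
    refine ⟨⟨hV.op, fun i j => contDiffOn_const, fun i j => contDiffOn_const,
      fun z _ => Matrix.PosDef.one, fun z _ => ?_, fun z _ => ?_⟩, fun z _ μ hμ => ?_⟩
    · rw [mX_const, mY_const, mul_zero, neg_zero]
    · rw [mX_const, mY_const, mul_zero]
    · have h0 : ((0 : ℕ) : ℝ) * μ = 0 := by simp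
      rw [h0]
      refine ⟨le_refl _, Matrix.PosDef.one.posSemidef, ?_, ?_, ?_, ?_⟩
      · rw [mY_const, mul_zero, zero_smul, zero_add]
        exact Matrix.PosSemidef.zero
      · rw [mY_const, mul_zero, zero_smul, sub_zero]
        exact Matrix.PosSemidef.zero
      · rw [mX_const, mul_zero, zero_smul, zero_add]
        exact Matrix.PosSemidef.zero
      · rw [mX_const, mul_zero, zero_smul, sub_zero]
        exact Matrix.PosSemidef.zero
  | succ d ih =>
    obtain ⟨ih1, ih2⟩ := ih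
    have hQ : (fun z => Qd (d + 1) (Q z)) =
        fun z => (Q z ⊗ₖ Qd d (Q z)).submatrix (eq d) (eq d) := by
      funext z
      exact qd_succ _ _
    have hJ : (fun z => Jd (d + 1) (J z)) =
        fun z => (J z ⊗ₖ (1 : Matrix (Fin d → ι) (Fin d → ι) ℝ) +
          (1 : Matrix ι ι ℝ) ⊗ₖ Jd d (J z)).submatrix (eq d) (eq d) := by
      funext z
      exact jd_succ _ _
    rw [hQ, hJ]
    refine ⟨hv_sub (eq d) U _ _ (hKr ι (Fin d → ι) U Q J _ _ hV ih1), fun z hz μ hμ => ?_⟩
    have h1 := hKb ι (Fin d → ι) U Q J _ _ hV ih1 z hz μ (d * μ) hμ (ih2 z hz μ hμ)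
    have h2 : ((d + 1 : ℕ) : ℝ) * μ = μ + d * μ := by
      push_cast
      ring
    rw [h2]
    exact hb_sub (eq d) _ _ z _ h1

end Pool.Agent.A640.Tate
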