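import Pool.Agent.Lib.MP_640417_ag.TATE.FP.Spec

/-!
# PROJECT TATE, package FP: change of the base point
-/

set_option autoImplicit false

open Metric Set Complex

noncomputable section

namespace Pool.Agent.A640.Tate

theorem FPReb0.psh_comp {V : Type} [NormedAddCommGroup V] [NormedSpace ℂ V] {d : ℕ}
    (f g : V ≃ₗ[ℝ] V) (c : Cl V d) :
    psh (f.symm.trans g).toLinearMap (psh f.toLinearMap c) = psh g.toLinearMap c := by
  refine AlternatingMap.ext fun a => ?_
  change c _ = c _
  congr 1
  funext i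
  refine LinearMap.ext fun v => ?_
  change (a i) (g (f.symm (f v))) = (a i) (g v)
  rw [f.symm_apply_apply]

/-- T1. -/
theorem stmtReb0 : StmtReb := by
  intro V _ _ _ d L E O w0 r τ h w1 hw1 r1 hr1 hsub
  refine ⟨hr1, fun v => ?_, fun w hw => ?_, fun w hw u v => ?_, fun w hw => ?_, fun v => ?_⟩
  · exact (τ w1).apply_symm_apply v
  · rw [← h.lat w1 hw1, ← h.lat w (hsub hw), Set.image_image]
    refine Set.image_congr fun v _ => ?_
    change (τ w) ((τ w1).symm ((τ w1) v)) = (τ w) v
    rw [(τ w1).symm_apply_apply]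
  · change E w ((τ w) ((τ w1).symm u)) ((τ w) ((τ w1).symm v)) = _
    rw [h.pol w (hsub hw), ← h.pol w1 hw1, (τ w1).apply_symm_apply, (τ w1).apply_symm_apply]
  · rw [← h.orb w1 hw1, ← h.orb w (hsub hw), Set.image_image]
    refine Set.image_congr fun c _ => ?_
    exact FPReb0.psh_comp (τ w1) (τ w) c
  · exact (h.hol ((τ w1).symm v)).mono hsub

end Pool.Agent.A640.Tate
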