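import Pool.Agent.Lib.MP_640417_ag.TATE.FP.Spec

/-!
# PROJECT TATE, package FP: A1, the integral over a ring

Translation and polar coordinates.
-/

set_option autoImplicit false

open MeasureTheory Set

noncomputable section

namespace Pool.Agent.A640.Tate

namespace FPRi

/-- The radial function. -/
private def gr (a a' : ℝ) : ℝ → ENNReal :=
  (Icc (Real.exp a) (Real.exp a')).indicator fun r => ENNReal.ofReal (1 / r)

private lemma gr_meas (a a' : ℝ) : Measurable (gr a a') := by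
  unfold gr
  refine Measurable.indicator ?_ measurableSet_Icc
  exact ENNReal.measurable_ofReal.comp (measurable_const.div measurable_id)

private lemma gr_int (a a' : ℝ) (h : a ≤ a') :
    ∫⁻ r in Ioi (0 : ℝ), gr a a' r = ENNReal.ofReal (a' - a) := by
  have hp : 0 < Real.exp a := Real.exp_pos a
  have hle : Real.exp a ≤ Real.exp a' := Real.exp_le_exp.2 h
  have hsub : Icc (Real.exp a) (Real.exp a') ⊆ Ioi (0 : ℝ) := fun r hr => lt_of_lt_of_le hp hr.1
  have e1 : ∫⁻ r in Ioi (0 : ℝ), gr a a' r =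
      ∫⁻ r in Icc (Real.exp a) (Real.exp a'), ENNReal.ofReal (1 / r) := by
    unfold gr
    rw [lintegral_indicator measurableSet_Icc, Measure.restrict_restrict measurableSet_Icc,
      inter_eq_left.2 hsub]
  have hint : IntegrableOn (fun r : ℝ => 1 / r) (Icc (Real.exp a) (Real.exp a')) := by
    refine ContinuousOn.integrableOn_Icc ?_
    refine ContinuousOn.div continuousOn_const continuousOn_id ?_
    intro r hr
    exact ne_of_gt (hsub hr)
  have hnn : 0 ≤ᵐ[volume.restrict (Icc (Real.exp a) (Real.exp a'))] fun r : ℝ => 1 / r := by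
    refine (ae_restrict_iff' measurableSet_Icc).2 (Filter.Eventually.of_forall ?_)
    intro r hr
    exact div_nonneg zero_le_one (le_of_lt (hsub hr))
  rw [e1, ← ofReal_integral_eq_lintegral_ofReal hint hnn, integral_Icc_eq_integral_Ioc,
    ← intervalIntegral.integral_of_le hle, integral_one_div_of_pos hp (Real.exp_pos a'),
    Real.log_div (Real.exp_pos a').ne' hp.ne', Real.log_exp, Real.log_exp]

/-- The integrand. -/
private def fr (a a' : ℝ) : ℂ → ENNReal :=
  {z : ℂ | a ≤ Real.log ‖z‖ ∧ Real.log ‖z‖ ≤ a' ∧ z ≠ 0}.indicator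
    fun z => ENNReal.ofReal (1 / ‖z‖ ^ 2)

private lemma set_eq (a a' : ℝ) :
    {z : ℂ | a ≤ Real.log ‖z‖ ∧ Real.log ‖z‖ ≤ a' ∧ z ≠ 0} =
      {z : ℂ | Real.exp a ≤ ‖z‖ ∧ ‖z‖ ≤ Real.exp a'} := by
  ext z
  simp only [mem_setOf_eq]
  constructor
  · rintro ⟨h1, h2, h3⟩
    have hz : 0 < ‖z‖ := norm_pos_iff.2 h3
    exact ⟨(Real.le_log_iff_exp_le hz).1 h1, (Real.log_le_iff_le_exp hz).1 h2⟩
  · rintro ⟨h1, h2⟩
    have hz : 0 < ‖z‖ := lt_of_lt_of_le (Real.exp_pos a) h1
    exact ⟨(Real.le_log_iff_exp_le hz).2 h1, (Real.log_le_iff_le_exp hz).2 h2, norm_pos_iff.1 hz⟩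

private lemma fr_pol (a a' : ℝ) (p : ℝ × ℝ) (hp : 0 < p.1) :
    ENNReal.ofReal p.1 • fr a a' (Complex.polarCoord.symm p) = gr a a' p.1 * 1 := by
  have hn : ‖(Complex.polarCoord.symm p : ℂ)‖ = p.1 := by
    rw [Complex.norm_polarCoord_symm, abs_of_pos hp]
  unfold fr gr
  rw [set_eq]
  by_cases h : Real.exp a ≤ p.1 ∧ p.1 ≤ Real.exp a'
  · rw [indicator_of_mem (show (Complex.polarCoord.symm p : ℂ) ∈
        {z : ℂ | Real.exp a ≤ ‖z‖ ∧ ‖z‖ ≤ Real.exp a'} by
          rw [mem_setOf_eq, hn]; exact h),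
      indicator_of_mem (show p.1 ∈ Icc (Real.exp a) (Real.exp a') from h), hn, smul_eq_mul,
      ← ENNReal.ofReal_mul hp.le, mul_one]
    congr 1
    field_simp
  · rw [indicator_of_notMem (show (Complex.polarCoord.symm p : ℂ) ∉
        {z : ℂ | Real.exp a ≤ ‖z‖ ∧ ‖z‖ ≤ Real.exp a'} by
          rw [mem_setOf_eq, hn]; exact h),
      indicator_of_notMem (show p.1 ∉ Icc (Real.exp a) (Real.exp a') from h), smul_zero, zero_mul]

private lemma fr_int (a a' : ℝ) (h : a ≤ a') :
    ∫⁻ z, fr a a' z = ENNReal.ofReal (2 * Real.pi * (a' - a)) := by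
  rw [← Complex.lintegral_comp_polarCoord_symm (fr a a')]
  have ht : polarCoord.target = Ioi (0 : ℝ) ×ˢ Ioo (-Real.pi) Real.pi := polarCoord_target
  have e1 : ∫⁻ p in polarCoord.target,
      ENNReal.ofReal p.1 • fr a a' (Complex.polarCoord.symm p) =
      ∫⁻ p in polarCoord.target, gr a a' p.1 * (fun _ : ℝ => (1 : ENNReal)) p.2 := by
    refine setLIntegral_congr_fun polarCoord.open_target.measurableSet ?_
    intro p hp
    rw [ht] at hp
    exact fr_pol a a' p hp.1
  rw [e1, ht, Measure.volume_eq_prod, ← Measure.prod_restrict,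
    lintegral_prod_mul (gr_meas a a').aemeasurable aemeasurable_const, gr_int a a' h,
    lintegral_const, Measure.restrict_apply MeasurableSet.univ, univ_inter, Real.volume_Ioo, one_mul,
    ← ENNReal.ofReal_mul (by linarith)]
  congr 1
  ring

end FPRi

/-- A1. The integral over a ring. -/
theorem stmtRi : StmtRi := by
  intro s a a' h
  have hm : MeasurableSet {z : ℂ | a ≤ Real.log ‖z - s‖ ∧ Real.log ‖z - s‖ ≤ a' ∧ z ≠ s} := by
    refine MeasurableSet.inter ?_ (MeasurableSet.inter ?_ ?_)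
    · exact measurableSet_le measurable_const
        (Real.measurable_log.comp (measurable_id.sub_const s).norm)
    · exact measurableSet_le (Real.measurable_log.comp (measurable_id.sub_const s).norm)
        measurable_const
    · exact (measurableSet_singleton s).compl
  rw [← lintegral_indicator hm]
  have e : ({z : ℂ | a ≤ Real.log ‖z - s‖ ∧ Real.log ‖z - s‖ ≤ a' ∧ z ≠ s}.indicator
      fun z => ENNReal.ofReal (1 / ‖z - s‖ ^ 2)) = fun z => FPRi.fr a a' (z - s) := by
    funext z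
    unfold FPRi.fr
    by_cases hz : a ≤ Real.log ‖z - s‖ ∧ Real.log ‖z - s‖ ≤ a' ∧ z ≠ s
    · rw [indicator_of_mem (show z ∈ {z : ℂ | a ≤ Real.log ‖z - s‖ ∧ Real.log ‖z - s‖ ≤ a' ∧
          z ≠ s} from hz),
        indicator_of_mem (show z - s ∈ {z : ℂ | a ≤ Real.log ‖z‖ ∧ Real.log ‖z‖ ≤ a' ∧ z ≠ 0} from
          ⟨hz.1, hz.2.1, sub_ne_zero.2 hz.2.2⟩)]
    · rw [indicator_of_notMem (show z ∉ {z : ℂ | a ≤ Real.log ‖z - s‖ ∧ Real.log ‖z - s‖ ≤ a' ∧
          z ≠ s} from hz),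
        indicator_of_notMem (show z - s ∉ {z : ℂ | a ≤ Real.log ‖z‖ ∧ Real.log ‖z‖ ≤ a' ∧ z ≠ 0} from
          fun h' => hz ⟨h'.1, h'.2.1, sub_ne_zero.1 h'.2.2⟩)]
  rw [e, lintegral_sub_right_eq_self (FPRi.fr a a') s, FPRi.fr_int a a' h]

end Pool.Agent.A640.Tate
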