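import Pool.Agent.Lib.MP_640417_ag.TATE.FP.Base
import Pool.Agent.Lib.MP_640417_ag.TATE.FP.MJ

/-!
# PROJECT TATE, package FP: the Schwarz bound at the centre
-/

set_option autoImplicit false

open Metric Set Complex

noncomputable section

namespace Pool.Agent.A640.Tate

namespace FPSc0

open FPBase

variable {V : Type} [NormedAddCommGroup V] [NormedSpace ℂ V] {ι : Type} [Fintype ι] [DecidableEq ι]

theorem G_symm (E : V →ₗ[ℝ] V →ₗ[ℝ] ℝ) (ha : ∀ u v, E u v = -E v u)
    (hi : ∀ u v, E (Complex.I • u) (Complex.I • v) = E u v) (u v : V) :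
    E (Complex.I • u) v = E (Complex.I • v) u := by
  rw [ha (Complex.I • u) v, E_I E hi, neg_neg]

theorem cs (E : V →ₗ[ℝ] V →ₗ[ℝ] ℝ) (ha : ∀ u v, E u v = -E v u)
    (hi : ∀ u v, E (Complex.I • u) (Complex.I • v) = E u v)
    (hp : ∀ v, v ≠ 0 → 0 < E (Complex.I • v) v) {M : ℝ} (hM : 0 < M) (u v : V)
    (hu : E (Complex.I • u) u ≤ M ^ 2 * E (Complex.I • v) v) :
    |E (Complex.I • v) u| ≤ M * E (Complex.I • v) v := by
  have hn : ∀ v, 0 ≤ E (Complex.I • v) v := by
    intro v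
    by_cases h : v = 0
    · rw [h, map_zero]
    · exact (hp v h).le
  have h1 : ∀ t : ℝ, E (Complex.I • (u + t • v)) (u + t • v) =
      E (Complex.I • u) u + 2 * t * E (Complex.I • v) u + t ^ 2 * E (Complex.I • v) v := by
    intro t
    have e1 : Complex.I • (u + t • v) = Complex.I • u + t • (Complex.I • v) := by
      rw [smul_add, smul_comm]
    rw [e1]
    simp only [map_add, LinearMap.add_apply, map_smul, LinearMap.smul_apply, smul_eq_mul]
    rw [G_symm E ha hi u v]
    ring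
  have h2 := hn (u + M • v)
  have h3 := hn (u + (-M) • v)
  rw [h1] at h2 h3
  rw [abs_le]
  constructor
  · have h4 : 0 ≤ 2 * M * (E (Complex.I • v) u + M * E (Complex.I • v) v) := by nlinarith
    have h5 := (mul_nonneg_iff_of_pos_left (by positivity : (0 : ℝ) < 2 * M)).1 h4
    linarith
  · have h4 : 0 ≤ 2 * M * (M * E (Complex.I • v) v - E (Complex.I • v) u) := by nlinarith
    have h5 := (mul_nonneg_iff_of_pos_left (by positivity : (0 : ℝ) < 2 * M)).1 h4
    linarith

/-- `G(v, K v)` in coordinates. -/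
theorem quad (b : Module.Basis ι ℝ V) (E : ℂ → V →ₗ[ℝ] V →ₗ[ℝ] ℝ) (τ : ℂ → (V ≃ₗ[ℝ] V)) (w0 : ℂ)
    (h1 : ∀ v, τ w0 v = v) (K : V →ₗ[ℝ] V) (x : ι → ℝ) :
    dotProduct x (Matrix.mulVec (Gm b E τ w0 * LinearMap.toMatrix b b K) x) =
      E w0 (Complex.I • ∑ k, x k • b k) (K (∑ k, x k • b k)) := by
  have hG : ∀ k l, (Gm b E τ w0 * LinearMap.toMatrix b b K) k l =
      E w0 (Complex.I • b k) (K (b l)) := by
    intro k l
    rw [Matrix.mul_apply]
    conv_rhs => rw [← b.sum_repr (K (b l))]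
    rw [map_sum]
    refine Finset.sum_congr rfl fun m _ => ?_
    rw [Gm, Matrix.of_apply, h1, h1, LinearMap.toMatrix_apply,
      LinearMap.map_smul (E w0 (Complex.I • b k)), smul_eq_mul, mul_comm]
  have h2 : Complex.I • ∑ k, x k • b k = ∑ k, x k • (Complex.I • b k) := by
    rw [Finset.smul_sum]
    exact Finset.sum_congr rfl fun m _ => smul_comm _ _ _
  rw [h2]
  simp only [dotProduct, Matrix.mulVec, hG, map_sum, LinearMap.sum_apply, map_smul,
    LinearMap.smul_apply, smul_eq_mul, Finset.mul_sum]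
  rw [Finset.sum_comm]
  refine Finset.sum_congr rfl fun m _ => Finset.sum_congr rfl fun k _ => ?_
  ring

theorem psd (b : Module.Basis ι ℝ V) (E : ℂ → V →ₗ[ℝ] V →ₗ[ℝ] ℝ) (τ : ℂ → (V ≃ₗ[ℝ] V)) (w0 : ℂ)
    (h1 : ∀ v, τ w0 v = v) (K : V →ₗ[ℝ] V) (μ : ℝ) (hG : (Gm b E τ w0).IsHermitian)
    (hK : (Gm b E τ w0 * LinearMap.toMatrix b b K).IsHermitian)
    (h : ∀ v, |E w0 (Complex.I • v) (K v)| ≤ μ * E w0 (Complex.I • v) v) :
    (μ • Gm b E τ w0 + Gm b E τ w0 * LinearMap.toMatrix b b K).PosSemidef ∧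
      (μ • Gm b E τ w0 - Gm b E τ w0 * LinearMap.toMatrix b b K).PosSemidef := by
  have hS : (μ • Gm b E τ w0).IsHermitian := by
    unfold Matrix.IsHermitian at hG ⊢
    rw [Matrix.conjTranspose_smul, hG, star_trivial]
  have hq : ∀ x : ι → ℝ, dotProduct x (Matrix.mulVec (Gm b E τ w0) x) =
      E w0 (Complex.I • ∑ k, x k • b k) (∑ k, x k • b k) := by
    intro x
    rw [E_sum, h1]
  constructor
  · refine Matrix.PosSemidef.of_dotProduct_mulVec_nonneg (hS.add hK) fun x => ?_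
    rw [star_trivial, Matrix.add_mulVec, dotProduct_add, Matrix.smul_mulVec, dotProduct_smul,
      smul_eq_mul, hq, quad b E τ w0 h1 K x]
    have := (abs_le.1 (h (∑ k, x k • b k))).1
    linarith
  · refine Matrix.PosSemidef.of_dotProduct_mulVec_nonneg (hS.sub hK) fun x => ?_
    rw [star_trivial, Matrix.sub_mulVec, dotProduct_sub, Matrix.smul_mulVec, dotProduct_smul,
      smul_eq_mul, hq, quad b E τ w0 h1 K x]
    have := (abs_le.1 (h (∑ k, x k • b k))).2
    linarith

/-- Multiplication by a complex number. -/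
def mC (a : ℂ) : V →ₗ[ℝ] V where
  toFun v := a • v
  map_add' u v := smul_add _ u v
  map_smul' c v := by
    simp only [RingHom.id_apply]
    rw [smul_comm]

/-- The derivative of the transport. -/
def Dl (τ : ℂ → (V ≃ₗ[ℝ] V)) (w0 : ℂ) (h : ∀ v, DifferentiableAt ℂ (fun w => τ w v) w0) :
    V →ₗ[ℝ] V where
  toFun v := deriv (fun w => τ w v) w0
  map_add' u v := by
    have h1 : (fun w => τ w (u + v)) = (fun w => τ w u) + fun w => τ w v := by
      funext w
      exact map_add (τ w) u v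
    rw [h1]
    exact deriv_add (h u) (h v)
  map_smul' c v := by
    have h1 : (fun w => τ w (c • v)) = fun w => (c : ℂ) • τ w v := by
      funext w
      rw [map_smul]
      rfl
    simp only [RingHom.id_apply]
    rw [h1, deriv_fun_const_smul (c : ℂ) (h v)]
    rfl

end FPSc0

open FPBase FPMJ FPSc0 in
theorem stmtSc0 (hZ : StmtZ) (hCa : StmtCa) (hBase : StmtBase) : StmtSc := by
  intro V _ _ _ d ι _ _ b U L E O w0 r τ hF hU hτ
  have hr : 0 < r := hτ.pos
  have hw0 : w0 ∈ ball w0 r := mem_ball_self hr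
  have ha := hF.alt w0 (hU hw0)
  have hi := hF.inv w0 (hU hw0)
  have hp := hF.pos w0 (hU hw0)
  have hHV := hBase V d ι b U L E O w0 r τ hF hU hτ
  have hd : ∀ v, DifferentiableAt ℂ (fun w => τ w v) w0 := fun v =>
    (hτ.hol v).differentiableAt (isOpen_ball.mem_nhds hw0)
  set D := Dl τ w0 hd with hD
  -- the derivatives of the matrix of the transport
  have hTd : ∀ (a : ℂ) k l, HasFDerivAt (fun w => TT b τ w k l)
      ((LinearMap.toContinuousLinearMap (b.coord k)).comp
        ((ContinuousLinearMap.toSpanSingleton ℂ (D (b l))).restrictScalars ℝ)) w0 := by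
    intro a k l
    have h1 : (fun z => TT b τ z k l) =
        fun z => (LinearMap.toContinuousLinearMap (b.coord k)) (τ z (b l)) := by
      funext z
      rw [TT_apply]
      rfl
    have h3 : HasFDerivAt (fun w => τ w (b l))
        ((ContinuousLinearMap.toSpanSingleton ℂ (D (b l))).restrictScalars ℝ) w0 :=
      (hd (b l)).hasDerivAt.hasFDerivAt.restrictScalars ℝ
    rw [h1]
    exact (LinearMap.toContinuousLinearMap (b.coord k)).hasFDerivAt.comp w0 h3
  have hTdd : ∀ a : ℂ, dd a (TT b τ) w0 = LinearMap.toMatrix b b (mC a ∘ₗ D) := by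
    intro a
    ext k l
    rw [dd, Matrix.of_apply, (hTd a k l).fderiv, LinearMap.toMatrix_apply]
    rfl
  have hT1 : TT b τ w0 = 1 := by
    have h1 : (τ w0).toLinearMap = LinearMap.id := LinearMap.ext fun v => hτ.one v
    rw [TT, h1, LinearMap.toMatrix_id]
  have hJ0 : Jm b τ w0 = II b := by
    rw [Jm_eq, hT1, inv_one, Matrix.one_mul, Matrix.mul_one]
  have hJd : ∀ k l, DifferentiableAt ℝ (fun w => Jm b τ w k l) w0 := fun k l =>
    ((hHV.cJ k l).contDiffAt (isOpen_ball.mem_nhds hw0)).differentiableAt (by norm_num)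
  have hprod : (fun w => TT b τ w * Jm b τ w) = fun w => II b * TT b τ w := by
    funext w
    rw [Jm_eq, ← Matrix.mul_assoc, ← Matrix.mul_assoc, Matrix.mul_nonsing_inv _ (TT_unit b τ w),
      Matrix.one_mul]
  have hJdd : ∀ a : ℂ, dd a (Jm b τ) w0 =
      LinearMap.toMatrix b b (mI V ∘ₗ (mC a ∘ₗ D) - (mC a ∘ₗ D) ∘ₗ mI V) := by
    intro a
    have h1 := dd_mul a (TT b τ) (Jm b τ) w0 (fun k l => (hTd a k l).differentiableAt) hJd
    have h2 := dd_mul a (fun _ => II b) (TT b τ) w0 (fun k l => differentiableAt_const _)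
      (fun k l => (hTd a k l).differentiableAt)
    rw [hprod, h2, dd_const, Matrix.zero_mul, zero_add, hT1, hJ0, Matrix.one_mul, hTdd] at h1
    rw [map_sub, LinearMap.toMatrix_comp b b b (mI V) (mC a ∘ₗ D),
      LinearMap.toMatrix_comp b b b (mC a ∘ₗ D) (mI V)]
    change _ = II b * _ - _ * II b
    rw [h1]
    abel
  -- the bound
  have hK1 : ∀ v, |E w0 (Complex.I • v) ((mI V ∘ₗ (mC 1 ∘ₗ D) - (mC 1 ∘ₗ D) ∘ₗ mI V) v)| ≤
        2 / r * E w0 (Complex.I • v) v ∧
      |E w0 (Complex.I • v) ((mI V ∘ₗ (mC Complex.I ∘ₗ D) - (mC Complex.I ∘ₗ D) ∘ₗ mI V) v)| ≤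
        2 / r * E w0 (Complex.I • v) v := by
    intro v
    obtain ⟨Z, hZ1, hZ2, hZ3⟩ := hZ V d U L E O w0 r τ hF hU hτ
    have hnn : 0 ≤ E w0 (Complex.I • v) v := by
      by_cases h : v = 0
      · rw [h, map_zero]
      · exact (hp v h).le
    have h1 := hCa V (E w0) w0 r (Real.sqrt (E w0 (Complex.I • v) v)) (fun w => Z w v) ha hi hp hr
      (Real.sqrt_nonneg _) (hZ1 v) (fun w hw => by
        rw [Real.sq_sqrt hnn]
        exact hZ2 w hw v)
    rw [div_pow, Real.sq_sqrt hnn] at h1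
    set B := deriv (fun w => Z w v) w0 with hB
    have hBe : B = (1 / 2 : ℂ) • (D v + Complex.I • D (Complex.I • v)) := hZ3 v
    have e1 : (mI V ∘ₗ (mC 1 ∘ₗ D) - (mC 1 ∘ₗ D) ∘ₗ mI V) v = (2 * Complex.I) • B := by
      change Complex.I • ((1 : ℂ) • D v) - (1 : ℂ) • D (Complex.I • v) = _
      rw [hBe, one_smul, one_smul, smul_smul, smul_add, smul_smul]
      have e2 : (2 * Complex.I * (1 / 2) : ℂ) = Complex.I := by ring
      have e3 : (2 * Complex.I * (1 / 2) * Complex.I : ℂ) = -1 := by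
        rw [e2, Complex.I_mul_I]
      rw [e3, e2, neg_one_smul, sub_eq_add_neg]
    have e4 : (mI V ∘ₗ (mC Complex.I ∘ₗ D) - (mC Complex.I ∘ₗ D) ∘ₗ mI V) v =
        Complex.I • ((2 * Complex.I) • B) := by
      rw [← e1]
      change Complex.I • (Complex.I • D v) - Complex.I • D (Complex.I • v) =
        Complex.I • (Complex.I • ((1 : ℂ) • D v) - (1 : ℂ) • D (Complex.I • v))
      rw [one_smul, one_smul, smul_sub]
    have e5 : E w0 (Complex.I • ((2 * Complex.I) • B)) ((2 * Complex.I) • B) =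
        4 * E w0 (Complex.I • B) B := by
      have e6 : (2 * Complex.I) • B = (2 : ℝ) • (Complex.I • B) := by
        rw [mul_smul]
        rfl
      have e7 : Complex.I • ((2 : ℝ) • (Complex.I • B)) = (2 : ℝ) • (Complex.I • (Complex.I • B)) :=
        smul_comm _ _ _
      rw [e6, e7]
      simp only [map_smul, LinearMap.smul_apply, smul_eq_mul]
      rw [hi]
      ring
    have hb : E w0 (Complex.I • ((2 * Complex.I) • B)) ((2 * Complex.I) • B) ≤
        (2 / r) ^ 2 * E w0 (Complex.I • v) v := by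
      rw [e5]
      calc 4 * E w0 (Complex.I • B) B ≤ 4 * (E w0 (Complex.I • v) v / r ^ 2) := by linarith
        _ = (2 / r) ^ 2 * E w0 (Complex.I • v) v := by ring
    have h2r : 0 < 2 / r := by positivity
    constructor
    · rw [e1]
      exact cs (E w0) ha hi hp h2r _ v hb
    · rw [e4]
      refine cs (E w0) ha hi hp h2r _ v ?_
      rw [hi]
      exact hb
  -- symmetry
  have hQs : ∀ w ∈ ball w0 r, ∀ k l, Gm b E τ w k l = Gm b E τ w l k := by
    intro w hw k l
    have h1 := (hHV.pd w hw).isHermitian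
    have h2 := congrFun (congrFun h1 l) k
    rw [Matrix.conjTranspose_apply, star_trivial] at h2
    exact h2
  have hdsym : ∀ (a : ℂ) k l, fderiv ℝ (fun w => Gm b E τ w k l) w0 a =
      fderiv ℝ (fun w => Gm b E τ w l k) w0 a := by
    intro a k l
    have h1 : (fun w => Gm b E τ w k l) =ᶠ[nhds w0] fun w => Gm b E τ w l k := by
      filter_upwards [isOpen_ball.mem_nhds hw0] with w hw
      exact hQs w hw k l
    rw [h1.fderiv_eq]
  have hx : (Gm b E τ w0 * mY (Jm b τ) w0).IsHermitian := by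
    have h1 : Gm b E τ w0 * mY (Jm b τ) w0 = -(mX (Gm b E τ) w0) := by
      rw [hHV.qx w0 hw0, neg_neg]
    rw [h1]
    refine Matrix.IsHermitian.ext fun k l => ?_
    rw [star_trivial, Matrix.neg_apply, Matrix.neg_apply]
    exact congrArg Neg.neg (hdsym 1 l k)
  have hy : (Gm b E τ w0 * mX (Jm b τ) w0).IsHermitian := by
    rw [← hHV.qy w0 hw0]
    refine Matrix.IsHermitian.ext fun k l => ?_
    rw [star_trivial]
    exact hdsym Complex.I l k
  have ey : mY (Jm b τ) w0 = LinearMap.toMatrix b b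
      (mI V ∘ₗ (mC Complex.I ∘ₗ D) - (mC Complex.I ∘ₗ D) ∘ₗ mI V) := hJdd Complex.I
  have ex : mX (Jm b τ) w0 = LinearMap.toMatrix b b
      (mI V ∘ₗ (mC 1 ∘ₗ D) - (mC 1 ∘ₗ D) ∘ₗ mI V) := hJdd 1
  have hG := (hHV.pd w0 hw0).isHermitian
  rw [ey] at hx
  rw [ex] at hy
  have hP := psd b E τ w0 hτ.one _ (2 / r) hG hx fun v => (hK1 v).2
  have hP' := psd b E τ w0 hτ.one _ (2 / r) hG hy fun v => (hK1 v).1
  refine ⟨by positivity, (hHV.pd w0 hw0).posSemidef, ?_, ?_, ?_, ?_⟩
  · rw [ey]; exact hP.1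
  · rw [ey]; exact hP.2
  · rw [ex]; exact hP'.1
  · rw [ex]; exact hP'.2

end Pool.Agent.A640.Tate
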