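import Pool.Agent.Lib.MP_640417_ag.TATE.FP.Defs

/-!
# PROJECT TATE, package FP: the statements

Notation: `V` complex of finite dimension, `b` a real basis of `V`, `E(u,v)` Riemann form, `G(u,v) = E(iu,v)`.
-/

set_option autoImplicit false

open Metric Set Complex

noncomputable section

namespace Pool.Agent.A640.Tate

open scoped Kronecker

/-! ## T: transports -/

/-- T1. Change of the base point. (`psh (f ∘ g) = psh f ∘ psh g`.) -/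
def StmtReb : Prop :=
  ∀ (V : Type) [NormedAddCommGroup V] [NormedSpace ℂ V] [FiniteDimensional ℂ V] (d : ℕ)
    (L : ℂ → Set V) (E : ℂ → V →ₗ[ℝ] V →ₗ[ℝ] ℝ) (O : ℂ → Set (Cl V d)) (w0 : ℂ) (r : ℝ)
    (τ : ℂ → (V ≃ₗ[ℝ] V)), IsTr L E O w0 r τ → ∀ w1 ∈ ball w0 r, ∀ r1 > 0, ball w1 r1 ⊆ ball w0 r →
      IsTr L E O w1 r1 (fun w => (τ w1).symm.trans (τ w))

/-- T2. Pull back of a family under a holomorphic map. -/
def StmtPb : Prop :=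
  ∀ (V : Type) [NormedAddCommGroup V] [NormedSpace ℂ V] [FiniteDimensional ℂ V] (d : ℕ)
    (L : ℂ → Set V) (E : ℂ → V →ₗ[ℝ] V →ₗ[ℝ] ℝ) (O : ℂ → Set (Cl V d)) (U U' : Set ℂ) (q : ℂ → ℂ),
    IsFm U L E O → IsOpen U' → DifferentiableOn ℂ q U' → MapsTo q U' U →
      IsFm U' (fun w => L (q w)) (fun w => E (q w)) (fun w => O (q w))

/-- T3. Uniqueness: `σ⁻¹ σ'` is continuous and maps the countable set `L0` to itself. -/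
def StmtUq : Prop :=
  ∀ (V : Type) [NormedAddCommGroup V] [NormedSpace ℂ V] [FiniteDimensional ℂ V] (W : Set ℂ)
    (L0 : Set V) (Lw : ℂ → Set V) (σ σ' : ℂ → (V ≃ₗ[ℝ] V)), IsPreconnected W → L0.Countable →
    Submodule.span ℝ L0 = ⊤ → (∀ w ∈ W, σ w '' L0 = Lw w) → (∀ w ∈ W, σ' w '' L0 = Lw w) →
    (∀ v, ContinuousOn (fun w => σ w v) W) → (∀ v, ContinuousOn (fun w => σ' w v) W) →
    ∀ w1 ∈ W, (∀ v, σ w1 v = σ' w1 v) → ∀ w ∈ W, ∀ v, σ w v = σ' w v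

/-- T4. A uniform radius (compactness of the closed ball of radius `r'`, T1). -/
def StmtUni : Prop :=
  ∀ (V : Type) [NormedAddCommGroup V] [NormedSpace ℂ V] [FiniteDimensional ℂ V] (d : ℕ)
    (L : ℂ → Set V) (E : ℂ → V →ₗ[ℝ] V →ₗ[ℝ] ℝ) (O : ℂ → Set (Cl V d)) (w0 : ℂ) (r r' : ℝ),
    IsFm (ball w0 r) L E O → 0 < r' → r' < r → ∃ ε > 0, ∀ w1 ∈ ball w0 r', ball w1 ε ⊆ ball w0 r ∧
      ∃ τ : ℂ → (V ≃ₗ[ℝ] V), IsTr L E O w1 ε τ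

/-- T5. The extension step. For `w ∈ ball w0 (ρ + ε)` choose `w1 ∈ ball w0 ρ` with `|w - w1| < ε` and put
`τ' w = τ1 w ∘ τ w1`. Two choices `w1, w2` agree on the convex set `ball w1 ε ∩ ball w2 ε` by T3, because
they agree at the midpoint `m` of `w1, w2`, which is in `ball w0 ρ`: `τ1 m ∘ τ w1 = τ m` by T3 on
`ball w1 ε ∩ ball w0 ρ`. -/
def StmtExt : Prop :=
  ∀ (V : Type) [NormedAddCommGroup V] [NormedSpace ℂ V] [FiniteDimensional ℂ V] (d : ℕ)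
    (L : ℂ → Set V) (E : ℂ → V →ₗ[ℝ] V →ₗ[ℝ] ℝ) (O : ℂ → Set (Cl V d)) (w0 : ℂ) (ρ ε : ℝ)
    (τ : ℂ → (V ≃ₗ[ℝ] V)), 0 < ε → (L w0).Countable → Submodule.span ℝ (L w0) = ⊤ →
    IsTr L E O w0 ρ τ → (∀ w1 ∈ ball w0 ρ, ∃ τ1 : ℂ → (V ≃ₗ[ℝ] V), IsTr L E O w1 ε τ1) →
    ∃ τ' : ℂ → (V ≃ₗ[ℝ] V), IsTr L E O w0 (ρ + ε) τ'

/-- T6. Transport on a disc (T4, T5). -/
def StmtDisc : Prop :=
  ∀ (V : Type) [NormedAddCommGroup V] [NormedSpace ℂ V] [FiniteDimensional ℂ V] (d : ℕ)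
    (L : ℂ → Set V) (E : ℂ → V →ₗ[ℝ] V →ₗ[ℝ] ℝ) (O : ℂ → Set (Cl V d)) (w0 : ℂ) (r r' : ℝ),
    IsFm (ball w0 r) L E O → 0 < r' → r' < r → ∃ τ : ℂ → (V ≃ₗ[ℝ] V), IsTr L E O w0 r' τ

/-! ## B: the harmonic map of a transport -/

/-- B1. `J = T⁻¹ I T` with `T_y = I T_x`: `J_y = J J_x`. -/
def StmtMJ : Prop :=
  ∀ (ι : Type) [Fintype ι] [DecidableEq ι] (U : Set ℂ) (T : ℂ → Matrix ι ι ℝ) (I0 : Matrix ι ι ℝ),
    IsOpen U → (∀ i j, ContDiffOn ℝ 2 (fun z => T z i j) U) → (∀ z ∈ U, IsUnit (T z).det) →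
    I0 * I0 = -1 → (∀ z ∈ U, mY T z = I0 * mX T z) →
    (∀ i j, ContDiffOn ℝ 2 (fun z => ((T z)⁻¹ * I0 * T z) i j) U) ∧
      ∀ z ∈ U, mY (fun z => (T z)⁻¹ * I0 * T z) z =
        ((T z)⁻¹ * I0 * T z) * mX (fun z => (T z)⁻¹ * I0 * T z) z

/-- B2. `Q = -E J`, `J² = -1`, `J^T E J = E`, `J_y = J J_x`: `Q_x = -Q J_y`, `Q_y = Q J_x`. -/
def StmtGQ : Prop :=
  ∀ (ι : Type) [Fintype ι] [DecidableEq ι] (U : Set ℂ) (Q J : ℂ → Matrix ι ι ℝ) (E0 : Matrix ι ι ℝ),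
    IsOpen U → (∀ i j, ContDiffOn ℝ 2 (fun z => J z i j) U) → (∀ z ∈ U, J z * J z = -1) →
    (∀ z ∈ U, mY J z = J z * mX J z) → (∀ z ∈ U, Q z = -(E0 * J z)) → (∀ z ∈ U, (Q z).PosDef) →
    HV U Q J

/-- B3. The Gram matrix of a transport. (`T = ` matrix of `τ z`, `T_y = I0 T_x` as `τ` is holomorphic; B1,
B2 with `E0 k l = E w0 (b k) (b l)`.) -/
def StmtBase : Prop :=
  ∀ (V : Type) [NormedAddCommGroup V] [NormedSpace ℂ V] [FiniteDimensional ℂ V] (d : ℕ)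
    (ι : Type) [Fintype ι] [DecidableEq ι] (b : Module.Basis ι ℝ V) (U : Set ℂ)
    (L : ℂ → Set V) (E : ℂ → V →ₗ[ℝ] V →ₗ[ℝ] ℝ) (O : ℂ → Set (Cl V d)) (w0 : ℂ) (r : ℝ)
    (τ : ℂ → (V ≃ₗ[ℝ] V)), IsFm U L E O → ball w0 r ⊆ U → IsTr L E O w0 r τ →
    HV (ball w0 r) (Gm b E τ) (Jm b τ)

/-! ## K: tensor powers -/

/-- K1. Kronecker products. -/
def StmtKr : Prop :=
  ∀ (κ κ' : Type) [Fintype κ] [DecidableEq κ] [Fintype κ'] [DecidableEq κ'] (U : Set ℂ)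
    (Q J : ℂ → Matrix κ κ ℝ) (Q' J' : ℂ → Matrix κ' κ' ℝ), HV U Q J → HV U Q' J' →
    HV U (fun z => Q z ⊗ₖ Q' z) (fun z => J z ⊗ₖ 1 + 1 ⊗ₖ J' z)

/-- K2. The bound for Kronecker products (`Matrix.PosSemidef.kronecker`). -/
def StmtKb : Prop :=
  ∀ (κ κ' : Type) [Fintype κ] [DecidableEq κ] [Fintype κ'] [DecidableEq κ'] (U : Set ℂ)
    (Q J : ℂ → Matrix κ κ ℝ) (Q' J' : ℂ → Matrix κ' κ' ℝ), HV U Q J → HV U Q' J' → ∀ z ∈ U,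
    ∀ μ μ' : ℝ, HB Q J z μ → HB Q' J' z μ' →
    HB (fun z => Q z ⊗ₖ Q' z) (fun z => J z ⊗ₖ 1 + 1 ⊗ₖ J' z) z (μ + μ')

/-- K3. Tensor powers (induction on `d`, K1, K2, reindexing `(Fin (d+1) → ι) ≃ ι × (Fin d → ι)`). -/
def StmtPw : Prop :=
  ∀ (ι : Type) [Fintype ι] [DecidableEq ι] (d : ℕ) (U : Set ℂ) (Q J : ℂ → Matrix ι ι ℝ), HV U Q J →
    HV U (fun z => Qd d (Q z)) (fun z => Jd d (J z)) ∧
    ∀ z ∈ U, ∀ μ : ℝ, HB Q J z μ → HB (fun z => Qd d (Q z)) (fun z => Jd d (J z)) z (d * μ)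

/-! ## U: the function log (1 + h) -/

/-- U1. First derivatives. `h_x = -∑ c^T Q J_y c`, `h_y = ∑ c^T Q J_x c`. -/
def StmtHx : Prop :=
  ∀ (κ : Type) [Fintype κ] [DecidableEq κ] (U : Set ℂ) (Q J : ℂ → Matrix κ κ ℝ) (m : ℕ)
    (c : Fin m → κ → ℝ), HV U Q J →
    ContDiffOn ℝ 2 (fun z => Real.log (1 + hh Q c z)) U ∧ ∀ z ∈ U, 0 ≤ hh Q c z ∧
      px (fun z => Real.log (1 + hh Q c z)) z =
        -(∑ j, dotProduct (c j) (Matrix.mulVec (Q z * mY J z) (c j))) / (1 + hh Q c z) ∧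
      py (fun z => Real.log (1 + hh Q c z)) z =
        (∑ j, dotProduct (c j) (Matrix.mulVec (Q z * mX J z) (c j))) / (1 + hh Q c z)

/-- U2. `Δ log (1 + h) ≥ 0`, and if it is `0` then `J_x c_j = J_y c_j = 0`. With `X = -J_y`, `Y = J_x`
(`X_x + Y_y = 0`, because `J` is `C²`): `(h_x)_x + (h_y)_y = ∑ |X c|² + |Y c|²` (norms for `Q`) and
`h_x² ≤ h ∑ |X c|²`, so `Δ log (1 + h) ≥ ∑ (|X c|² + |Y c|²) / (1 + h)²`. -/
def StmtLap : Prop :=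
  ∀ (κ : Type) [Fintype κ] [DecidableEq κ] (U : Set ℂ) (Q J : ℂ → Matrix κ κ ℝ) (m : ℕ)
    (c : Fin m → κ → ℝ), HV U Q J → ∀ z ∈ U,
    0 ≤ px (px fun z => Real.log (1 + hh Q c z)) z + py (py fun z => Real.log (1 + hh Q c z)) z ∧
    (px (px fun z => Real.log (1 + hh Q c z)) z + py (py fun z => Real.log (1 + hh Q c z)) z = 0 →
      ∀ j, Matrix.mulVec (mX J z) (c j) = 0 ∧ Matrix.mulVec (mY J z) (c j) = 0)

/-- U3. The gradient bound (U1). -/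
def StmtGb : Prop :=
  ∀ (κ : Type) [Fintype κ] [DecidableEq κ] (U : Set ℂ) (Q J : ℂ → Matrix κ κ ℝ) (m : ℕ)
    (c : Fin m → κ → ℝ), HV U Q J → ∀ z ∈ U, ∀ μ : ℝ, HB Q J z μ →
    |px (fun z => Real.log (1 + hh Q c z)) z| ≤ μ ∧ |py (fun z => Real.log (1 + hh Q c z)) z| ≤ μ

/-! ## S: the Schwarz lemma -/

/-- S1. `τ w = A w (1 + Z w)`, `A w` complex linear (the complex linear part of `τ w`), `Z w` antilinear and
holomorphic in `w`, `|Z w v| ≤ |v|` for the norm `G(v,v) = E w0 (iv) v`. Here `A w v = (τ v - i τ (iv)) / 2`,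
`B w v = (τ v + i τ (iv)) / 2`; `A w` is injective: if `A w v = 0` then `τ (iv) = -i τ v`, so
`0 ≤ E w (i τ v) (τ v) = -E w0 (iv) v`. `Z w = (A w)⁻¹ B w`. For `t` and `y = t - Z t` one has
`i τ y = τ (i (t + Z t))`, so `0 ≤ E w (i τ y) (τ y) = E w0 (i (t + Z t)) (t - Z t) = G(t,t) - G(Zt,Zt)`.
At `w0`: `A = 1`, `B = 0`, so the derivative of `Z w v` is that of `B w v`. -/
def StmtZ : Prop :=
  ∀ (V : Type) [NormedAddCommGroup V] [NormedSpace ℂ V] [FiniteDimensional ℂ V] (d : ℕ) (U : Set ℂ)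
    (L : ℂ → Set V) (E : ℂ → V →ₗ[ℝ] V →ₗ[ℝ] ℝ) (O : ℂ → Set (Cl V d)) (w0 : ℂ) (r : ℝ)
    (τ : ℂ → (V ≃ₗ[ℝ] V)), IsFm U L E O → ball w0 r ⊆ U → IsTr L E O w0 r τ →
    ∃ Z : ℂ → V → V, (∀ v, DifferentiableOn ℂ (fun w => Z w v) (ball w0 r)) ∧
      (∀ w ∈ ball w0 r, ∀ v, E w0 (Complex.I • Z w v) (Z w v) ≤ E w0 (Complex.I • v) v) ∧
      ∀ v, deriv (fun w => Z w v) w0 = (1 / 2 : ℂ) • (deriv (fun w => τ w v) w0 +
        Complex.I • deriv (fun w => τ w (Complex.I • v)) w0)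

/-- S2. Cauchy's estimate for the norm `G(v,v) = E (iv) v` (scalar Cauchy for `G(f,u) - i G(if,u)`,
`u = f'(w0)`, and Cauchy-Schwarz). -/
def StmtCa : Prop :=
  ∀ (V : Type) [NormedAddCommGroup V] [NormedSpace ℂ V] [FiniteDimensional ℂ V]
    (E : V →ₗ[ℝ] V →ₗ[ℝ] ℝ) (w0 : ℂ) (r M : ℝ) (f : ℂ → V), (∀ u v, E u v = -E v u) →
    (∀ u v, E (Complex.I • u) (Complex.I • v) = E u v) → (∀ v, v ≠ 0 → 0 < E (Complex.I • v) v) →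
    0 < r → 0 ≤ M → DifferentiableOn ℂ f (ball w0 r) →
    (∀ w ∈ ball w0 r, E (Complex.I • f w) (f w) ≤ M ^ 2) →
    E (Complex.I • deriv f w0) (deriv f w0) ≤ (M / r) ^ 2

/-- S3. At the centre: `J_x v = 2 i B' v` (`B' v` the derivative in S1), `J_y = i J_x`, so
`|G(v, J_x v)| ≤ (2 / r) G(v, v)`, the same for `J_y`. -/
def StmtSc : Prop :=
  ∀ (V : Type) [NormedAddCommGroup V] [NormedSpace ℂ V] [FiniteDimensional ℂ V] (d : ℕ)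
    (ι : Type) [Fintype ι] [DecidableEq ι] (b : Module.Basis ι ℝ V) (U : Set ℂ)
    (L : ℂ → Set V) (E : ℂ → V →ₗ[ℝ] V →ₗ[ℝ] ℝ) (O : ℂ → Set (Cl V d)) (w0 : ℂ) (r : ℝ)
    (τ : ℂ → (V ≃ₗ[ℝ] V)), IsFm U L E O → ball w0 r ⊆ U → IsTr L E O w0 r τ →
    HB (Gm b E τ) (Jm b τ) w0 (2 / r)

/-! ## N: the Hodge norm in flat coordinates -/

/-- N1. Coordinates of the image of a class. -/
def StmtCo : Prop :=
  ∀ (V : Type) [NormedAddCommGroup V] [NormedSpace ℂ V] (d : ℕ) (ι : Type) [Fintype ι] [DecidableEq ι]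
    (b : Module.Basis ι ℝ V) (τ : V →ₗ[ℝ] V) (c : Cl V d) (K : Fin d → ι),
    co b (psh τ c) K = ∑ K' : Fin d → ι, ((∏ i, b.coord (K i) (τ (b (K' i))) : ℝ) : ℂ) * co b c K'

/-- N2. The Hodge norm in flat coordinates. -/
def StmtHn : Prop :=
  ∀ (V : Type) [NormedAddCommGroup V] [NormedSpace ℂ V] (d : ℕ) (ι : Type) [Fintype ι] [DecidableEq ι]
    (b : Module.Basis ι ℝ V) (E : ℂ → V →ₗ[ℝ] V →ₗ[ℝ] ℝ) (τ : ℂ → (V ≃ₗ[ℝ] V)) (z : ℂ) (c : Cl V d),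
    hn b (E z) (psh (τ z).toLinearMap c) = hh (fun z => Qd d (Gm b E τ z)) (cc b c) z

/-- N3. The local formula for `uu` (N2; `psh` of an isomorphism is injective). -/
def StmtUf : Prop :=
  ∀ (V : Type) [NormedAddCommGroup V] [NormedSpace ℂ V] [FiniteDimensional ℂ V] (d : ℕ)
    (ι : Type) [Fintype ι] [DecidableEq ι] (b : Module.Basis ι ℝ V)
    (L : ℂ → Set V) (E : ℂ → V →ₗ[ℝ] V →ₗ[ℝ] ℝ) (O : ℂ → Set (Cl V d)) (w0 : ℂ) (r : ℝ)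
    (τ : ℂ → (V ≃ₗ[ℝ] V)), (O w0).Finite → IsTr L E O w0 r τ →
    ∃ (m : ℕ) (c : Fin m → (Fin d → ι) → ℝ),
      (∀ z ∈ ball w0 r, uu b E O z = Real.log (1 + hh (fun z => Qd d (Gm b E τ z)) c z)) ∧
      ∀ c0 ∈ O w0, ∀ l : Fin 2, ∃ j, c j = cc b c0 l

/-- N4. The derivation in coordinates. -/
def StmtDk : Prop :=
  ∀ (V : Type) [NormedAddCommGroup V] [NormedSpace ℂ V] (d : ℕ) (ι : Type) [Fintype ι] [DecidableEq ι]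
    (b : Module.Basis ι ℝ V) (X : V →ₗ[ℝ] V) (c : Cl V d) (K : Fin d → ι),
    dact X c (fun i => cf b (K i)) =
      ∑ K' : Fin d → ι, ((Jd d (Matrix.of fun k l => b.coord k (X (b l))) K K' : ℝ) : ℂ) * co b c K'

/-- N5. `dact` is multilinear in `a`, so it is determined by its values on the basis. -/
def StmtDm : Prop :=
  ∀ (V : Type) [NormedAddCommGroup V] [NormedSpace ℂ V] (d : ℕ) (ι : Type) [Fintype ι] [DecidableEq ι]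
    (b : Module.Basis ι ℝ V) (X X' : V →ₗ[ℝ] V) (c : Cl V d),
    (∀ K : Fin d → ι, dact X c (fun i => cf b (K i)) = dact X' c (fun i => cf b (K i))) →
    ∀ a, dact X c a = dact X' c a

/-! ## G: growth at the punctures -/

/-- G1. The gradient at the centre of a disc (T6 with `r / 2`, S3, B3, K3, N3, U3). -/
def StmtGr : Prop :=
  ∀ (V : Type) [NormedAddCommGroup V] [NormedSpace ℂ V] [FiniteDimensional ℂ V] (d : ℕ)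
    (ι : Type) [Fintype ι] [DecidableEq ι] (b : Module.Basis ι ℝ V)
    (L : ℂ → Set V) (E : ℂ → V →ₗ[ℝ] V →ₗ[ℝ] ℝ) (O : ℂ → Set (Cl V d)) (w0 : ℂ) (r : ℝ), 0 < r →
    IsFm (ball w0 r) L E O → |px (uu b E O) w0| ≤ 4 * d / r ∧ |py (uu b E O) w0| ≤ 4 * d / r

/-- G2. `uu` is `C²` (N3, B3, K3, U1). -/
def StmtC2 : Prop :=
  ∀ (V : Type) [NormedAddCommGroup V] [NormedSpace ℂ V] [FiniteDimensional ℂ V] (d : ℕ)
    (ι : Type) [Fintype ι] [DecidableEq ι] (b : Module.Basis ι ℝ V) (U : Set ℂ)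
    (L : ℂ → Set V) (E : ℂ → V →ₗ[ℝ] V →ₗ[ℝ] ℝ) (O : ℂ → Set (Cl V d)), IsOpen U →
    IsFm U L E O → ContDiffOn ℝ 2 (uu b E O) U ∧
      ∀ z ∈ U, 0 ≤ px (px (uu b E O)) z + py (py (uu b E O)) z

/-- G3. Growth at a puncture `s`: pull back under `q(w) = s + e^w` on the half plane `Re w < log ρ`
(T2, G1 on `ball w0 (log ρ - Re w0)`, `e^w0 = z - s`, `q'(w0) = z - s`). -/
def StmtPu : Prop :=
  ∀ (V : Type) [NormedAddCommGroup V] [NormedSpace ℂ V] [FiniteDimensional ℂ V] (d : ℕ)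
    (ι : Type) [Fintype ι] [DecidableEq ι] (b : Module.Basis ι ℝ V) (s : ℂ) (ρ : ℝ)
    (L : ℂ → Set V) (E : ℂ → V →ₗ[ℝ] V →ₗ[ℝ] ℝ) (O : ℂ → Set (Cl V d)), 0 < ρ →
    IsFm (ball s ρ \ {s}) L E O → ∀ z, 0 < ‖z - s‖ → ‖z - s‖ < ρ →
    |px (uu b E O) z| ≤ 8 * d / (‖z - s‖ * (Real.log ρ - Real.log ‖z - s‖)) ∧
    |py (uu b E O) z| ≤ 8 * d / (‖z - s‖ * (Real.log ρ - Real.log ‖z - s‖))

/-- G4. Growth at infinity: `q(w) = e^(-w)` on the half plane `Re w < -log R`. -/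
def StmtPi : Prop :=
  ∀ (V : Type) [NormedAddCommGroup V] [NormedSpace ℂ V] [FiniteDimensional ℂ V] (d : ℕ)
    (ι : Type) [Fintype ι] [DecidableEq ι] (b : Module.Basis ι ℝ V) (R : ℝ)
    (L : ℂ → Set V) (E : ℂ → V →ₗ[ℝ] V →ₗ[ℝ] ℝ) (O : ℂ → Set (Cl V d)), 0 < R →
    IsFm {z | R < ‖z‖} L E O → ∀ z : ℂ, R < ‖z‖ →
    |px (uu b E O) z| ≤ 8 * d / (‖z‖ * (Real.log ‖z‖ - Real.log R)) ∧
    |py (uu b E O) z| ≤ 8 * d / (‖z‖ * (Real.log ‖z‖ - Real.log R))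

/-! ## A: a Liouville theorem -/

/-- A1. The integral over a ring. -/
def StmtRi : Prop :=
  ∀ (s : ℂ) (a a' : ℝ), a ≤ a' →
    ∫⁻ z in {z : ℂ | a ≤ Real.log ‖z - s‖ ∧ Real.log ‖z - s‖ ≤ a' ∧ z ≠ s},
      ENNReal.ofReal (1 / ‖z - s‖ ^ 2) = ENNReal.ofReal (2 * Real.pi * (a' - a))

/-- A2. The cutoff functions: smooth, compactly supported in `ℂ ∖ F`, eventually `1` near a given point of
`ℂ ∖ F`; bounds for the derivatives. -/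
def StmtChi : Prop :=
  ∀ F : Finset ℂ, (∀ n : ℕ, 0 < n → ContDiff ℝ 1 (chi F n) ∧ HasCompactSupport (chi F n) ∧
      tsupport (chi F n) ⊆ {z | z ∉ F} ∧ ∀ z, 0 ≤ chi F n z ∧ chi F n z ≤ 1) ∧
    (∀ z0 ∉ F, ∃ ρ > 0, ∃ N : ℕ, ∀ n ≥ N, ∀ z ∈ ball z0 ρ, chi F n z = 1) ∧
    ∃ K : ℝ, 0 ≤ K ∧ ∀ n : ℕ, 0 < n → ∀ z ∉ F, ∀ v : ℂ, ‖v‖ ≤ 1 → |fderiv ℝ (chi F n) z v| ≤
      K / n * ((if (n : ℝ) ≤ Real.log ‖z‖ ∧ Real.log ‖z‖ ≤ 2 * n then 1 / ‖z‖ else 0) +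
        ∑ s ∈ F, if (n : ℝ) ≤ -Real.log ‖z - s‖ ∧ -Real.log ‖z - s‖ ≤ 2 * n then 1 / ‖z - s‖ else 0)

/-- A3. A function with compact support has integral of the partial derivatives `0`. -/
def StmtIp : Prop :=
  ∀ (f : ℂ → ℝ) (v : ℂ), ContDiff ℝ 1 f → HasCompactSupport f → ∫ z, fderiv ℝ f z v = 0

/-- A3a. The boundary terms tend to `0`: by A2 the integral is at most `K / n` times the sum over `s ∈ F ∪ {∞}`
of the integral over the ring `n ≤ ∓ log |z - s| ≤ 2 n` of `|z - s|⁻¹ |p|`, where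
`|p| ≤ 2 C / (|z - s| n)`, and the integral of `|z - s|⁻²` over the ring is `2 π n` (A1). -/
def StmtLb : Prop :=
  ∀ (F : Finset ℂ) (p : ℂ → ℝ), ContinuousOn p {z | z ∉ F} →
    (∀ s ∈ F, ∃ C ρ : ℝ, 0 < ρ ∧ ∀ z, 0 < ‖z - s‖ → ‖z - s‖ < ρ →
      |p z| ≤ C / (‖z - s‖ * (Real.log ρ - Real.log ‖z - s‖))) →
    (∃ C R : ℝ, 0 < R ∧ ∀ z : ℂ, R < ‖z‖ →
      |p z| ≤ C / (‖z‖ * (Real.log ‖z‖ - Real.log R))) →
    ∀ v : ℂ, ‖v‖ ≤ 1 → ∃ (C : ℝ) (N : ℕ), ∀ n ≥ N, |∫ z, fderiv ℝ (chi F n) z v * p z| ≤ C / n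

/-- A4. The Liouville theorem: a subharmonic function on `ℂ ∖ F` with `|∇u| ≤ C / (r log r)` at the
punctures is harmonic (A2, A3, A3a: `∫ χ Δu = -∫ ∇χ ∇u → 0`, `χ = 1` near a given point). -/
def StmtLi : Prop :=
  ∀ (F : Finset ℂ) (u : ℂ → ℝ), ContDiffOn ℝ 2 u {z | z ∉ F} →
    (∀ z ∉ F, 0 ≤ px (px u) z + py (py u) z) →
    (∀ s ∈ F, ∃ C ρ : ℝ, 0 < ρ ∧ ∀ z, 0 < ‖z - s‖ → ‖z - s‖ < ρ →
      |px u z| ≤ C / (‖z - s‖ * (Real.log ρ - Real.log ‖z - s‖)) ∧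
      |py u z| ≤ C / (‖z - s‖ * (Real.log ρ - Real.log ‖z - s‖))) →
    (∃ C R : ℝ, 0 < R ∧ ∀ z : ℂ, R < ‖z‖ →
      |px u z| ≤ C / (‖z‖ * (Real.log ‖z‖ - Real.log R)) ∧
      |py u z| ≤ C / (‖z‖ * (Real.log ‖z‖ - Real.log R))) →
    ∀ z ∉ F, px (px u) z + py (py u) z = 0

/-! ## F: the end -/

/-- F1. If `Δ uu = 0` on the ball then `J c` is flat. (`c j = cc b c0 l` of N3: U2 for the power K3 of B3
gives `mX, mY` of `Jd d (Jm b τ z)` kill `c j`, so `Jd d (Jm b τ z) *ᵥ c j` is constant on the ball; N4, N5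
with `X = (τ z)⁻¹ ∘ i ∘ τ z` and `X' = i`; `dact i (psh τ c) a = dact X c (a ∘ τ)`.) -/
def StmtFl : Prop :=
  ∀ (V : Type) [NormedAddCommGroup V] [NormedSpace ℂ V] [FiniteDimensional ℂ V] (d : ℕ)
    (ι : Type) [Fintype ι] [DecidableEq ι] (b : Module.Basis ι ℝ V) (U : Set ℂ)
    (L : ℂ → Set V) (E : ℂ → V →ₗ[ℝ] V →ₗ[ℝ] ℝ) (O : ℂ → Set (Cl V d)) (z0 : ℂ) (r : ℝ)
    (τ : ℂ → (V ≃ₗ[ℝ] V)), IsFm U L E O → ball z0 r ⊆ U → IsTr L E O z0 r τ →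
    (∀ z ∈ ball z0 r, px (px (uu b E O)) z + py (py (uu b E O)) z = 0) →
    ∀ c ∈ O z0, ∀ z ∈ ball z0 r, ∀ a,
      dact (mI V) (psh (τ z).toLinearMap c) a = dact (mI V) c (fun i => a i ∘ₗ (τ z).toLinearMap)

end Pool.Agent.A640.Tate
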