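import Pool.Agent.Lib.MP_640417_ag.TATE.FP.Spec

/-!
# The local formula for `uu`
-/

set_option autoImplicit false

open Metric Set Complex

noncomputable section

namespace Pool.Agent.A640.Tate

namespace FPUf

variable {V : Type} [NormedAddCommGroup V] [NormedSpace ℂ V] {d : ℕ}

theorem psh_symm (τ : V ≃ₗ[ℝ] V) (c : Cl V d) (a : Fin d → (V →ₗ[ℝ] ℂ)) :
    psh τ.toLinearMap c (fun i => a i ∘ₗ τ.symm.toLinearMap) = c a := by
  have h : (fun i => rpull τ.toLinearMap (a i ∘ₗ τ.symm.toLinearMap)) = a := by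
    funext i
    ext v
    simp [rpull]
  change c (fun i => rpull τ.toLinearMap (a i ∘ₗ τ.symm.toLinearMap)) = c a
  rw [h]

theorem psh_inj (τ : V ≃ₗ[ℝ] V) : Function.Injective (psh τ.toLinearMap : Cl V d → Cl V d) := by
  intro c c' h
  apply AlternatingMap.ext
  intro a
  rw [← psh_symm τ c a, ← psh_symm τ c' a, h]

end FPUf

theorem stmtUf (hHn : StmtHn) : StmtUf := by
  classical
  intro V _ _ _ d ι _ _ b L E O w0 r τ hO hτ
  let S : Finset (Cl V d) := hO.toFinset
  let e : Fin (Fintype.card (S × Fin 2)) ≃ S × Fin 2 := (Fintype.equivFin _).symm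
  refine ⟨_, fun j => cc b ((e j).1 : Cl V d) (e j).2, fun z hz => ?_, fun c0 hc0 l => ?_⟩
  · have h1 : ∑ᶠ c ∈ O z, hn b (E z) c = hh (fun z => Qd d (Gm b E τ z))
        (fun j => cc b ((e j).1 : Cl V d) (e j).2) z := by
      rw [← hτ.orb z hz, finsum_mem_image (FPUf.psh_inj (τ z)).injOn,
        finsum_mem_eq_finite_toFinset_sum _ hO]
      unfold hh
      rw [e.sum_comp (fun p : S × Fin 2 => dotProduct (cc b (p.1 : Cl V d) p.2)
        (Matrix.mulVec (Qd d (Gm b E τ z)) (cc b (p.1 : Cl V d) p.2))), Fintype.sum_prod_type,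
        Finset.sum_coe_sort S (fun x : Cl V d => ∑ l : Fin 2, dotProduct (cc b x l)
          (Matrix.mulVec (Qd d (Gm b E τ z)) (cc b x l)))]
      refine Finset.sum_congr rfl fun c _ => ?_
      rw [hHn V d ι b E τ z c]
      rfl
    unfold uu
    rw [h1]
  · refine ⟨e.symm (⟨c0, hO.mem_toFinset.2 hc0⟩, l), ?_⟩
    dsimp only
    rw [Equiv.apply_symm_apply]

end Pool.Agent.A640.Tate
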