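import Pool.Agent.Lib.MP_640417_ag.TATE.FP.Spec

/-!
# PROJECT TATE, package FP: T4, a uniform radius
-/

set_option autoImplicit false

open Metric Set Complex

noncomputable section

namespace Pool.Agent.A640.Tate

/-- T4. A uniform radius (Lebesgue number of the compact closed ball, T1). -/
theorem stmtUni (hReb : StmtReb) : StmtUni := by
  intro V _ _ _ d L E O w0 r r' hF _ hr
  have hK : IsCompact (closedBall w0 r') := isCompact_closedBall w0 r'
  have hsub : closedBall w0 r' ⊆ ball w0 r := closedBall_subset_ball hr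
  choose! ρ τ hρ using hF.loc
  obtain ⟨ε, hε, h⟩ := lebesgue_number_lemma_of_metric
    (c := fun z : {z // z ∈ ball w0 r} => ball z.1 (ρ z.1)) hK (fun _ => isOpen_ball) (by
      intro z hz
      rw [mem_iUnion]
      exact ⟨⟨z, hsub hz⟩, mem_ball_self (hρ z (hsub hz)).2.pos⟩)
  refine ⟨ε, hε, fun w1 hw1 => ?_⟩
  obtain ⟨⟨z, hz⟩, hz'⟩ := h w1 (ball_subset_closedBall hw1)
  have h1 : ball w1 ε ⊆ ball z (ρ z) := hz'
  exact ⟨h1.trans (hρ z hz).1, _, hReb V d L E O z (ρ z) (τ z) (hρ z hz).2 w1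
    (h1 (mem_ball_self hε)) ε hε h1⟩

end Pool.Agent.A640.Tate
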