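import Pool.Agent.Lib.MP_640417_ag.TATE.FP.Spec

/-!
# PROJECT TATE, package FP: uniqueness of the transport
-/

set_option autoImplicit false

open Metric Set Complex

noncomputable section

namespace Pool.Agent.A640.Tate

/-- T3. -/
theorem stmtUq0 : StmtUq := by
  intro V _ _ _ W L0 Lw σ σ' hW hC hS hσ hσ' hc hc' w1 hw1 h1 w hw
  have : CompleteSpace V := FiniteDimensional.complete ℂ V
  -- continuity of the inverse
  let T : ℂ → (V →L[ℝ] V) := fun w => LinearMap.toContinuousLinearMap (σ w : V →ₗ[ℝ] V)
  have hT : ContinuousOn T W := continuousOn_clm_apply.2 fun y => hc y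
  have hu : ∀ w, IsUnit (T w) := by
    intro w
    refine ⟨⟨T w, LinearMap.toContinuousLinearMap ((σ w).symm : V →ₗ[ℝ] V), ?_, ?_⟩, rfl⟩
    · ext v
      exact (σ w).apply_symm_apply v
    · ext v
      exact (σ w).symm_apply_apply v
  have hinv : ∀ w x, Ring.inverse (T w) x = (σ w).symm x := by
    intro w x
    have h2 : Ring.inverse (T w) * T w = 1 := Ring.inverse_mul_cancel _ (hu w)
    have h3 : Ring.inverse (T w) (T w ((σ w).symm x)) = (σ w).symm x :=
      congrArg (fun A : V →L[ℝ] V => A ((σ w).symm x)) h2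
    have h4 : T w ((σ w).symm x) = x := (σ w).apply_symm_apply x
    rw [h4] at h3
    exact h3
  have hg : ContinuousOn (fun w => Ring.inverse (T w)) W := by
    intro w hw
    obtain ⟨u, hu'⟩ := hu w
    have h4 : ContinuousAt Ring.inverse (T w) := by
      rw [← hu']
      exact NormedRing.inverse_continuousAt u
    exact ContinuousAt.comp_continuousWithinAt h4 (hT w hw)
  have key : ∀ v ∈ L0, ∀ w ∈ W, (σ w).symm (σ' w v) = v := by
    intro v hv w hw
    have hf : ContinuousOn (fun w => (σ w).symm (σ' w v)) W := by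
      have h5 : ContinuousOn (fun w => Ring.inverse (T w) (σ' w v)) W := hg.clm_apply (hc' v)
      exact h5.congr fun w _ => (hinv w _).symm
    have hsub : (fun w => (σ w).symm (σ' w v)) '' W ⊆ L0 := by
      rintro _ ⟨w, hw, rfl⟩
      have h6 : σ' w v ∈ σ w '' L0 := by
        rw [hσ w hw, ← hσ' w hw]
        exact Set.mem_image_of_mem _ hv
      obtain ⟨y, hy, hy'⟩ := h6
      change (σ w).symm (σ' w v) ∈ L0
      rw [← hy', (σ w).symm_apply_apply]
      exact hy
    have h7 := hC.isTotallyDisconnected _ hsub (hW.image _ hf)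
    have h8 := h7 (Set.mem_image_of_mem _ hw) (Set.mem_image_of_mem _ hw1)
    refine h8.trans ?_
    change (σ w1).symm (σ' w1 v) = v
    rw [← h1 v, (σ w1).symm_apply_apply]
  have hl : (σ w : V →ₗ[ℝ] V) = (σ' w : V →ₗ[ℝ] V) := by
    refine LinearMap.ext_on hS fun v hv => ?_
    have h9 := key v hv w hw
    change σ w v = σ' w v
    rw [LinearEquiv.symm_apply_eq] at h9
    exact h9.symm
  exact fun v => LinearMap.congr_fun hl v

end Pool.Agent.A640.Tate
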