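import Pool.Agent.Lib.MP_640417_ag.TATE.FP.Spec

/-!
# PROJECT TATE, package FP: the operator Schwarz lemma, the function `Z`
-/

set_option autoImplicit false

open Metric Set Complex

noncomputable section

namespace Pool.Agent.A640.Tate

namespace FPZ

variable {V : Type} [NormedAddCommGroup V] [NormedSpace ℂ V]

/-- The complex linear half of a real linear map. -/
def lA (τ : V ≃ₗ[ℝ] V) : V →ₗ[ℂ] V where
  toFun v := (1 / 2 : ℂ) • (τ v - Complex.I • τ (Complex.I • v))
  map_add' u v := by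
    simp only [smul_add, map_add]
    module
  map_smul' c v := by
    have h1 : c • v = c.re • v + c.im • (Complex.I • v) := by
      rw [← Complex.coe_smul, ← Complex.coe_smul c.im, smul_smul, ← add_smul, Complex.re_add_im]
    have h2 : Complex.I • (c • v) = c.re • (Complex.I • v) - c.im • v := by
      rw [← Complex.coe_smul, ← Complex.coe_smul c.im, smul_smul, smul_smul, ← sub_smul]
      congr 1
      apply Complex.ext <;> simp
    rw [RingHom.id_apply, h2, h1]
    simp only [map_add, map_sub, map_smul]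
    generalize τ v = p
    generalize τ (Complex.I • v) = q
    have h3 : c = (c.re : ℂ) + (c.im : ℂ) * Complex.I := (Complex.re_add_im c).symm
    have h4 : Complex.I * Complex.I = -1 := Complex.I_mul_I
    simp only [← Complex.coe_smul]
    match_scalars
    · linear_combination (-(1 / 2) : ℂ) * h3
    · linear_combination ((1 / 2) * Complex.I : ℂ) * h3 + ((1 / 2) * (c.im : ℂ)) * h4

theorem lA_apply (τ : V ≃ₗ[ℝ] V) (v : V) :
    lA τ v = (1 / 2 : ℂ) • (τ v - Complex.I • τ (Complex.I • v)) := rfl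

/-- The antilinear half. -/
def lB (τ : V ≃ₗ[ℝ] V) (v : V) : V := (1 / 2 : ℂ) • (τ v + Complex.I • τ (Complex.I • v))

theorem lA_add_lB (τ : V ≃ₗ[ℝ] V) (v : V) : τ v = lA τ v + lB τ v := by
  rw [lA_apply, lB]
  module

theorem lB_I (τ : V ≃ₗ[ℝ] V) (v : V) : lB τ (Complex.I • v) = -(Complex.I • lB τ v) := by
  have h : Complex.I • (Complex.I • v) = -v := by
    rw [smul_smul, Complex.I_mul_I, neg_one_smul]
  rw [lB, lB, h, map_neg]
  have h4 : Complex.I * Complex.I = -1 := Complex.I_mul_I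
  match_scalars
  · linear_combination ((1 / 2) : ℂ) * h4
  · ring

theorem lA_inj (E0 E1 : V →ₗ[ℝ] V →ₗ[ℝ] ℝ) (τ : V ≃ₗ[ℝ] V) (hp : ∀ u v, E1 (τ u) (τ v) = E0 u v)
    (h0 : ∀ v, v ≠ 0 → 0 < E0 (Complex.I • v) v) (h1 : ∀ v, v ≠ 0 → 0 < E1 (Complex.I • v) v) :
    Function.Injective (lA τ) := by
  rw [injective_iff_map_eq_zero]
  intro v hv
  by_contra hne
  have h2 : τ v = Complex.I • τ (Complex.I • v) := by
    rw [lA_apply, smul_eq_zero] at hv
    rcases hv with hv | hv
    · norm_num at hv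
    · exact sub_eq_zero.1 hv
  have h3 : Complex.I • τ v = -τ (Complex.I • v) := by
    rw [h2, smul_smul, Complex.I_mul_I, neg_one_smul]
  have h4 := h1 (τ v) (fun h => hne (by simpa using h))
  rw [h3, map_neg, LinearMap.neg_apply, hp] at h4
  have h5 := h0 v hne
  linarith

/-- The estimate. -/
theorem est (E0 E1 : V →ₗ[ℝ] V →ₗ[ℝ] ℝ) (τ : V ≃ₗ[ℝ] V) (hp : ∀ u v, E1 (τ u) (τ v) = E0 u v)
    (ha : ∀ u v, E0 u v = -E0 v u) (hi : ∀ u v, E0 (Complex.I • u) (Complex.I • v) = E0 u v)
    (h1 : ∀ v, v ≠ 0 → 0 < E1 (Complex.I • v) v) (Z : V → V)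
    (hZ : ∀ v, lA τ (Z v) = lB τ v) (hA : Function.Injective (lA τ)) (t : V) :
    E0 (Complex.I • Z t) (Z t) ≤ E0 (Complex.I • t) t := by
  have hZI : ∀ v, Z (Complex.I • v) = -(Complex.I • Z v) := fun v => hA (by
    rw [hZ, lB_I, map_neg, map_smul, hZ])
  have hB : ∀ v, lB τ v = lA τ (Z v) := fun v => (hZ v).symm
  -- additivity of `B`
  have hBa : ∀ u v, lB τ (u + v) = lB τ u + lB τ v := fun u v => by
    simp only [lB, smul_add, map_add]
    module
  have hZa : ∀ u v, Z (u + v) = Z u + Z v := fun u v => hA (by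
    rw [hZ, hBa, map_add, hZ, hZ])
  have hZs : ∀ u v, Z (u - v) = Z u - Z v := fun u v => by
    have := hZa (u - v) v
    rw [sub_add_cancel] at this
    rw [this, add_sub_cancel_right]
  have h4 : Complex.I • τ (t - Z t) = τ (Complex.I • (t + Z t)) := by
    rw [lA_add_lB τ (t - Z t), lA_add_lB τ (Complex.I • (t + Z t)), hB, hB, ← map_add, ← map_add,
      ← map_smul]
    congr 1
    rw [hZI, hZa, hZs]
    module
  have h5 : 0 ≤ E1 (Complex.I • τ (t - Z t)) (τ (t - Z t)) := by
    by_cases h : τ (t - Z t) = 0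
    · rw [h]
      simp
    · exact (h1 _ h).le
  rw [h4, hp, smul_add, map_add, map_sub, LinearMap.add_apply, LinearMap.add_apply] at h5
  have h6 : E0 (Complex.I • t) (Z t) = E0 (Complex.I • Z t) t := by
    have := hi (Complex.I • t) (Z t)
    rw [smul_smul, Complex.I_mul_I, neg_one_smul, map_neg, LinearMap.neg_apply] at this
    rw [← this, ha t, neg_neg]
  linarith

theorem lA_diff [FiniteDimensional ℂ V] {s : Set ℂ} (hs : IsOpen s) (τ : ℂ → (V ≃ₗ[ℝ] V))
    (h : ∀ v, DifferentiableOn ℂ (fun w => τ w v) s) :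
    DifferentiableOn ℂ (fun w => LinearMap.toContinuousLinearMap (lA (τ w))) s := by
  have : CompleteSpace V := FiniteDimensional.complete ℂ V
  have h1 : ContDiffOn ℂ 1 (fun w => LinearMap.toContinuousLinearMap (lA (τ w))) s := by
    rw [contDiffOn_clm_apply]
    intro v
    apply DifferentiableOn.contDiffOn _ hs
    have : (fun w => (LinearMap.toContinuousLinearMap (lA (τ w))) v) =
        fun w => (1 / 2 : ℂ) • (τ w v - Complex.I • τ w (Complex.I • v)) := by
      funext w
      simp [lA_apply]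
    rw [this]
    exact ((h v).sub ((h (Complex.I • v)).const_smul Complex.I)).const_smul (1 / 2 : ℂ)
  exact h1.differentiableOn (by norm_num)

end FPZ

open FPZ in
/-- S1. -/
theorem stmtZ : StmtZ := by
  intro V _ _ _ d U L E O w0 r τ hF hU hT
  have : CompleteSpace V := FiniteDimensional.complete ℂ V
  have hw0 : w0 ∈ ball w0 r := mem_ball_self hT.pos
  set A : ℂ → (V →L[ℂ] V) := fun w => LinearMap.toContinuousLinearMap (lA (τ w)) with hAdef
  have hAapp : ∀ w v, A w v = lA (τ w) v := fun w v => rfl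
  have hinj : ∀ w ∈ ball w0 r, Function.Injective (lA (τ w)) := fun w hw =>
    lA_inj (E w0) (E w) (τ w) (hT.pol w hw) (hF.pos w0 (hU hw0)) (hF.pos w (hU hw))
  have hAd : DifferentiableOn ℂ A (ball w0 r) := lA_diff isOpen_ball τ hT.hol
  have hunit : ∀ w ∈ ball w0 r, IsUnit (A w) := by
    intro w hw
    let e : V ≃ₗ[ℂ] V := LinearEquiv.ofInjectiveEndo (lA (τ w)) (hinj w hw)
    let e' : V ≃L[ℂ] V := e.toContinuousLinearEquiv
    have : A w = (e' : V →L[ℂ] V) := by
      ext v
      rfl
    rw [this]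
    exact ⟨(ContinuousLinearEquiv.unitsEquiv ℂ V).symm e', rfl⟩
  have hinv : DifferentiableOn ℂ (fun w => Ring.inverse (A w)) (ball w0 r) := by
    intro w hw
    exact (differentiableAt_inverse (𝕜 := ℂ) (hunit w hw)).comp_differentiableWithinAt w (hAd w hw)
  have hBd : ∀ v, DifferentiableOn ℂ (fun w => lB (τ w) v) (ball w0 r) := fun v =>
    ((hT.hol v).add ((hT.hol (Complex.I • v)).const_smul Complex.I)).const_smul (1 / 2 : ℂ)
  have hZd : ∀ v, DifferentiableOn ℂ (fun w => (Ring.inverse (A w)) (lB (τ w) v)) (ball w0 r) :=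
    fun v => hinv.clm_apply (hBd v)
  refine ⟨fun w v => (Ring.inverse (A w)) (lB (τ w) v), hZd, ?_, ?_⟩
  · intro w hw v
    refine est (E w0) (E w) (τ w) (hT.pol w hw) (hF.alt w0 (hU hw0)) (hF.inv w0 (hU hw0))
      (hF.pos w (hU hw)) (fun v => (Ring.inverse (A w)) (lB (τ w) v)) (fun v => ?_) (hinj w hw) v
    rw [← hAapp]
    have := congrArg (fun f : V →L[ℂ] V => f (lB (τ w) v)) (Ring.mul_inverse_cancel (A w) (hunit w hw))
    exact this
  · intro v
    have hA1 : A w0 = 1 := by
      ext u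
      rw [hAapp, lA_apply, hT.one, hT.one, smul_smul, Complex.I_mul_I]
      simp only [one_apply_eq_self]
      module
    have hB0 : lB (τ w0) v = 0 := by
      rw [lB, hT.one, hT.one, smul_smul, Complex.I_mul_I]
      module
    have h1 : DifferentiableAt ℂ (fun w => Ring.inverse (A w)) w0 :=
      hinv.differentiableAt (isOpen_ball.mem_nhds hw0)
    have h2 : DifferentiableAt ℂ (fun w => lB (τ w) v) w0 :=
      (hBd v).differentiableAt (isOpen_ball.mem_nhds hw0)
    have h3 := (h1.hasDerivAt.clm_apply h2.hasDerivAt).deriv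
    rw [h3, hB0, hA1, map_zero, zero_add, Ring.inverse_one, one_apply_eq_self]
    have h4 : DifferentiableAt ℂ (fun w => τ w v) w0 :=
      (hT.hol v).differentiableAt (isOpen_ball.mem_nhds hw0)
    have h5 : DifferentiableAt ℂ (fun w => τ w (Complex.I • v)) w0 :=
      (hT.hol (Complex.I • v)).differentiableAt (isOpen_ball.mem_nhds hw0)
    have h6 := ((h4.hasDerivAt.add (h5.hasDerivAt.const_smul Complex.I)).const_smul
      (1 / 2 : ℂ)).deriv
    exact h6

end Pool.Agent.A640.Tate
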